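import Pool.Agent.L0h3.WB.Meas

/-! The elliptic curve instance. -/

set_option autoImplicit false

namespace Pool.Agent.L0h3.WB

open MeasureTheory Filter Topology Set Classical
open Pool.Agent.W263.BSD Pool.Agent.W524.RY
open Pool.Agent.W189.ML (exp_eq)

variable {a b : ℤ} {F : ℂ → ℂ} {w : ℝ → ℂ} {B : ℝ}

/-- `∑_{p ≤ X, p ∤ 2Δ} w(log p / log X) log ((N_p + 1)/p)` -/
noncomputable def wSum (a b : ℤ) (w : ℝ → ℂ) (X : ℝ) : ℂ :=
  ∑ p ∈ (Finset.range (⌊X⌋₊ + 1)).filter (GoodPrime a b),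
    w (Real.log p / Real.log X) * (Real.log (((pointCount a b p : ℝ) + 1) / p) : ℂ)

theorem co_cf (a b : ℤ) : Co (cf a b) where
  le_one := fun p => by
    unfold cf
    split_ifs with h
    · exact (eData a b).cc_abs h
    · simp
  big := fun p hp => by
    unfold cf at hp
    split_ifs at hp with h
    · have := h.2
      omega
    · exact absurd rfl hp

theorem eul (hF : IsLSeries a b F) : Eul (cf a b) (PhiF a b F) (GG (SS a b) (Ap a b)) where
  co := co_cf a b
  hΦ := PhiF_differentiable hF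
  hG := fun _ hz => (eData a b).GG_differentiable hz
  eq := fun z hz => (exp_eq (eData a b) hz (PhiF_hasProd hF hz)).symm

theorem hsec (a b : ℤ) : ∀ R : ℝ, 0 ≤ R → ∃ C : ℝ, ∀ v : ℂ, 0 < v.re → ‖v‖ ≤ R * v.re →
    ‖GG (SS a b) (Ap a b) v‖ ≤ C := fun _ hR => GG_sector' (eData a b) hR

theorem wSum_approx (a b : ℤ) (hB : ∀ y ∈ Icc (0 : ℝ) 1, ‖w y‖ ≤ B) :
    ∃ K : ℝ, 0 ≤ K ∧ ∀ X : ℝ, 25 ≤ X → ‖wSum a b w X - gT (cf a b) w (Real.log X)‖ ≤ K := by
  have hB0 : 0 ≤ B := (norm_nonneg _).trans (hB 0 ⟨le_rfl, zero_le_one⟩)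
  refine ⟨∑ p ∈ Finset.range 25, B * |lp a b p|, by positivity, fun X hX => ?_⟩
  have hX0 : (0 : ℝ) < X := by linarith
  rw [gT_eq (co_cf a b), Real.exp_log hX0]
  unfold wSum
  rw [Finset.sum_filter, ← Finset.sum_sub_distrib]
  have h25 : Finset.range 25 ⊆ Finset.range (⌊X⌋₊ + 1) := by
    intro p hp
    rw [Finset.mem_range] at hp ⊢
    have : 25 ≤ ⌊X⌋₊ := Nat.le_floor (by exact_mod_cast hX)
    omega
  rw [← Finset.sum_subset h25]
  · refine (norm_sum_le _ _).trans (Finset.sum_le_sum fun p hp => ?_)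
    rw [Finset.mem_range] at hp
    have h1 : cf a b p = 0 := by
      unfold cf
      rw [if_neg]
      rintro ⟨-, h⟩
      omega
    rw [h1, Complex.ofReal_zero, zero_mul, sub_zero]
    split_ifs with hg
    · rw [norm_mul, Complex.norm_real, Real.norm_eq_abs]
      refine mul_le_mul_of_nonneg_right (hB _ ⟨?_, ?_⟩) (abs_nonneg _)
      · have := Real.log_natCast_nonneg p
        have : 0 ≤ Real.log X := Real.log_nonneg (by linarith)
        positivity
      · refine div_le_one_of_le₀ (Real.log_le_log ?_ ?_) (Real.log_nonneg (by linarith))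
        · exact_mod_cast hg.1.pos
        · have : (p : ℝ) ≤ 25 := by exact_mod_cast (by omega : p ≤ 25)
          linarith
    · rw [norm_zero]
      positivity
  · intro p hp1 hp2
    rw [Finset.mem_range, not_lt] at hp2
    by_cases hg : GoodPrime a b p
    · rw [if_pos hg]
      have h1 : cf a b p = Real.log (((pointCount a b p : ℝ) + 1) / p) := by
        unfold cf
        rw [if_pos (show p ∈ SS a b from ⟨hg, hp2⟩), cc_eq_lp hg.1.one_le]
        rfl
      rw [h1]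
      ring
    · rw [if_neg hg]
      have h1 : cf a b p = 0 := by
        unfold cf
        rw [if_neg]
        rintro ⟨h, -⟩
        exact hg h
      rw [h1]
      simp

theorem F_ne_of_Phi {s : ℂ} (h : PhiF a b F (s - 1) ≠ 0) : F s ≠ 0 := by
  intro h0
  apply h
  unfold PhiF
  rw [add_sub_cancel, h0, zero_mul]

theorem rpow_log {X δ : ℝ} (hX : 0 < X) : X ^ δ = Real.exp (δ * Real.log X) := by
  rw [Real.rpow_def_of_pos hX]
  ring_nf

/-- the growth of the weighted sums bounds the zeros of `F` -/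
theorem zero_free (hF : IsLSeries a b F) (hwm : Measurable w)
    (hB : ∀ y ∈ Icc (0 : ℝ) 1, ‖w y‖ ≤ B) {δ C : ℝ} (hδ : 0 ≤ δ)
    (h : ∀ᶠ X : ℝ in atTop, ‖wSum a b w X‖ ≤ C * X ^ δ) {y : ℝ}
    (hy : y ∈ Ioo (0 : ℝ) 1) (hne : ¬ ∀ᵐ t ∂(volume.restrict (Ioo y 1)), w t = 0) {s : ℂ}
    (hs : 1 + δ / y < s.re) : F s ≠ 0 := by
  obtain ⟨K, hK0, hK⟩ := wSum_approx (w := w) a b hB
  have h1 : ∀ᶠ T : ℝ in atTop, ‖gT (cf a b) w T‖ ≤ (|C| + K) * Real.exp (δ * T) := by
    have h2 := Real.tendsto_exp_atTop.eventually h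
    filter_upwards [h2, Real.tendsto_exp_atTop.eventually (eventually_ge_atTop (25 : ℝ)),
      eventually_ge_atTop (0 : ℝ)] with T h3 h4 h5
    have h6 := hK _ h4
    rw [Real.log_exp] at h6
    rw [rpow_log (Real.exp_pos T), Real.log_exp] at h3
    have h7 : 1 ≤ Real.exp (δ * T) := Real.one_le_exp (by positivity)
    have h8 : ‖gT (cf a b) w T‖ ≤ ‖wSum a b w (Real.exp T)‖ +
        ‖wSum a b w (Real.exp T) - gT (cf a b) w T‖ := by
      have := norm_sub_le (wSum a b w (Real.exp T)) (wSum a b w (Real.exp T) - gT (cf a b) w T)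
      rwa [sub_sub_cancel] at this
    have h9 : C * Real.exp (δ * T) ≤ |C| * Real.exp (δ * T) :=
      mul_le_mul_of_nonneg_right (le_abs_self C) (Real.exp_pos _).le
    nlinarith
  obtain ⟨C', hC'0, hC'⟩ := gT_global (co_cf a b) hB hδ h1
  refine F_ne_of_Phi ((eul hF).no_zero_meas hwm hB hδ hC'0 hC' hy hne ?_)
  rw [Complex.sub_re, Complex.one_re]
  linarith

theorem not_ae_zero {w0 : ℂ} (hw0 : w0 ≠ 0) (ht : Tendsto w (𝓝[>] 0) (𝓝 w0)) :
    ∃ y ∈ Ioo (0 : ℝ) 1, ¬ ∀ᵐ t ∂(volume.restrict (Ioo y 1)), w t = 0 := by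
  have h1 : ∀ᶠ t in 𝓝[>] (0 : ℝ), w t ≠ 0 := ht.eventually_ne hw0
  obtain ⟨a, ha0, ha⟩ := mem_nhdsGT_iff_exists_Ioo_subset.1 h1
  have ha0' : (0 : ℝ) < a := ha0
  set m : ℝ := min a 1 with hm
  have hm0 : 0 < m := lt_min ha0' one_pos
  refine ⟨m / 2, ⟨by positivity, by have := min_le_right a 1; linarith⟩, fun h => ?_⟩
  have h2 : ∀ᵐ t ∂(volume.restrict (Ioo (m / 2) m)), w t = 0 :=
    ae_restrict_of_ae_restrict_of_subset (Ioo_subset_Ioo_right (min_le_right a 1)) h
  have h7 : (volume.restrict (Ioo (m / 2) m)) ≠ 0 := by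
    rw [Ne, Measure.restrict_eq_zero, Real.volume_Ioo, ENNReal.ofReal_eq_zero]
    linarith
  have : NeZero (volume.restrict (Ioo (m / 2) m)) := ⟨h7⟩
  obtain ⟨t, ht1, ht2⟩ := (h2.and (ae_restrict_mem measurableSet_Ioo)).exists
  exact ha ⟨by linarith [ht2.1], ht2.2.trans_le (min_le_left a 1)⟩ ht1

/-- the weighted law gives the Riemann hypothesis and the order of vanishing -/
theorem law (hF : IsLSeries a b F) (hwm : Measurable w)
    (hB : ∀ y ∈ Icc (0 : ℝ) 1, ‖w y‖ ≤ B) {w0 : ℂ} (hw0 : w0 ≠ 0)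
    (ht : Tendsto w (𝓝[>] 0) (𝓝 w0)) {ρ : ℂ}
    (hlim : Tendsto (fun X : ℝ => wSum a b w X / (Real.log (Real.log X) : ℂ)) atTop
      (𝓝 (w0 * ρ))) :
    (∀ s : ℂ, 1 < s.re → F s ≠ 0) ∧ ∃ r : ℕ, analyticOrderAt F 1 = r ∧ ρ = r := by
  have hB0 : 0 ≤ B := (norm_nonneg _).trans (hB 0 ⟨le_rfl, zero_le_one⟩)
  obtain ⟨K, hK0, hK⟩ := wSum_approx (w := w) a b hB
  have E := eul hF
  set c := cf a b with hc
  -- the law for `gT`
  have h1 : Tendsto (fun T : ℝ => gT c w T / (Real.log T : ℂ)) atTop (𝓝 (w0 * ρ)) := by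
    have h2 := hlim.comp Real.tendsto_exp_atTop
    have h3 : Tendsto (fun T : ℝ => (wSum a b w (Real.exp T) - gT c w T) / (Real.log T : ℂ)) atTop
        (𝓝 0) := by
      refine squeeze_zero_norm' (a := fun T => K * (Real.log T)⁻¹) ?_ ?_
      · filter_upwards [Real.tendsto_exp_atTop.eventually (eventually_ge_atTop (25 : ℝ)),
          Real.tendsto_log_atTop.eventually (eventually_gt_atTop (0 : ℝ))] with T h4 h5
        have h6 := hK _ h4
        rw [Real.log_exp] at h6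
        rw [norm_div, Complex.norm_real, Real.norm_of_nonneg h5.le, div_eq_mul_inv]
        gcongr
      · have := (Real.tendsto_log_atTop.inv_tendsto_atTop).const_mul K
        rwa [mul_zero] at this
    have h4 := h2.sub h3
    rw [sub_zero] at h4
    refine h4.congr fun T => ?_
    simp only [Function.comp_apply, Real.log_exp]
    ring
  obtain ⟨C1, hC1⟩ : ∃ C1 : ℝ, ∀ᶠ T : ℝ in atTop, ‖gT c w T‖ ≤ C1 * Real.log T := by
    refine ⟨‖w0 * ρ‖ + 1, ?_⟩
    filter_upwards [h1.norm.eventually (gt_mem_nhds (lt_add_one ‖w0 * ρ‖)),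
      Real.tendsto_log_atTop.eventually (eventually_gt_atTop (0 : ℝ))] with T h2 h3
    rw [norm_div, Complex.norm_real, Real.norm_of_nonneg h3.le, div_lt_iff₀ h3] at h2
    exact h2.le
  obtain ⟨C2, hC20, hC2⟩ : ∃ C2 : ℝ, 0 ≤ C2 ∧ ∀ T : ℝ, 0 < T →
      ‖gT c w T‖ ≤ C2 * (1 + Real.log (1 + T)) := by
    obtain ⟨T0, hT0⟩ := eventually_atTop.1 (hC1.and (eventually_ge_atTop (1 : ℝ)))
    refine ⟨max |C1| (B * (Real.exp T0 + 1)), le_max_of_le_left (abs_nonneg _), fun T hT => ?_⟩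
    have h3 : 0 ≤ Real.log (1 + T) := Real.log_nonneg (by linarith)
    by_cases hle : T0 ≤ T
    · obtain ⟨h4, h5⟩ := hT0 T hle
      refine h4.trans ?_
      have h6 : Real.log T ≤ 1 + Real.log (1 + T) := by
        have := Real.log_le_log hT (by linarith : T ≤ 1 + T)
        linarith
      have h7 : 0 ≤ Real.log T := Real.log_nonneg h5
      calc C1 * Real.log T ≤ |C1| * Real.log T := by gcongr; exact le_abs_self C1
        _ ≤ max |C1| (B * (Real.exp T0 + 1)) * (1 + Real.log (1 + T)) := by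
            gcongr
            exact le_max_left _ _
    · push Not at hle
      refine (gT_trivial (co_cf a b) hB T).trans ?_
      have h2 : B * (Real.exp T + 1) ≤ B * (Real.exp T0 + 1) := by
        gcongr
      refine h2.trans ((le_max_right |C1| _).trans ?_)
      refine le_mul_of_one_le_right ?_ (by linarith)
      exact le_max_of_le_left (abs_nonneg _)
  have hexp : ∀ δ : ℝ, 0 < δ → ∃ C' : ℝ, 0 ≤ C' ∧ ∀ T : ℝ, 0 < T →
      ‖gT c w T‖ ≤ C' * Real.exp (δ * T) := by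
    intro δ hδ
    refine ⟨C2 * (1 + 1 / δ), by positivity, fun T hT => (hC2 T hT).trans ?_⟩
    rw [mul_assoc]
    refine mul_le_mul_of_nonneg_left ?_ hC20
    have h3 : Real.log (1 + T) ≤ T := by
      have := Real.log_le_sub_one_of_pos (by linarith : 0 < 1 + T)
      linarith
    have h4 : 1 ≤ Real.exp (δ * T) := Real.one_le_exp (by positivity)
    have h5 : δ * T ≤ Real.exp (δ * T) := by
      have := Real.add_one_le_exp (δ * T)
      linarith
    have h6 : T ≤ 1 / δ * Real.exp (δ * T) := by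
      rw [one_div, inv_mul_eq_div, le_div_iff₀ hδ]
      linarith
    linarith
  obtain ⟨y, hy, hne⟩ := not_ae_zero hw0 ht
  have hnz : ∀ z : ℂ, 0 < z.re → PhiF a b F z ≠ 0 := by
    intro z hz
    have hy0 := hy.1
    obtain ⟨C', hC'0, hC'⟩ := hexp (y * z.re / 2) (by positivity)
    refine E.no_zero_meas hwm hB (by positivity) hC'0 hC' hy hne ?_
    have : y * z.re / 2 / y = z.re / 2 := by field_simp
    rw [this]
    linarith
  have hd : ∀ z : ℂ, 0 < z.re → DifferentiableAt ℂ (LT c w) z := by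
    intro z hz
    obtain ⟨C', hC'0, hC'⟩ := hexp (z.re / 2) (by positivity)
    exact LT_diff (co_cf a b) hwm hC'0 hC' (by linarith)
  refine ⟨fun s hs => F_ne_of_Phi (hnz _ (by rw [Complex.sub_re, Complex.one_re]; linarith)), ?_⟩
  obtain ⟨r, hr⟩ := order_finite hF
  refine ⟨r, hr, ?_⟩
  have hn : analyticOrderAt (PhiF a b F) 0 = r := by
    obtain ⟨g, hg, hg0, he⟩ := ordZero hF hr
    rw [((PhiF_differentiable hF).analyticAt 0).analyticOrderAt_eq_natCast]
    refine ⟨g, hg, hg0, ?_⟩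
    filter_upwards [he] with z hz
    rw [hz, sub_zero, smul_eq_mul]
  have h2 := E.law_order (hsec a b) hwm hB hnz hd hn ht
  have h3 := abelian (gT_meas hwm) hC2 h1
  have h4 := tendsto_nhds_unique h3 h2
  exact mul_left_cancel₀ hw0 h4

end Pool.Agent.L0h3.WB
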