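import Pool.Agent.L0h3.WB.Conv2

/-! Truncated weights of class `C³` as superpositions of Riesz weights. -/

set_option autoImplicit false

namespace Pool.Agent.L0h3.WB

open MeasureTheory Filter Topology Set Classical

variable {c : ℕ → ℝ} {ω : ℝ → ℂ}

/-- the Riesz weight -/
noncomputable def rw2 (y : ℝ) : ℂ := ((1 - y : ℝ) : ℂ) ^ 2

theorem deriv_one {g : ℝ → ℂ} (hg : Continuous (deriv g)) (h : ∀ y : ℝ, 1 ≤ y → g y = 0) :
    ∀ y : ℝ, 1 ≤ y → deriv g y = 0 := by
  have h1 : ∀ y : ℝ, 1 < y → deriv g y = 0 := by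
    intro y hy
    have h2 : g =ᶠ[𝓝 y] fun _ => (0 : ℂ) := by
      filter_upwards [lt_mem_nhds hy] with z hz using h z hz.le
    rw [h2.deriv_eq, deriv_const]
  intro y hy
  rcases hy.lt_or_eq with hlt | rfl
  · exact h1 y hlt
  · have h3 : Tendsto (deriv g) (𝓝[>] 1) (𝓝 (deriv g 1)) :=
      tendsto_nhdsWithin_of_tendsto_nhds (hg.tendsto 1)
    have h4 : Tendsto (deriv g) (𝓝[>] 1) (𝓝 0) := by
      refine tendsto_const_nhds.congr' ?_
      filter_upwards [self_mem_nhdsWithin] with z hz using (h1 z hz).symm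
    exact tendsto_nhds_unique h3 h4

/-- Taylor's formula -/
theorem taylor3 (hω : ContDiff ℝ 3 ω) (h : ∀ y : ℝ, 1 ≤ y → ω y = 0) :
    Continuous (deriv (deriv (deriv ω))) ∧ ∀ y : ℝ, ∫ s in y..1, ((s - y : ℝ) : ℂ) ^ 2 *
      deriv (deriv (deriv ω)) s = -(2 * ω y) := by
  have h1 : ContDiff ℝ (2 + 1) ω := by
    have : (2 + 1 : WithTop ℕ∞) = 3 := by norm_num
    rw [this]
    exact hω
  obtain ⟨hd0, -, hc1⟩ := contDiff_succ_iff_deriv.1 h1
  have h2 : ContDiff ℝ (1 + 1) (deriv ω) := by
    have : (1 + 1 : WithTop ℕ∞) = 2 := by norm_num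
    rw [this]
    exact hc1
  obtain ⟨hd1, -, hc2⟩ := contDiff_succ_iff_deriv.1 h2
  have h3 : ContDiff ℝ (0 + 1) (deriv (deriv ω)) := by
    rw [zero_add]
    exact hc2
  obtain ⟨hd2, -, hc3⟩ := contDiff_succ_iff_deriv.1 h3
  have hcc1 : Continuous (deriv ω) := hc1.continuous
  have hcc2 : Continuous (deriv (deriv ω)) := hc2.continuous
  have hcc3 : Continuous (deriv (deriv (deriv ω))) := hc3.continuous
  have hz1 := deriv_one hcc1 h
  have hz2 := deriv_one hcc2 hz1
  refine ⟨hcc3, fun y => ?_⟩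
  have hder : ∀ s : ℝ, HasDerivAt (fun s : ℝ => ((s - y : ℝ) : ℂ) ^ 2 * deriv (deriv ω) s -
      2 * ((s - y : ℝ) : ℂ) * deriv ω s + 2 * ω s)
      (((s - y : ℝ) : ℂ) ^ 2 * deriv (deriv (deriv ω)) s) s := by
    intro s
    have e0 : HasDerivAt (fun s : ℝ => ((s - y : ℝ) : ℂ)) 1 s := by
      have := ((hasDerivAt_id s).sub_const y).ofReal_comp
      simpa using this
    have e1 := (e0.pow 2).mul (hd2 s).hasDerivAt
    have e2 := (e0.const_mul 2).mul (hd1 s).hasDerivAt
    have e3 := (hd0 s).hasDerivAt.const_mul 2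
    have e4 := (e1.sub e2).add e3
    refine e4.congr_deriv ?_
    simp only [Nat.cast_ofNat, Pi.pow_apply]
    ring
  rw [intervalIntegral.integral_eq_sub_of_hasDerivAt (fun s _ => hder s)]
  · rw [h 1 le_rfl, hz1 1 le_rfl, hz2 1 le_rfl]
    simp
  · refine Continuous.intervalIntegrable ?_ _ _
    fun_prop

/-- the weight as a superposition -/
theorem super_eq (hc : Co c) (hω : ContDiff ℝ 3 ω) (h : ∀ y : ℝ, 1 ≤ y → ω y = 0) {T : ℝ}
    (hT : 0 < T) : ∫ s in Ioo (0 : ℝ) 1, deriv (deriv (deriv ω)) s * ((s : ℂ) ^ 2 * gT c rw2 (s * T)) =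
      -(2 * gT c ω T) := by
  obtain ⟨hcc3, htay⟩ := taylor3 hω h
  set D3 := deriv (deriv (deriv ω)) with hD3
  obtain ⟨N, hN⟩ := exists_nat_gt (Real.exp T)
  have h2 : ∀ s ∈ Ioo (0 : ℝ) 1, D3 s * ((s : ℂ) ^ 2 * gT c rw2 (s * T)) =
      ∑ p ∈ Finset.range N, (c p : ℂ) * (if Real.log p / T ≤ s then
        ((s - Real.log p / T : ℝ) : ℂ) ^ 2 * D3 s else 0) := by
    intro s hs
    have hs0 : 0 < s := hs.1
    rw [gT_fin (T := s * T) (lt_of_le_of_lt (Real.exp_le_exp.2 (by nlinarith [hs.2])) hN),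
      Finset.mul_sum, Finset.mul_sum]
    refine Finset.sum_congr rfl fun p _ => ?_
    have e2 : Real.log p ≤ s * T ↔ Real.log p / T ≤ s := by
      rw [div_le_iff₀ hT]
    by_cases h4 : Real.log p / T ≤ s
    · rw [if_pos h4, if_pos (e2.2 h4)]
      unfold rw2
      have hsc : (s : ℂ) ≠ 0 := by exact_mod_cast hs0.ne'
      have hTc : (T : ℂ) ≠ 0 := by exact_mod_cast hT.ne'
      push_cast
      field_simp
    · rw [if_neg h4, if_neg (fun h => h4 (e2.1 h))]
      ring
  rw [setIntegral_congr_fun measurableSet_Ioo h2, integral_finsetSum, gT_fin hN, Finset.mul_sum,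
    ← Finset.sum_neg_distrib]
  · refine Finset.sum_congr rfl fun p _ => ?_
    rw [integral_const_mul]
    by_cases hcp : c p = 0
    · rw [hcp]
      split_ifs <;> simp
    have hp3 := hc.big p hcp
    have hlog : 0 < Real.log p := Real.log_pos (by exact_mod_cast (show 1 < p by omega))
    set y : ℝ := Real.log p / T with hy
    have hy0 : 0 < y := by positivity
    by_cases hle : Real.log p ≤ T
    · have hy1 : y ≤ 1 := (div_le_one hT).2 hle
      rw [if_pos hle]
      have h5 : ∫ s in Ioo (0 : ℝ) 1, (if y ≤ s then ((s - y : ℝ) : ℂ) ^ 2 * D3 s else 0) =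
          ∫ s in y..1, ((s - y : ℝ) : ℂ) ^ 2 * D3 s := by
        rw [intervalIntegral.integral_of_le hy1, ← integral_Icc_eq_integral_Ioc,
          ← integral_indicator measurableSet_Ioo, ← integral_indicator measurableSet_Icc]
        refine integral_congr_ae ?_
        have h6 : ∀ᵐ s : ℝ, s ≠ 1 := by
          rw [ae_iff]
          simp
        filter_upwards [h6] with s hs1
        by_cases h7 : s ∈ Icc y 1
        · rw [indicator_of_mem h7, indicator_of_mem (show s ∈ Ioo (0 : ℝ) 1 from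
            ⟨hy0.trans_le h7.1, lt_of_le_of_ne h7.2 hs1⟩), if_pos h7.1]
        · rw [indicator_of_notMem h7]
          by_cases h8 : s ∈ Ioo (0 : ℝ) 1
          · rw [indicator_of_mem h8, if_neg fun h9 => h7 ⟨h9, h8.2.le⟩]
          · rw [indicator_of_notMem h8]
      rw [h5, htay y]
      ring
    · rw [if_neg hle]
      push Not at hle
      have h5 : ∫ s in Ioo (0 : ℝ) 1, (if y ≤ s then ((s - y : ℝ) : ℂ) ^ 2 * D3 s else 0) = 0 := by
        refine setIntegral_eq_zero_of_forall_eq_zero fun s hs => ?_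
        rw [if_neg]
        rw [not_le]
        exact hs.2.trans ((one_lt_div hT).2 hle)
      rw [h5]
      ring
  · intro p _
    refine Integrable.const_mul ?_ _
    have hcont : Continuous fun s : ℝ => ((s - Real.log p / T : ℝ) : ℂ) ^ 2 * D3 s := by fun_prop
    have h6 : IntegrableOn (fun s : ℝ => ((s - Real.log p / T : ℝ) : ℂ) ^ 2 * D3 s) (Ioo 0 1) :=
      (hcont.integrableOn_Icc (a := 0) (b := 1)).mono_set Ioo_subset_Icc_self
    have h7 : (fun s : ℝ => if Real.log p / T ≤ s then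
        ((s - Real.log p / T : ℝ) : ℂ) ^ 2 * D3 s else 0) =
        (Ici (Real.log p / T)).indicator fun s => ((s - Real.log p / T : ℝ) : ℂ) ^ 2 * D3 s := by
      funext s
      rw [indicator_apply]
      rfl
    rw [h7]
    exact h6.indicator measurableSet_Ici

/-- from the Riesz mean to all weights of class `C³` -/
theorem law_c3 (hc : Co c) (hω : ContDiff ℝ 3 ω) (h : ∀ y : ℝ, 1 ≤ y → ω y = 0) {n : ℕ} {M : ℝ}
    (hR : ∀ T : ℝ, 1 ≤ T → ‖gT c rw2 T - n * Real.log T‖ ≤ M) :
    ∃ M' : ℝ, ∀ T : ℝ, 1 ≤ T → ‖gT c ω T - ω 0 * (n * Real.log T)‖ ≤ M' := by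
  obtain ⟨hcc3, htay⟩ := taylor3 hω h
  set D3 := deriv (deriv (deriv ω)) with hD3
  have hM0 : 0 ≤ M := (norm_nonneg _).trans (hR 1 le_rfl)
  obtain ⟨B, hB⟩ := (isCompact_Icc (a := (0 : ℝ)) (b := 1)).exists_bound_of_continuousOn
    hcc3.continuousOn
  have hB0 : 0 ≤ B := (norm_nonneg _).trans (hB 0 ⟨le_rfl, zero_le_one⟩)
  refine ⟨B * (M + n), fun T hT => ?_⟩
  have hT0 : 0 < T := by linarith
  have hlogT : 0 ≤ Real.log T := Real.log_nonneg hT
  have hw0 : ∫ s in Ioo (0 : ℝ) 1, D3 s * (s : ℂ) ^ 2 = -(2 * ω 0) := by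
    rw [← htay 0, intervalIntegral.integral_of_le zero_le_one, ← integral_Icc_eq_integral_Ioc,
      integral_Icc_eq_integral_Ioo]
    refine setIntegral_congr_fun measurableSet_Ioo fun s _ => ?_
    simp only [sub_zero]
    ring
  -- pointwise bound
  have hpt : ∀ s ∈ Ioo (0 : ℝ) 1, ‖D3 s * ((s : ℂ) ^ 2 * (gT c rw2 (s * T) - n * Real.log T))‖ ≤
      B * (M + n) := by
    intro s hs
    have hs0 : 0 < s := hs.1
    have h1 : ‖gT c rw2 (s * T) - n * Real.log T‖ ≤ M + n / s := by
      by_cases hst : 1 ≤ s * T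
      · have h2 := hR (s * T) hst
        have e1 : gT c rw2 (s * T) - n * Real.log T =
            (gT c rw2 (s * T) - n * Real.log (s * T)) + ((n * Real.log s : ℝ) : ℂ) := by
          rw [Real.log_mul hs0.ne' hT0.ne']
          push_cast
          ring
        rw [e1]
        refine (norm_add_le _ _).trans (add_le_add h2 ?_)
        rw [Complex.norm_real, norm_mul, Real.norm_natCast, Real.norm_eq_abs,
          abs_of_nonpos (Real.log_nonpos hs0.le hs.2.le)]
        have h3 : -Real.log s ≤ 1 / s := by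
          rw [← Real.log_inv]
          have := Real.log_le_sub_one_of_pos (inv_pos.2 hs0)
          rw [one_div]
          linarith
        calc (n : ℝ) * -Real.log s ≤ n * (1 / s) := by gcongr
          _ = n / s := by ring
      · push Not at hst
        have h2 : gT c rw2 (s * T) = 0 := by
          unfold gT
          refine (tsum_congr fun p => ?_).trans tsum_zero
          by_cases hcp : c p = 0
          · rw [hcp]; simp
          · have hp3 := hc.big p hcp
            have hp3' : (3 : ℝ) ≤ p := by exact_mod_cast hp3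
            have hl : 1 ≤ Real.log p := by
              rw [Real.le_log_iff_exp_le (by linarith)]
              linarith [Real.exp_one_lt_d9]
            rw [if_neg (by linarith)]
        rw [h2, zero_sub, norm_neg, norm_mul, Complex.norm_natCast, Complex.norm_real,
          Real.norm_of_nonneg hlogT]
        have h3 : Real.log T ≤ 1 / s := by
          have h4 := Real.log_le_sub_one_of_pos hT0
          have h5 : T ≤ 1 / s := by
            rw [le_div_iff₀ hs0]
            linarith
          linarith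
        calc (n : ℝ) * Real.log T ≤ n * (1 / s) := by gcongr
          _ = n / s := by ring
          _ ≤ M + n / s := by linarith
    rw [norm_mul, norm_mul, norm_pow, Complex.norm_real, Real.norm_of_nonneg hs0.le]
    have h2 := hB s ⟨hs0.le, hs.2.le⟩
    have h3 : s ^ 2 * ‖gT c rw2 (s * T) - n * Real.log T‖ ≤ M + n := by
      calc s ^ 2 * ‖gT c rw2 (s * T) - n * Real.log T‖ ≤ s ^ 2 * (M + n / s) := by gcongr
        _ = s ^ 2 * M + n * s := by field_simp
        _ ≤ 1 * M + n * 1 := by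
            have h4 : s ^ 2 ≤ 1 := by nlinarith [hs.2]
            have h5 := hs.2.le
            gcongr
        _ = M + n := by ring
    exact mul_le_mul h2 h3 (by positivity) hB0
  have hmeas : Measurable (gT c rw2) := gT_meas (by unfold rw2; fun_prop)
  have hint : IntegrableOn (fun s : ℝ => D3 s * ((s : ℂ) ^ 2 *
      (gT c rw2 (s * T) - n * Real.log T))) (Ioo 0 1) := by
    refine Integrable.mono' (integrable_const (B * (M + n))) ?_ ?_
    · have hD3m : Measurable D3 := hcc3.measurable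
      have h5 : Measurable fun s : ℝ => gT c rw2 (s * T) := hmeas.comp (by fun_prop)
      have : Measurable fun s : ℝ => D3 s * ((s : ℂ) ^ 2 *
        (gT c rw2 (s * T) - n * Real.log T)) := by fun_prop
      exact this.aestronglyMeasurable
    · filter_upwards [ae_restrict_mem measurableSet_Ioo] with s hs using hpt s hs
  have hint2 : IntegrableOn (fun s : ℝ => D3 s * (s : ℂ) ^ 2) (Ioo 0 1) := by
    have hcont : Continuous fun s : ℝ => D3 s * (s : ℂ) ^ 2 := by fun_prop
    exact (hcont.integrableOn_Icc (a := 0) (b := 1)).mono_set Ioo_subset_Icc_self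
  have h1 := super_eq hc hω h hT0
  have h2 : ∫ s in Ioo (0 : ℝ) 1, D3 s * ((s : ℂ) ^ 2 * gT c rw2 (s * T)) =
      (∫ s in Ioo (0 : ℝ) 1, D3 s * ((s : ℂ) ^ 2 * (gT c rw2 (s * T) - n * Real.log T))) +
        ∫ s in Ioo (0 : ℝ) 1, D3 s * (s : ℂ) ^ 2 * (n * Real.log T) := by
    rw [← integral_add hint (hint2.mul_const _)]
    refine setIntegral_congr_fun measurableSet_Ioo fun s _ => ?_
    ring
  rw [integral_mul_const, hw0] at h2
  rw [← hD3] at h1
  rw [h1] at h2
  have h3 : gT c ω T - ω 0 * (n * Real.log T) = -(1 / 2) *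
      ∫ s in Ioo (0 : ℝ) 1, D3 s * ((s : ℂ) ^ 2 * (gT c rw2 (s * T) - n * Real.log T)) := by
    have h4 : ∫ s in Ioo (0 : ℝ) 1, D3 s * ((s : ℂ) ^ 2 * (gT c rw2 (s * T) - n * Real.log T)) =
        -(2 * gT c ω T) - (-(2 * ω 0) * (n * Real.log T)) := by
      rw [h2]
      ring
    rw [h4]
    ring
  rw [h3, norm_mul, norm_neg, norm_div, norm_one, Complex.norm_ofNat]
  have h5 : ‖∫ s in Ioo (0 : ℝ) 1, D3 s * ((s : ℂ) ^ 2 * (gT c rw2 (s * T) - n * Real.log T))‖ ≤
      ∫ _s in Ioo (0 : ℝ) 1, B * (M + n) := by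
    refine norm_integral_le_of_norm_le (integrable_const _) ?_
    filter_upwards [ae_restrict_mem measurableSet_Ioo] with s hs using hpt s hs
  rw [setIntegral_const, Measure.real, Real.volume_Ioo, sub_zero, ENNReal.toReal_ofReal zero_le_one,
    one_smul] at h5
  have h6 : 0 ≤ B * (M + n) := by positivity
  linarith

end Pool.Agent.L0h3.WB
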