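import Pool.Agent.L0h3.WB.NoZero

/-! An Abelian theorem for Laplace transforms. -/

set_option autoImplicit false

namespace Pool.Agent.L0h3.WB

open MeasureTheory Filter Topology Set Classical

theorem int_poly_exp (C : ℝ) : IntegrableOn (fun s : ℝ => C * (2 + s) * Real.exp (-s)) (Ioi 0) := by
  have h1 : IntegrableOn (fun s : ℝ => Real.exp (-s) * s ^ ((2 : ℝ) - 1)) (Ioi 0) :=
    Real.GammaIntegral_convergent (by norm_num)
  have h2 : IntegrableOn (fun s : ℝ => Real.exp (-s) * s ^ ((1 : ℝ) - 1)) (Ioi 0) :=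
    Real.GammaIntegral_convergent (by norm_num)
  have h3 := (h1.const_mul C).add (h2.const_mul (2 * C))
  refine IntegrableOn.congr_fun h3 (fun s hs => ?_) measurableSet_Ioi
  have hs0 : (0 : ℝ) < s := hs
  show C * (Real.exp (-s) * s ^ ((2 : ℝ) - 1)) + 2 * C * (Real.exp (-s) * s ^ ((1 : ℝ) - 1)) = _
  have e1 : s ^ ((2 : ℝ) - 1) = s := by norm_num
  have e2 : s ^ ((1 : ℝ) - 1) = 1 := by norm_num
  rw [e1, e2]
  ring

/-- **An Abelian theorem.** -/
theorem abelian {f : ℝ → ℂ} (hm : Measurable f) {C : ℝ}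
    (hb : ∀ T : ℝ, 0 < T → ‖f T‖ ≤ C * (1 + Real.log (1 + T))) {ℓ : ℂ}
    (hlim : Tendsto (fun T : ℝ => f T / (Real.log T : ℂ)) atTop (𝓝 ℓ)) :
    Tendsto (fun x : ℝ => (x : ℂ) * (∫ T in Ioi (0 : ℝ), f T * Complex.exp (-((x : ℂ) * T))) /
      (Real.log (1 / x) : ℂ)) (𝓝[>] 0) (𝓝 ℓ) := by
  have hC0 : 0 ≤ C := by
    have h1 := (norm_nonneg _).trans (hb 1 one_pos)
    have h2 : 0 < 1 + Real.log (1 + 1) := by
      have := Real.log_nonneg (by norm_num : (1 : ℝ) ≤ 1 + 1)
      linarith
    exact nonneg_of_mul_nonneg_left h1 h2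
  have hL : Tendsto (fun x : ℝ => Real.log (1 / x)) (𝓝[>] 0) atTop := by
    refine Real.tendsto_log_atTop.comp ?_
    exact (tendsto_inv_nhdsGT_zero (𝕜 := ℝ)).congr fun x => (one_div x).symm
  have hscale : ∀ x : ℝ, 0 < x → (x : ℂ) * (∫ T in Ioi (0 : ℝ), f T * Complex.exp (-((x : ℂ) * T))) /
      (Real.log (1 / x) : ℂ) = ∫ s in Ioi (0 : ℝ), f (s / x) / (Real.log (1 / x) : ℂ) *
        Complex.exp (-(s : ℂ)) := by
    intro x hx
    have h1 := integral_comp_mul_left_Ioi (fun s : ℝ => f (s / x) * Complex.exp (-(s : ℂ))) 0 hx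
    rw [mul_zero] at h1
    have h2 : (fun T : ℝ => f (x * T / x) * Complex.exp (-((x * T : ℝ) : ℂ))) =
        fun T : ℝ => f T * Complex.exp (-((x : ℂ) * T)) := by
      funext T
      rw [mul_div_cancel_left₀ T hx.ne']
      push_cast
      rfl
    rw [h2] at h1
    rw [h1, Complex.real_smul]
    have h3 : (fun s : ℝ => f (s / x) / (Real.log (1 / x) : ℂ) * Complex.exp (-(s : ℂ))) =
        fun s : ℝ => (Real.log (1 / x) : ℂ)⁻¹ * (f (s / x) * Complex.exp (-(s : ℂ))) := by
      funext s
      ring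
    rw [h3, integral_const_mul]
    have : (x : ℂ) ≠ 0 := by exact_mod_cast hx.ne'
    push_cast
    field_simp
  have hexp : ∫ s in Ioi (0 : ℝ), ℓ * Complex.exp (-(s : ℂ)) = ℓ := by
    rw [integral_const_mul]
    have h1 : ∫ s in Ioi (0 : ℝ), Complex.exp (-(s : ℂ)) = 1 := by
      have h2 : (fun s : ℝ => Complex.exp (-(s : ℂ))) = fun s : ℝ => ((Real.exp (-s) : ℝ) : ℂ) := by
        funext s; push_cast; rfl
      rw [h2, integral_complex_ofReal, integral_exp_neg_Ioi_zero]
      simp
    rw [h1, mul_one]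
  have key : Tendsto (fun x : ℝ => ∫ s in Ioi (0 : ℝ), f (s / x) / (Real.log (1 / x) : ℂ) *
      Complex.exp (-(s : ℂ))) (𝓝[>] 0) (𝓝 (∫ s in Ioi (0 : ℝ), ℓ * Complex.exp (-(s : ℂ)))) := by
    refine tendsto_integral_filter_of_dominated_convergence
      (fun s => C * (2 + s) * Real.exp (-s)) ?_ ?_ (int_poly_exp C) ?_
    · refine Eventually.of_forall fun x => ?_
      have h1 : Measurable fun s : ℝ => f (s / x) := hm.comp (by fun_prop)
      exact ((h1.div_const _).mul (by fun_prop)).aestronglyMeasurable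
    · filter_upwards [hL.eventually (eventually_ge_atTop (1 : ℝ)), self_mem_nhdsWithin,
        Ioo_mem_nhdsGT (zero_lt_one : (0 : ℝ) < 1)] with x h1 h2 h2'
      have hx : (0 : ℝ) < x := h2
      have hx1 : x < 1 := h2'.2
      filter_upwards [ae_restrict_mem measurableSet_Ioi] with s hs
      have hs0 : (0 : ℝ) < s := hs
      have h3 := hb (s / x) (by positivity)
      have h4 : Real.log (1 + s / x) ≤ s + Real.log (1 / x) := by
        have h5 : 1 + s / x ≤ (1 + s) * (1 / x) := by
          rw [mul_one_div, add_div]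
          have : 1 ≤ 1 / x := by
            rw [le_div_iff₀ hx]
            linarith
          linarith
        refine (Real.log_le_log (by positivity) h5).trans ?_
        rw [Real.log_mul (by positivity) (by positivity)]
        have := Real.log_le_sub_one_of_pos (by positivity : 0 < 1 + s)
        linarith
      rw [norm_mul, norm_div, Complex.norm_exp, Complex.neg_re, Complex.ofReal_re, Complex.norm_real,
        Real.norm_of_nonneg (by linarith : 0 ≤ Real.log (1 / x))]
      refine mul_le_mul_of_nonneg_right ?_ (Real.exp_pos _).le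
      rw [div_le_iff₀ (by linarith)]
      calc ‖f (s / x)‖ ≤ C * (1 + (s + Real.log (1 / x))) := h3.trans (by gcongr)
        _ ≤ C * ((2 + s) * Real.log (1 / x)) := by
            refine mul_le_mul_of_nonneg_left ?_ hC0
            nlinarith
        _ = _ := by ring
    · filter_upwards [ae_restrict_mem measurableSet_Ioi] with s hs
      have hs0 : (0 : ℝ) < s := hs
      have h1 : Tendsto (fun x : ℝ => s / x) (𝓝[>] 0) atTop := by
        have := (tendsto_inv_nhdsGT_zero (𝕜 := ℝ)).const_mul_atTop hs0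
        exact this.congr fun x => (div_eq_mul_inv s x).symm
      have h2 := hlim.comp h1
      have h3 : Tendsto (fun x : ℝ => Real.log (s / x) / Real.log (1 / x)) (𝓝[>] 0) (𝓝 1) := by
        have h4 : Tendsto (fun x : ℝ => Real.log s * (Real.log (1 / x))⁻¹ + 1) (𝓝[>] 0)
            (𝓝 (Real.log s * 0 + 1)) := (hL.inv_tendsto_atTop.const_mul _).add_const _
        rw [mul_zero, zero_add] at h4
        refine h4.congr' ?_
        filter_upwards [hL.eventually (eventually_ge_atTop (1 : ℝ)), self_mem_nhdsWithin]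
          with x h5 h6
        have hx : (0 : ℝ) < x := h6
        have e1 : Real.log (s / x) = Real.log s + Real.log (1 / x) := by
          rw [← Real.log_mul hs0.ne' (by positivity), mul_one_div]
        rw [e1]
        have : Real.log (1 / x) ≠ 0 := by linarith
        field_simp
      have h4 : Tendsto (fun x : ℝ => (f (s / x) / (Real.log (s / x) : ℂ)) *
          ((Real.log (s / x) / Real.log (1 / x) : ℝ) : ℂ)) (𝓝[>] 0) (𝓝 (ℓ * ((1 : ℝ) : ℂ))) :=
        h2.mul ((Complex.continuous_ofReal.tendsto 1).comp h3)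
      rw [Complex.ofReal_one, mul_one] at h4
      refine Tendsto.mul_const _ (h4.congr' ?_)
      filter_upwards [(Real.tendsto_log_atTop.comp h1).eventually (eventually_gt_atTop (0 : ℝ)),
        hL.eventually (eventually_ge_atTop (1 : ℝ))] with x h5 h6
      have h5' : (Real.log (s / x) : ℂ) ≠ 0 := by
        have : Real.log (s / x) ≠ 0 := (ne_of_gt h5)
        exact_mod_cast this
      have h6' : (Real.log (1 / x) : ℂ) ≠ 0 := by
        have : Real.log (1 / x) ≠ 0 := by linarith
        exact_mod_cast this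
      rw [Complex.ofReal_div]
      field_simp
  rw [hexp] at key
  refine key.congr' ?_
  filter_upwards [self_mem_nhdsWithin] with x hx
  exact (hscale x hx).symm

end Pool.Agent.L0h3.WB
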