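import Pool.Agent.L0h3.WB.Upper3
import Pool.Agent.E8helper52.OR.Contour
import Pool.Agent.H140R2.FR.T05Log

/-! The continuation of the Dirichlet series over the primes to a zero-free half plane. -/

set_option autoImplicit false

namespace Pool.Agent.L0h3.WB

open MeasureTheory Filter Topology Set Classical

variable {c : ℕ → ℝ} {Φ G f : ℂ → ℂ}

/-- `f` is the continuation of the series to `Re z > 0` -/
structure Cont (c : ℕ → ℝ) (Φ G f : ℂ → ℂ) : Prop where
  hderiv : ∀ z : ℂ, 0 < z.re → HasDerivAt f (Qf Φ G z) z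
  heq : ∀ z : ℂ, 1 < z.re → f z = ff c z
  hexp : ∀ z : ℂ, 0 < z.re → Φ z = Complex.exp (G z - f z)

theorem convex_half (s : ℝ) : Convex ℝ {z : ℂ | s < z.re} := convex_halfSpace_re_gt s

theorem Eul.cont (E : Eul c Φ G) (hnz : ∀ z : ℂ, 0 < z.re → Φ z ≠ 0) :
    ∃ f : ℂ → ℂ, Cont c Φ G f := by
  have hQ : DifferentiableOn ℂ (Qf Φ G) {p | 0 < p.re} := fun z hz =>
    (E.Qf_diff hz (hnz z hz)).differentiableWithinAt
  obtain ⟨g, hg⟩ := Pool.Agent.H140R2.FR.T05_exists_primitive hQ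
  set f : ℂ → ℂ := fun z => g z - (g 2 - ff c 2) with hf
  have hfd : ∀ z : ℂ, 0 < z.re → HasDerivAt f (Qf Φ G z) z := fun z hz =>
    (hg z hz).sub_const _
  have heq : ∀ z : ℂ, 1 < z.re → f z = ff c z := by
    have h2 : EqOn f (ff c) {z : ℂ | 1 < z.re} := by
      refine (isOpen_half 1).eqOn_of_deriv_eq (convex_half 1).isPreconnected
        (fun z hz => ?_) (fun z hz => ?_) (fun z hz => ?_) (x := 2) ?_ ?_
      · have hz' : 1 < z.re := hz
        exact (hfd z (by linarith)).differentiableAt.differentiableWithinAt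
      · exact (E.co.f1_hasSum hz).2.differentiableAt.differentiableWithinAt
      · have hz' : 1 < z.re := hz
        rw [(hfd z (by linarith)).deriv, (E.co.f1_hasSum hz').2.deriv, E.Qf_eq hz']
      · show (1 : ℝ) < (2 : ℂ).re
        norm_num
      · rw [hf]
        ring
    exact fun z hz => h2 hz
  refine ⟨f, hfd, heq, ?_⟩
  have h1 : AnalyticOnNhd ℂ Φ {z : ℂ | 0 < z.re} :=
    E.hΦ.differentiableOn.analyticOnNhd (isOpen_half 0)
  have h2 : AnalyticOnNhd ℂ (fun z => Complex.exp (G z - f z)) {z : ℂ | 0 < z.re} := by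
    refine DifferentiableOn.analyticOnNhd (fun z hz => ?_) (isOpen_half 0)
    exact (((E.hG z hz).sub (hfd z hz).differentiableAt).cexp).differentiableWithinAt
  have h3 := h1.eqOn_of_preconnected_of_eventuallyEq h2 (convex_half 0).isPreconnected
    (z₀ := 2) (by show (0 : ℝ) < (2 : ℂ).re; norm_num) (by
      filter_upwards [(isOpen_half 1).mem_nhds (show (2 : ℂ) ∈ {z : ℂ | 1 < z.re} by
        show (1 : ℝ) < (2 : ℂ).re; norm_num)] with z hz
      rw [heq z hz]
      exact E.eq z hz)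
  exact fun z hz => h3 hz

theorem Co.ff_le (h : Co c) : ∃ K : ℝ, 0 ≤ K ∧ ∀ z : ℂ, 2 ≤ z.re → ‖ff c z‖ ≤ K := by
  refine ⟨∑' p : ℕ, (p : ℝ) ^ (-2 : ℝ), by positivity, fun z hz => ?_⟩
  have hs : Summable fun p : ℕ => (p : ℝ) ^ (-2 : ℝ) := Real.summable_nat_rpow.mpr (by norm_num)
  exact tsum_of_norm_bounded hs.hasSum fun p => h.term_le hz p

/-- linear bound for the correction function -/
def GLin (G : ℂ → ℂ) : Prop := ∃ K : ℝ, 0 ≤ K ∧ ∀ z : ℂ, 0 < z.re → ‖G z‖ ≤ K * (1 + ‖z‖ / z.re)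

/-- exponential growth -/
def PhiExp (Φ : ℂ → ℂ) : Prop :=
  ∃ K : ℝ, 0 ≤ K ∧ ∀ z : ℂ, 0 < z.re → ‖Φ z‖ ≤ Real.exp (K * (1 + ‖z‖))

theorem Cont.bound (D : Cont c Φ G f) (E : Eul c Φ G) (hGl : GLin G) (hΦ : PhiExp Φ) :
    ∃ K : ℝ, 0 ≤ K ∧ ∀ z : ℂ, 0 < z.re → z.re ≤ 2 → ‖f z‖ ≤ K * (1 + |z.im|) / z.re := by
  obtain ⟨KG, hKG0, hKG⟩ := hGl
  obtain ⟨KP, hKP0, hKP⟩ := hΦ
  obtain ⟨Kf, hKf0, hKf⟩ := E.co.ff_le
  refine ⟨4 * (KP * 5 + 1) + 4 * (KG * 2 + Kf) + KG * 4, by positivity, fun z hz hz2 => ?_⟩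
  set t : ℝ := z.im with ht
  set x : ℝ := z.re with hx
  set w0 : ℂ := ⟨2, t⟩ with hw0
  have hw0n : ‖w0‖ ≤ 2 + |t| := by
    refine (Complex.norm_le_abs_re_add_abs_im w0).trans ?_
    show |(2 : ℝ)| + |t| ≤ 2 + |t|
    norm_num
  set g : ℂ → ℂ := fun ζ => G (w0 + ζ) - f (w0 + ζ) with hg
  have hre : ∀ ζ ∈ Metric.ball (0 : ℂ) 2, 0 < (w0 + ζ).re := by
    intro ζ hζ
    rw [mem_ball_zero_iff] at hζ
    have h1 := (Complex.abs_re_le_norm ζ).trans_lt hζ
    rw [abs_lt] at h1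
    rw [Complex.add_re]
    show 0 < 2 + ζ.re
    linarith
  have hgd : DifferentiableOn ℂ g (Metric.ball 0 2) := by
    intro ζ hζ
    have h1 := hre ζ hζ
    have h2 : DifferentiableAt ℂ (fun u => G u - f u) (w0 + ζ) :=
      (E.hG _ h1).sub (D.hderiv _ h1).differentiableAt
    exact (DifferentiableAt.comp (g := fun u => G u - f u) (f := fun ζ => w0 + ζ) ζ h2
      (by fun_prop)).differentiableWithinAt
  set M : ℝ := KP * (5 + |t|) + 1 with hM
  have hM0 : 0 < M := by positivity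
  have hmaps : MapsTo g (Metric.ball 0 2) {z | z.re ≤ M} := by
    intro ζ hζ
    have h1 := hre ζ hζ
    have h2 := hKP _ h1
    rw [D.hexp _ h1, Complex.norm_exp, Real.exp_le_exp] at h2
    rw [mem_ball_zero_iff] at hζ
    show (g ζ).re ≤ M
    refine h2.trans ?_
    have h3 : ‖w0 + ζ‖ ≤ 4 + |t| := by
      refine (norm_add_le _ _).trans ?_
      linarith
    have : KP * (1 + ‖w0 + ζ‖) ≤ KP * (5 + |t|) := by
      apply mul_le_mul_of_nonneg_left _ hKP0
      linarith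
    linarith
  have hzw : z = w0 + ((x - 2 : ℝ) : ℂ) := by
    apply Complex.ext
    · simp [hw0, hx]
    · simp [hw0, ht]
  have hζn : ‖((x - 2 : ℝ) : ℂ)‖ = 2 - x := by
    rw [Complex.norm_real, Real.norm_eq_abs, abs_of_nonpos (by linarith)]
    ring
  have hζ : ((x - 2 : ℝ) : ℂ) ∈ Metric.ball (0 : ℂ) 2 := by
    rw [mem_ball_zero_iff, hζn]
    linarith
  have hbc := Complex.borelCaratheodory hM0 hgd hmaps two_pos hζ
  rw [hζn] at hbc
  have hg0 : ‖g 0‖ ≤ KG * (2 + |t|) + Kf := by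
    have e1 : g 0 = G w0 - f w0 := by rw [hg]; simp
    have h1 : ‖G w0‖ ≤ KG * (2 + |t|) := by
      have h2 := hKG w0 (by show (0 : ℝ) < 2; norm_num)
      refine h2.trans (mul_le_mul_of_nonneg_left ?_ hKG0)
      have h3 : ‖w0‖ / w0.re ≤ 1 + |t| := by
        show ‖w0‖ / 2 ≤ 1 + |t|
        have := abs_nonneg t
        linarith
      linarith
    have h2 : ‖f w0‖ ≤ Kf := by
      rw [D.heq w0 (by show (1 : ℝ) < 2; norm_num)]
      exact hKf w0 (le_refl (2 : ℝ))
    rw [e1]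
    exact (norm_sub_le _ _).trans (add_le_add h1 h2)
  have e2 : (2 : ℝ) - (2 - x) = x := by ring
  have e3 : (2 : ℝ) + (2 - x) = 4 - x := by ring
  rw [e2, e3] at hbc
  have h4 : ‖g ((x - 2 : ℝ) : ℂ)‖ ≤ (4 * M + 4 * ‖g 0‖) / x := by
    refine hbc.trans ?_
    rw [← add_div]
    apply div_le_div_of_nonneg_right _ hz.le
    have := norm_nonneg (g 0)
    nlinarith
  have h5 : f z = G z - g ((x - 2 : ℝ) : ℂ) := by
    rw [hg]
    simp only
    rw [← hzw]
    ring
  have h6 : ‖G z‖ ≤ KG * 4 * (1 + |t|) / x := by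
    refine (hKG z hz).trans ?_
    rw [mul_assoc, mul_div_assoc]
    refine mul_le_mul_of_nonneg_left ?_ hKG0
    have h7 : ‖z‖ ≤ x + |t| := by
      refine (Complex.norm_le_abs_re_add_abs_im z).trans ?_
      rw [← hx, ← ht, abs_of_pos hz]
    rw [show (1 : ℝ) + ‖z‖ / x = (x + ‖z‖) / x by field_simp]
    apply div_le_div_of_nonneg_right _ hz.le
    have := abs_nonneg t
    nlinarith
  rw [h5]
  refine (norm_sub_le _ _).trans ?_
  refine (add_le_add h6 h4).trans ?_
  rw [← add_div]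
  apply div_le_div_of_nonneg_right _ hz.le
  have := abs_nonneg t
  nlinarith

theorem Cont.near_zero (D : Cont c Φ G f) (E : Eul c Φ G) {n : ℕ}
    (hn : analyticOrderAt Φ 0 = n) : ∃ ρ K : ℝ, 0 < ρ ∧ 0 ≤ K ∧ ∀ z : ℂ, 0 < z.re → ‖z‖ < ρ →
      ‖(G z - f z) - n * Complex.log z‖ ≤ K := by
  obtain ⟨Ψ, hΨ, hΨ0, hΨf⟩ := factor E.hΦ hn
  have hlim : Tendsto (fun z => Ψ z / Ψ 0) (𝓝 0) (𝓝 1) := by
    have := (hΨ.continuous.tendsto 0).div_const (Ψ 0)
    rwa [div_self hΨ0] at this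
  obtain ⟨ρ, hρ, hball⟩ := Metric.eventually_nhds_iff_ball.1
    (hlim.eventually (Metric.ball_mem_nhds (1 : ℂ) (by norm_num : (0 : ℝ) < 1 / 2)))
  have hsl : ∀ z ∈ Metric.ball (0 : ℂ) ρ, Ψ z / Ψ 0 ∈ Complex.slitPlane := by
    intro z hz
    have h1 := hball z hz
    rw [dist_eq_norm] at h1
    left
    have h2 := (Complex.abs_re_le_norm _).trans_lt h1
    rw [Complex.sub_re, Complex.one_re, abs_lt] at h2
    linarith
  set h : ℂ → ℂ := fun z => (G z - f z) - n * Complex.log z - Complex.log (Ψ z / Ψ 0) with hh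
  set U : Set ℂ := {z : ℂ | 0 < z.re} ∩ Metric.ball 0 ρ with hU
  have hUo : IsOpen U := (isOpen_half 0).inter Metric.isOpen_ball
  have hUc : IsPreconnected U := ((convex_half 0).inter (convex_ball _ _)).isPreconnected
  have hzsl : ∀ z : ℂ, 0 < z.re → z ∈ Complex.slitPlane := fun z hz => Or.inl hz
  have hd : ∀ z ∈ U, HasDerivAt h 0 z := by
    intro z hz
    have hz0 : 0 < z.re := hz.1
    have hzne : z ≠ 0 := by
      rintro rfl
      simp at hz0
    have hdG := (E.hG z hz0).hasDerivAt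
    have hdΨ := (hΨ z).hasDerivAt
    have h1 : HasDerivAt (fun z => Complex.log (Ψ z / Ψ 0))
        (deriv Ψ z / Ψ 0 / (Ψ z / Ψ 0)) z := (hdΨ.div_const _).clog (hsl z hz.2)
    have h2 : HasDerivAt (fun z => (n : ℂ) * Complex.log z) (n * (1 / z)) z :=
      ((hasDerivAt_id z).clog (hzsl z hz0)).const_mul _
    have h3 := (((hdG.sub (D.hderiv z hz0)).sub h2).sub h1)
    refine h3.congr_deriv ?_
    have hΨz : Ψ z ≠ 0 := by
      intro h0
      have := hsl z hz.2
      rw [h0, zero_div] at this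
      exact Complex.zero_notMem_slitPlane this
    have hΦz : Φ z = z ^ n * Ψ z := by
      have := hΨf z
      rwa [sub_zero] at this
    have hΦd : deriv Φ z = n * z ^ (n - 1) * Ψ z + z ^ n * deriv Ψ z := by
      have e : Φ = fun z => z ^ n * Ψ z := by
        funext u
        have := hΨf u
        rwa [sub_zero] at this
      rw [e]
      exact ((hasDerivAt_pow n z).mul hdΨ).deriv
    unfold Qf
    rw [hΦd, hΦz]
    have hzn : z ^ n ≠ 0 := pow_ne_zero _ hzne
    rcases Nat.eq_zero_or_pos n with h0 | hpos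
    · subst h0
      simp only [pow_zero, Nat.cast_zero, zero_mul, one_mul, zero_add, sub_zero]
      field_simp
      ring
    · have e1 : z ^ n = z ^ (n - 1) * z := by
        rw [← pow_succ, Nat.sub_add_cancel hpos]
      have hzn1 : z ^ (n - 1) ≠ 0 := pow_ne_zero _ hzne
      rw [e1]
      field_simp
      ring
  have hz1 : ((ρ / 2 : ℝ) : ℂ) ∈ U := by
    refine ⟨?_, ?_⟩
    · show 0 < ((ρ / 2 : ℝ) : ℂ).re
      rw [Complex.ofReal_re]
      positivity
    · rw [mem_ball_zero_iff, Complex.norm_real, Real.norm_of_nonneg (by positivity)]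
      linarith
  have hconst : ∀ z ∈ U, h z = h ((ρ / 2 : ℝ) : ℂ) := by
    have h1 : EqOn h (fun _ => h ((ρ / 2 : ℝ) : ℂ)) U := by
      refine hUo.eqOn_of_deriv_eq hUc (fun z hz => (hd z hz).differentiableAt.differentiableWithinAt)
        (differentiableOn_const _) (fun z hz => ?_) hz1 rfl
      rw [(hd z hz).deriv, deriv_const]
    exact fun z hz => h1 hz
  refine ⟨ρ, ‖h ((ρ / 2 : ℝ) : ℂ)‖ + (2 + Real.pi), hρ, by positivity, fun z hz hzρ => ?_⟩
  have hzU : z ∈ U := ⟨hz, by rwa [mem_ball_zero_iff]⟩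
  have e1 : (G z - f z) - n * Complex.log z = h z + Complex.log (Ψ z / Ψ 0) := by
    rw [hh]
    ring
  rw [e1, hconst z hzU]
  refine (norm_add_le _ _).trans (add_le_add le_rfl ?_)
  have h1 := hball z hzU.2
  rw [dist_eq_norm] at h1
  set u : ℂ := Ψ z / Ψ 0 with hu
  have hul : 1 / 2 ≤ ‖u‖ := by
    have := norm_sub_norm_le (1 : ℂ) (1 - u)
    rw [sub_sub_cancel, norm_one, ← norm_neg (1 - u), neg_sub] at this
    linarith
  have huu : ‖u‖ ≤ 3 / 2 := by
    have := norm_add_le (u - 1) 1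
    rw [sub_add_cancel, norm_one] at this
    linarith
  refine (Complex.norm_le_abs_re_add_abs_im _).trans ?_
  rw [Complex.log_re, Complex.log_im]
  refine add_le_add ?_ (Complex.abs_arg_le_pi u)
  rw [abs_le]
  constructor
  · have h2 : 0 < ‖u‖ := by linarith
    have := Real.one_sub_inv_le_log_of_pos h2
    have h3 : ‖u‖⁻¹ ≤ 2 := by
      rw [inv_le_comm₀ h2 two_pos]
      linarith
    linarith
  · have h2 : 0 < ‖u‖ := by linarith
    have := Real.log_le_sub_one_of_pos h2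
    linarith

/-- the main estimate on vertical lines -/
theorem Cont.main (D : Cont c Φ G f) (E : Eul c Φ G) (hGl : GLin G) (hΦ : PhiExp Φ) {n : ℕ}
    (hn : analyticOrderAt Φ 0 = n) : ∃ K : ℝ, 0 ≤ K ∧ ∀ T : ℝ, 1 ≤ T → ∀ z : ℂ, z.re = 1 / T →
      ‖f z - n * Real.log T‖ ≤ K * (‖z‖ * T) := by
  obtain ⟨K1, hK10, hK1⟩ := D.bound E hGl hΦ
  obtain ⟨ρ, K2, hρ, hK20, hK2⟩ := D.near_zero E hn
  obtain ⟨KG, hKG0, hKG⟩ := hGl
  refine ⟨(2 * KG + K2 + n + n * Real.pi) + (K1 * (1 / ρ + 1) + n / ρ), by positivity,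
    fun T hT z hz => ?_⟩
  have hT0 : 0 < T := by linarith
  have hzr : 0 < z.re := by rw [hz]; positivity
  have hzne : z ≠ 0 := by
    rintro rfl
    simp at hzr
  have hzn : z.re ≤ ‖z‖ := (le_abs_self _).trans (Complex.abs_re_le_norm z)
  have hzT : 1 ≤ ‖z‖ * T := by
    rw [hz] at hzn
    rwa [div_le_iff₀ hT0] at hzn
  have hlogT : 0 ≤ Real.log T := Real.log_nonneg hT
  have hnlog : ‖(n : ℂ) * Real.log T‖ = n * Real.log T := by
    rw [norm_mul, Complex.norm_natCast, Complex.norm_real, Real.norm_of_nonneg hlogT]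
  by_cases hc : ‖z‖ < ρ
  · have h1 := hK2 z hzr hc
    have h2 := hKG z hzr
    have e0 : ‖z‖ / z.re = ‖z‖ * T := by
      rw [hz]
      field_simp
    rw [e0] at h2
    have e1 : f z - n * Real.log T = G z - ((G z - f z) - n * Complex.log z) -
        n * (Complex.log z + Real.log T) := by ring
    have h3 : ‖Complex.log z + Real.log T‖ ≤ ‖z‖ * T + Real.pi := by
      refine (Complex.norm_le_abs_re_add_abs_im _).trans ?_
      rw [Complex.add_re, Complex.add_im, Complex.ofReal_re, Complex.ofReal_im, add_zero,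
        Complex.log_re, Complex.log_im]
      refine add_le_add ?_ (Complex.abs_arg_le_pi z)
      rw [← Real.log_mul (norm_ne_zero_iff.2 hzne) hT0.ne', abs_of_nonneg (Real.log_nonneg hzT)]
      have := Real.log_le_sub_one_of_pos (by linarith : 0 < ‖z‖ * T)
      linarith
    rw [e1]
    have h4 : ‖(n : ℂ) * (Complex.log z + Real.log T)‖ ≤ n * (‖z‖ * T + Real.pi) := by
      rw [norm_mul, Complex.norm_natCast]
      gcongr
    have h5 : ‖G z - ((G z - f z) - n * Complex.log z) - n * (Complex.log z + Real.log T)‖ ≤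
        KG * (1 + ‖z‖ * T) + K2 + n * (‖z‖ * T + Real.pi) := by
      refine (norm_sub_le _ _).trans (add_le_add ((norm_sub_le _ _).trans (add_le_add h2 h1)) h4)
    refine h5.trans ?_
    have hn0 : (0 : ℝ) ≤ n := by positivity
    have hpi := Real.pi_pos
    have h6 : KG * (1 + ‖z‖ * T) ≤ 2 * KG * (‖z‖ * T) := by nlinarith
    have h7 : K2 ≤ K2 * (‖z‖ * T) := le_mul_of_one_le_right hK20 hzT
    have h8 : n * (‖z‖ * T + Real.pi) ≤ (n + n * Real.pi) * (‖z‖ * T) := by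
      have : n * Real.pi ≤ n * Real.pi * (‖z‖ * T) :=
        le_mul_of_one_le_right (by positivity) hzT
      nlinarith
    have h9 : 0 ≤ (K1 * (1 / ρ + 1) + n / ρ) * (‖z‖ * T) := by positivity
    nlinarith
  · push Not at hc
    have h1 := hK1 z hzr (by
      rw [hz]
      rw [div_le_iff₀ hT0]
      linarith)
    have h2 : 1 ≤ ‖z‖ / ρ := by rwa [one_le_div hρ]
    have h3 : ‖f z‖ ≤ K1 * (1 / ρ + 1) * (‖z‖ * T) := by
      refine h1.trans ?_
      rw [hz, div_div_eq_mul_div, div_one]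
      have h4 : |z.im| ≤ ‖z‖ := Complex.abs_im_le_norm z
      have h5 : 1 + |z.im| ≤ (1 / ρ + 1) * ‖z‖ := by
        have : (1 / ρ + 1) * ‖z‖ = ‖z‖ / ρ + ‖z‖ := by ring
        rw [this]
        linarith
      calc K1 * (1 + |z.im|) * T ≤ K1 * ((1 / ρ + 1) * ‖z‖) * T := by gcongr
        _ = _ := by ring
    have h6 : (n : ℝ) * Real.log T ≤ n / ρ * (‖z‖ * T) := by
      have h7 : Real.log T ≤ T := (Real.log_le_sub_one_of_pos hT0).trans (by linarith)
      calc (n : ℝ) * Real.log T ≤ n * T := by gcongr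
        _ ≤ n * (‖z‖ / ρ * T) := by
            have : T ≤ ‖z‖ / ρ * T := le_mul_of_one_le_left hT0.le h2
            gcongr
        _ = _ := by ring
    have h8 : ‖f z - n * Real.log T‖ ≤ K1 * (1 / ρ + 1) * (‖z‖ * T) + n / ρ * (‖z‖ * T) := by
      refine (norm_sub_le _ _).trans (add_le_add h3 ?_)
      rw [hnlog]
      exact h6
    refine h8.trans ?_
    have : 0 ≤ (2 * KG + K2 + n + n * Real.pi) * (‖z‖ * T) := by positivity
    nlinarith

end Pool.Agent.L0h3.WB
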