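import Pool.Agent.L0h3.WB.Conv1

/-! The Riesz mean of order two under the Riemann hypothesis. -/

set_option autoImplicit false

namespace Pool.Agent.L0h3.WB

open MeasureTheory Filter Topology Set Classical FourierTransform
open Pool.Agent.W263.BSD (hh hh_integral hh_integrable)

variable {c : ℕ → ℝ} {Φ G f : ℂ → ℂ}

theorem hh_eq (σ : ℝ) (v : ℝ) : hh 2 (σ : ℂ) v =
    (((max v 0) ^ 2 / 2 : ℝ) : ℂ) * Complex.exp (-((σ : ℂ) * v)) := by
  unfold hh
  by_cases hv : 0 ≤ v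
  · rw [indicator_of_mem (show v ∈ Ici (0 : ℝ) from hv), max_eq_left hv]
    norm_num
  · rw [indicator_of_notMem (show v ∉ Ici (0 : ℝ) from hv)]
    push Not at hv
    rw [max_eq_right hv.le]
    norm_num

theorem hh_cont (σ : ℝ) : Continuous (hh 2 (σ : ℂ)) := by
  have h1 : hh 2 (σ : ℂ) = fun v : ℝ => (((max v 0) ^ 2 / 2 : ℝ) : ℂ) *
      Complex.exp (-((σ : ℂ) * v)) := funext fun v => hh_eq σ v
  rw [h1]
  fun_prop

theorem fourier_hh {σ : ℝ} (hσ : 0 < σ) (ξ : ℝ) :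
    𝓕 (hh 2 (σ : ℂ)) ξ = 1 / ((σ : ℂ) + ((2 * Real.pi * ξ : ℝ) : ℂ) * Complex.I) ^ 3 := by
  rw [Real.fourier_real_eq_integral_exp_smul]
  have hre : 0 < ((σ : ℂ) + ((2 * Real.pi * ξ : ℝ) : ℂ) * Complex.I).re := by
    simpa using hσ
  rw [← hh_integral 2 hre]
  congr 1
  funext v
  unfold hh
  by_cases hv : v ∈ Ici (0 : ℝ)
  · rw [indicator_of_mem hv, indicator_of_mem hv, smul_eq_mul]
    have : Complex.exp (((-2 * Real.pi * v * ξ : ℝ) : ℂ) * Complex.I) *
        (((v ^ 2 / (Nat.factorial 2 : ℝ) : ℝ) : ℂ) * Complex.exp (-((σ : ℂ) * v))) =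
        ((v ^ 2 / (Nat.factorial 2 : ℝ) : ℝ) : ℂ) *
          (Complex.exp (((-2 * Real.pi * v * ξ : ℝ) : ℂ) * Complex.I) *
            Complex.exp (-((σ : ℂ) * v))) := by ring
    rw [this, ← Complex.exp_add]
    congr 2
    push_cast
    ring
  · rw [indicator_of_notMem hv, indicator_of_notMem hv, smul_zero]

theorem inv_sq_eq {σ : ℝ} (hσ : 0 < σ) (y : ℝ) :
    (σ ^ 2 + y ^ 2)⁻¹ = (σ ^ 2)⁻¹ * (1 + (y / σ) ^ 2)⁻¹ := by
  rw [← mul_inv]
  congr 1
  field_simp

theorem int_inv_sq {σ : ℝ} (hσ : 0 < σ) : Integrable (fun y : ℝ => (σ ^ 2 + y ^ 2)⁻¹) := by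
  have h1 : Integrable (fun y : ℝ => (σ ^ 2)⁻¹ * (1 + (y / σ) ^ 2)⁻¹) :=
    (integrable_inv_one_add_sq.comp_div hσ.ne').const_mul _
  refine h1.congr (Eventually.of_forall fun y => ?_)
  exact (inv_sq_eq hσ y).symm

theorem integral_inv_sq {σ : ℝ} (hσ : 0 < σ) : ∫ y : ℝ, (σ ^ 2 + y ^ 2)⁻¹ = Real.pi / σ := by
  simp only [inv_sq_eq hσ]
  rw [integral_const_mul, Measure.integral_comp_div (fun y : ℝ => (1 + y ^ 2)⁻¹) σ,
    integral_univ_inv_one_add_sq, abs_of_pos hσ, smul_eq_mul]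
  field_simp

theorem norm_sq_line (σ y : ℝ) : ‖(σ : ℂ) + (y : ℂ) * Complex.I‖ ^ 2 = σ ^ 2 + y ^ 2 := by
  rw [← Complex.normSq_eq_norm_sq, Complex.normSq_apply]
  simp
  ring

theorem line_ne {σ : ℝ} (hσ : 0 < σ) (y : ℝ) : (σ : ℂ) + (y : ℂ) * Complex.I ≠ 0 := by
  intro h
  have := congrArg Complex.re h
  simp at this
  exact hσ.ne' this

/-- the kernel -/
noncomputable def kk (σ T y : ℝ) : ℂ :=
  Complex.exp (((σ : ℂ) + (y : ℂ) * Complex.I) * T) / ((σ : ℂ) + (y : ℂ) * Complex.I) ^ 3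

theorem kk_cont {σ : ℝ} (hσ : 0 < σ) (T : ℝ) : Continuous (kk σ T) := by
  unfold kk
  refine Continuous.div (by fun_prop) (by fun_prop) fun y => pow_ne_zero _ (line_ne hσ y)

theorem kk_norm {σ : ℝ} (hσ : 0 < σ) (T y : ℝ) :
    ‖kk σ T y‖ = Real.exp (σ * T) * (‖(σ : ℂ) + (y : ℂ) * Complex.I‖⁻¹ * (σ ^ 2 + y ^ 2)⁻¹) := by
  unfold kk
  have h1 : (((σ : ℂ) + (y : ℂ) * Complex.I) * T).re = σ * T := by simp
  rw [norm_div, Complex.norm_exp, h1, norm_pow, div_eq_mul_inv, ← norm_sq_line, ← mul_inv]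
  congr 2
  ring

theorem kk_le {σ : ℝ} (hσ : 0 < σ) (T y : ℝ) :
    ‖kk σ T y‖ ≤ Real.exp (σ * T) * (σ⁻¹ * (σ ^ 2 + y ^ 2)⁻¹) := by
  rw [kk_norm hσ]
  have h1 : σ ≤ ‖(σ : ℂ) + (y : ℂ) * Complex.I‖ := by
    refine le_trans ?_ (Complex.abs_re_le_norm _)
    simp [le_abs_self]
  gcongr

theorem kk_int {σ : ℝ} (hσ : 0 < σ) (T : ℝ) : Integrable (kk σ T) := by
  refine (((int_inv_sq hσ).const_mul σ⁻¹).const_mul (Real.exp (σ * T))).mono'
    (kk_cont hσ T).aestronglyMeasurable (Eventually.of_forall fun y => kk_le hσ T y)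

/-- the inverse Laplace transform of `z⁻³` -/
theorem kk_integral {σ : ℝ} (hσ : 0 < σ) (u : ℝ) :
    ∫ y : ℝ, kk σ u y = ((Real.pi * (max u 0) ^ 2 : ℝ) : ℂ) := by
  have hre : 0 < (σ : ℂ).re := by simpa using hσ
  have hfun : 𝓕 (hh 2 (σ : ℂ)) = fun ξ : ℝ => Complex.exp (-((σ : ℂ) * u)) *
      (Complex.exp (-(((2 * Real.pi * ξ : ℝ) : ℂ) * Complex.I * u)) * kk σ u (2 * Real.pi * ξ)) := by
    funext ξ
    rw [fourier_hh hσ]
    unfold kk
    rw [mul_div_assoc', mul_div_assoc', ← Complex.exp_add, ← Complex.exp_add]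
    congr 1
    rw [← Complex.exp_zero]
    congr 1
    ring
  have hint : Integrable (𝓕 (hh 2 (σ : ℂ))) := by
    have h1 : Integrable (fun ξ : ℝ => kk σ 0 (2 * Real.pi * ξ)) :=
      (kk_int hσ 0).comp_mul_left' (by positivity)
    refine h1.congr (Eventually.of_forall fun ξ => ?_)
    show kk σ 0 (2 * Real.pi * ξ) = 𝓕 (hh 2 (σ : ℂ)) ξ
    rw [fourier_hh hσ]
    unfold kk
    simp
  have hinv := (hh_cont σ).fourierInv_fourier_eq (hh_integrable 2 hre) hint
  have h2 := congrFun hinv u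
  rw [Real.fourierInv_eq'] at h2
  have h3 : (fun v : ℝ => Complex.exp (((2 * Real.pi * inner ℝ v u : ℝ) : ℂ) * Complex.I) •
      (𝓕 (hh 2 (σ : ℂ))) v) = fun v : ℝ => Complex.exp (-((σ : ℂ) * u)) *
        kk σ u (2 * Real.pi * v) := by
    funext v
    rw [hfun]
    simp only [smul_eq_mul]
    have e1 : (inner ℝ v u : ℝ) = u * v := by
      simp
    rw [e1]
    have e2 : Complex.exp (((2 * Real.pi * (u * v) : ℝ) : ℂ) * Complex.I) *
        Complex.exp (-(((2 * Real.pi * v : ℝ) : ℂ) * Complex.I * u)) = 1 := by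
      rw [← Complex.exp_add, ← Complex.exp_zero]
      congr 1
      push_cast
      ring
    calc _ = (Complex.exp (((2 * Real.pi * (u * v) : ℝ) : ℂ) * Complex.I) *
        Complex.exp (-(((2 * Real.pi * v : ℝ) : ℂ) * Complex.I * u))) *
        (Complex.exp (-((σ : ℂ) * u)) * kk σ u (2 * Real.pi * v)) := by ring
      _ = _ := by rw [e2, one_mul]
  rw [h3, integral_const_mul, Measure.integral_comp_mul_left (kk σ u) (2 * Real.pi), hh_eq,
    abs_of_pos (by positivity)] at h2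
  have hpi : (2 * Real.pi : ℝ) ≠ 0 := by positivity
  have h4 : ∫ y : ℝ, kk σ u y = ((2 * Real.pi : ℝ) : ℂ) * Complex.exp ((σ : ℂ) * u) *
      (Complex.exp (-((σ : ℂ) * u)) * (((2 * Real.pi)⁻¹ : ℝ) • ∫ y : ℝ, kk σ u y)) := by
    rw [Complex.real_smul]
    have e3 : Complex.exp ((σ : ℂ) * u) * Complex.exp (-((σ : ℂ) * u)) = 1 := by
      rw [← Complex.exp_add, add_neg_cancel, Complex.exp_zero]
    have e4 : ((2 * Real.pi : ℝ) : ℂ) * (((2 * Real.pi)⁻¹ : ℝ) : ℂ) = 1 := by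
      rw [← Complex.ofReal_mul, mul_inv_cancel₀ hpi, Complex.ofReal_one]
    calc ∫ y : ℝ, kk σ u y = (((2 * Real.pi : ℝ) : ℂ) * (((2 * Real.pi)⁻¹ : ℝ) : ℂ)) *
        (Complex.exp ((σ : ℂ) * u) * Complex.exp (-((σ : ℂ) * u))) * ∫ y : ℝ, kk σ u y := by
          rw [e3, e4]
          ring
      _ = _ := by ring
  rw [h4, h2]
  have e3 : Complex.exp ((σ : ℂ) * u) * Complex.exp (-((σ : ℂ) * u)) = 1 := by
    rw [← Complex.exp_add, add_neg_cancel, Complex.exp_zero]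
  calc _ = ((2 * Real.pi : ℝ) : ℂ) * (((max u 0) ^ 2 / 2 : ℝ) : ℂ) *
      (Complex.exp ((σ : ℂ) * u) * Complex.exp (-((σ : ℂ) * u))) := by ring
    _ = _ := by
      rw [e3, mul_one, ← Complex.ofReal_mul]
      congr 1
      ring

/-- Perron's formula of order two -/
theorem Co.perron (h : Co c) {σ : ℝ} (hσ : 1 < σ) (T : ℝ) :
    ∫ y : ℝ, ff c ((σ : ℂ) + (y : ℂ) * Complex.I) * kk σ T y =
      ∑' p : ℕ, (c p : ℂ) * ((Real.pi * (max (T - Real.log p) 0) ^ 2 : ℝ) : ℂ) := by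
  have hσ0 : 0 < σ := by linarith
  have hF : ∀ p : ℕ, ∀ y : ℝ, (c p : ℂ) * Complex.exp (-(((σ : ℂ) + (y : ℂ) * Complex.I) *
      Real.log p)) * kk σ T y = (c p : ℂ) * kk σ (T - Real.log p) y := by
    intro p y
    unfold kk
    rw [mul_assoc, mul_div_assoc', ← Complex.exp_add]
    congr 3
    push_cast
    ring
  have hint : ∀ p : ℕ, Integrable (fun y : ℝ => (c p : ℂ) * kk σ (T - Real.log p) y) := fun p =>
    (kk_int hσ0 _).const_mul _
  have hs : Summable fun p : ℕ => (p : ℝ) ^ (-σ) := Real.summable_nat_rpow.mpr (by linarith)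
  have hsum : Summable fun p : ℕ => ∫ y : ℝ, ‖(c p : ℂ) * kk σ (T - Real.log p) y‖ := by
    refine Summable.of_nonneg_of_le (fun p => integral_nonneg fun y => norm_nonneg _) (fun p => ?_)
      (hs.mul_right (∫ y : ℝ, Real.exp (σ * T) * (σ⁻¹ * (σ ^ 2 + y ^ 2)⁻¹)))
    rw [← integral_const_mul]
    refine integral_mono (hint p).norm
      ((((int_inv_sq hσ0).const_mul σ⁻¹).const_mul (Real.exp (σ * T))).const_mul _) fun y => ?_
    show ‖(c p : ℂ) * kk σ (T - Real.log p) y‖ ≤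
      (p : ℝ) ^ (-σ) * (Real.exp (σ * T) * (σ⁻¹ * (σ ^ 2 + y ^ 2)⁻¹))
    rw [← hF, norm_mul]
    have h1 := h.term_le (σ := σ) (u := (σ : ℂ) + (y : ℂ) * Complex.I) (by simp) p
    exact mul_le_mul h1 (kk_le hσ0 T y) (norm_nonneg _) (by positivity)
  have h2 := (hasSum_integral_of_summable_integral_norm hint hsum).tsum_eq
  have h3 : ∀ p : ℕ, ∫ y : ℝ, (c p : ℂ) * kk σ (T - Real.log p) y =
      (c p : ℂ) * ((Real.pi * (max (T - Real.log p) 0) ^ 2 : ℝ) : ℂ) := by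
    intro p
    rw [integral_const_mul, kk_integral hσ0]
  simp only [h3] at h2
  rw [h2]
  congr 1
  funext y
  have h4 := (h.ff_hasSum (u := (σ : ℂ) + (y : ℂ) * Complex.I) (by simpa using hσ)).mul_right
    (kk σ T y)
  rw [← h4.tsum_eq]
  exact tsum_congr fun p => hF p y

/-- the Riesz mean of order two -/
theorem riesz_eq {T : ℝ} (hT : 0 < T) :
    ∑' p : ℕ, (c p : ℂ) * ((Real.pi * (max (T - Real.log p) 0) ^ 2 : ℝ) : ℂ) =
      (Real.pi * T ^ 2 : ℝ) * gT c (fun y => ((1 - y : ℝ) : ℂ) ^ 2) T := by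
  unfold gT
  rw [← tsum_mul_left]
  refine tsum_congr fun p => ?_
  split_ifs with h
  · rw [max_eq_left (by linarith)]
    have hTc : (T : ℂ) ≠ 0 := by exact_mod_cast hT.ne'
    push_cast
    field_simp
  · push Not at h
    rw [max_eq_right (by linarith)]
    simp

theorem Cont.shift (D : Cont c Φ G f) (E : Eul c Φ G) (hGl : GLin G) (hΦ : PhiExp Φ) {T : ℝ}
    (hT : 1 ≤ T) : ∫ y : ℝ, f (((1 / T : ℝ) : ℂ) + (y : ℂ) * Complex.I) * kk (1 / T) T y =
      ∫ y : ℝ, ff c (((3 : ℝ) : ℂ) + (y : ℂ) * Complex.I) * kk 3 T y := by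
  obtain ⟨K1, hK10, hK1⟩ := D.bound E hGl hΦ
  obtain ⟨Kf, hKf0, hKf⟩ := E.co.ff_le
  have hT0 : 0 < T := by linarith
  have hx : (0 : ℝ) < 1 / T := by positivity
  have hx1 : 1 / T ≤ 1 := by
    rw [div_le_one hT0]
    exact hT
  set h : ℂ → ℂ := fun z => f z * (Complex.exp (z * T) / z ^ 3) with hh
  have h1 := Pool.Agent.E8helper52.OR.strip_shift (f := h) (a := 1 / T) (b := 3) (by linarith)
    (fun z hz1 _ => by
      have hz0 : 0 < z.re := by linarith
      have hzne : z ≠ 0 := by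
        rintro rfl
        simp at hz0
      have h2 : DifferentiableAt ℂ (fun z : ℂ => Complex.exp (z * T) / z ^ 3) z :=
        DifferentiableAt.div (by fun_prop) (by fun_prop) (pow_ne_zero _ hzne)
      exact (D.hderiv z hz0).differentiableAt.mul h2)
    (C := 2 * (K1 * T + Kf) * Real.exp (3 * T)) (T := 1) (by positivity) le_rfl
    (fun z hz1 hz2 hz3 => by
      have hz0 : 0 < z.re := by linarith
      have him : 0 < |z.im| := by linarith
      have hfz : ‖f z‖ ≤ 2 * (K1 * T + Kf) * |z.im| := by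
        by_cases hc : z.re ≤ 2
        · refine (hK1 z hz0 hc).trans ?_
          rw [div_le_iff₀ hz0]
          have h3 : 1 ≤ T * z.re := by
            rw [div_le_iff₀ hT0] at hz1
            linarith
          have h4 : K1 * (1 + |z.im|) ≤ K1 * (1 + |z.im|) * (T * z.re) :=
            le_mul_of_one_le_right (by positivity) h3
          refine h4.trans ?_
          have h5 : K1 * (1 + |z.im|) * (T * z.re) ≤ K1 * (2 * |z.im|) * (T * z.re) := by
            gcongr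
            linarith
          have h6 : 0 ≤ Kf * |z.im| * z.re := by positivity
          nlinarith
        · push Not at hc
          rw [D.heq z (by linarith)]
          refine (hKf z hc.le).trans ?_
          have h5 : Kf ≤ Kf * |z.im| := le_mul_of_one_le_right hKf0 hz3
          have h6 : 0 ≤ K1 * T * |z.im| := by positivity
          have h7 : 0 ≤ Kf * |z.im| := by positivity
          nlinarith
      rw [hh]
      simp only
      rw [norm_mul, norm_div, Complex.norm_exp, norm_pow, Complex.re_mul_ofReal]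
      have h7 : Real.exp (z.re * T) ≤ Real.exp (3 * T) := by
        apply Real.exp_le_exp.2
        gcongr
      have h8 : |z.im| ^ 3 ≤ ‖z‖ ^ 3 := by
        gcongr
        exact Complex.abs_im_le_norm z
      calc ‖f z‖ * (Real.exp (z.re * T) / ‖z‖ ^ 3) ≤
          (2 * (K1 * T + Kf) * |z.im|) * (Real.exp (3 * T) / |z.im| ^ 3) := by
            gcongr
        _ = 2 * (K1 * T + Kf) * Real.exp (3 * T) / z.im ^ 2 := by
            rw [← sq_abs z.im]
            field_simp)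
  have e1 : ∀ σ y : ℝ, h ((σ : ℂ) + (y : ℂ) * Complex.I) =
      f ((σ : ℂ) + (y : ℂ) * Complex.I) * kk σ T y := fun σ y => rfl
  simp only [e1] at h1
  rw [h1]
  congr 1
  funext y
  rw [D.heq _ (by simp)]

theorem Cont.riesz (D : Cont c Φ G f) (E : Eul c Φ G) (hGl : GLin G) (hΦ : PhiExp Φ) {n : ℕ}
    (hn : analyticOrderAt Φ 0 = n) : ∃ M : ℝ, 0 ≤ M ∧ ∀ T : ℝ, 1 ≤ T →
      ‖gT c (fun y => ((1 - y : ℝ) : ℂ) ^ 2) T - n * Real.log T‖ ≤ M := by
  obtain ⟨K, hK0, hK⟩ := D.main E hGl hΦ hn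
  refine ⟨K * Real.exp 1, by positivity, fun T hT => ?_⟩
  have hT0 : 0 < T := by linarith
  have hx : (0 : ℝ) < 1 / T := by positivity
  set x : ℝ := 1 / T with hxd
  have hxT : x * T = 1 := by rw [hxd]; field_simp
  have h1 := D.shift E hGl hΦ hT
  rw [E.co.perron (by norm_num), riesz_eq hT0, ← hxd] at h1
  have h2 := kk_integral hx T
  rw [max_eq_left hT0.le] at h2
  set Z : ℝ → ℂ := fun y => (x : ℂ) + (y : ℂ) * Complex.I with hZ
  have hZre : ∀ y, (Z y).re = 1 / T := fun y => by simp [hZ, hxd]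
  have hb : ∀ y : ℝ, ‖(f (Z y) - n * Real.log T) * kk x T y‖ ≤
      (K * T * Real.exp 1) * (x ^ 2 + y ^ 2)⁻¹ := by
    intro y
    rw [norm_mul, kk_norm hx, hxT]
    have h3 := hK T hT (Z y) (hZre y)
    have h4 : 0 < ‖Z y‖ := norm_pos_iff.2 (line_ne hx y)
    calc ‖f (Z y) - n * Real.log T‖ * (Real.exp 1 * (‖Z y‖⁻¹ * (x ^ 2 + y ^ 2)⁻¹)) ≤
        K * (‖Z y‖ * T) * (Real.exp 1 * (‖Z y‖⁻¹ * (x ^ 2 + y ^ 2)⁻¹)) := by gcongr
      _ = (K * T * Real.exp 1) * (x ^ 2 + y ^ 2)⁻¹ * (‖Z y‖ * ‖Z y‖⁻¹) := by ring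
      _ = _ := by rw [mul_inv_cancel₀ h4.ne', mul_one]
  have hcont : Continuous fun y : ℝ => f (Z y) := by
    rw [continuous_iff_continuousAt]
    intro y
    have h3 : ContinuousAt f (Z y) := (D.hderiv (Z y) (by rw [hZre]; positivity)).continuousAt
    exact ContinuousAt.comp (f := Z) (g := f) h3 (by fun_prop)
  have hint1 : Integrable fun y : ℝ => (f (Z y) - n * Real.log T) * kk x T y := by
    refine ((int_inv_sq hx).const_mul (K * T * Real.exp 1)).mono' ?_ (Eventually.of_forall hb)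
    exact ((hcont.sub continuous_const).mul (kk_cont hx T)).aestronglyMeasurable
  have h3 : ∫ y : ℝ, (f (Z y) - n * Real.log T) * kk x T y =
      (Real.pi * T ^ 2 : ℝ) * (gT c (fun y => ((1 - y : ℝ) : ℂ) ^ 2) T - n * Real.log T) := by
    have h4 : ∫ y : ℝ, f (Z y) * kk x T y = (∫ y : ℝ, (f (Z y) - n * Real.log T) * kk x T y) +
        ∫ y : ℝ, (n * Real.log T) * kk x T y := by
      rw [← integral_add hint1 ((kk_int hx T).const_mul _)]
      congr 1
      funext y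
      ring
    rw [integral_const_mul, h2] at h4
    have h5 : ∫ y : ℝ, f (Z y) * kk x T y = (Real.pi * T ^ 2 : ℝ) *
      gT c (fun y => ((1 - y : ℝ) : ℂ) ^ 2) T := h1
    rw [h5] at h4
    rw [mul_sub, h4]
    ring
  have h6 : ‖∫ y : ℝ, (f (Z y) - n * Real.log T) * kk x T y‖ ≤
      (K * T * Real.exp 1) * (Real.pi / x) := by
    rw [← integral_inv_sq hx, ← integral_const_mul]
    exact norm_integral_le_of_norm_le ((int_inv_sq hx).const_mul _) (Eventually.of_forall hb)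
  rw [h3, norm_mul, Complex.norm_real, Real.norm_of_nonneg (by positivity)] at h6
  have h7 : (K * T * Real.exp 1) * (Real.pi / x) = (Real.pi * T ^ 2) * (K * Real.exp 1) := by
    rw [hxd]
    field_simp
  rw [h7] at h6
  exact le_of_mul_le_mul_left h6 (by have := Real.pi_pos; positivity)

end Pool.Agent.L0h3.WB
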