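import Pool.Agent.L0h3.WB.Ord

/-! The order of vanishing from a weighted law. -/

set_option autoImplicit false

namespace Pool.Agent.L0h3.WB

open MeasureTheory Filter Topology Set Classical

variable {c : ℕ → ℝ} {Φ G : ℂ → ℂ} {w : ℝ → ℂ} {B b : ℝ}

theorem int_inv_le {α β C : ℝ} (hα : 0 < α) (hαβ : α ≤ β) {f : ℝ → ℂ}
    (hf : ∀ u ∈ Ioc α β, ‖f u‖ ≤ C / u) : ‖∫ u in Ioc α β, f u‖ ≤ C * Real.log (β / α) := by
  have h1 : IntervalIntegrable (fun u : ℝ => C / u) volume α β := by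
    refine ContinuousOn.intervalIntegrable fun u hu => ?_
    rw [uIcc_of_le hαβ] at hu
    have : u ≠ 0 := (hα.trans_le hu.1).ne'
    exact (ContinuousAt.div continuousAt_const continuousAt_id this).continuousWithinAt
  have h2 : ‖∫ u in Ioc α β, f u‖ ≤ ∫ u in Ioc α β, C / u := by
    refine norm_integral_le_of_norm_le ?_ ?_
    · exact (intervalIntegrable_iff_integrableOn_Ioc_of_le hαβ).1 h1
    · filter_upwards [ae_restrict_mem measurableSet_Ioc] with u hu using hf u hu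
  refine h2.trans (le_of_eq ?_)
  rw [← intervalIntegral.integral_of_le hαβ]
  have h3 : (fun u : ℝ => C / u) = fun u : ℝ => C * u⁻¹ := by
    funext u
    rw [div_eq_mul_inv]
  rw [h3, intervalIntegral.integral_const_mul, integral_inv_of_pos hα (hα.trans_le hαβ)]

theorem int_sq_le {C : ℝ} {f : ℝ → ℂ} (hf : ∀ u : ℝ, 1 ≤ u → ‖f u‖ ≤ C / u ^ 2) :
    ‖∫ u in Ioi (1 : ℝ), f u‖ ≤ C := by
  have h0 : ∀ u : ℝ, C / u ^ 2 = C * (u ^ 2)⁻¹ := fun u => div_eq_mul_inv _ _
  have h3 : IntegrableOn (fun u : ℝ => u ^ (-2 : ℝ)) (Ioi 1) :=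
    integrableOn_Ioi_rpow_of_lt (by norm_num) one_pos
  have h4 : ∫ u in Ioi (1 : ℝ), u ^ (-2 : ℝ) = 1 := by
    rw [integral_Ioi_rpow_of_lt (by norm_num) one_pos]
    norm_num
  have h5 : ∀ u ∈ Ioi (1 : ℝ), u ^ (-2 : ℝ) = (u ^ 2)⁻¹ := by
    intro u hu
    have hu0 : (0 : ℝ) < u := one_pos.trans hu
    rw [Real.rpow_neg hu0.le]
    norm_num
  have h2 : ‖∫ u in Ioi (1 : ℝ), f u‖ ≤ ∫ u in Ioi (1 : ℝ), C * u ^ (-2 : ℝ) := by
    refine norm_integral_le_of_norm_le (h3.const_mul C) ?_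
    filter_upwards [ae_restrict_mem measurableSet_Ioi] with u hu
    rw [h5 u hu, ← h0]
    exact hf u (le_of_lt hu)
  rw [integral_const_mul, h4, mul_one] at h2
  exact h2

theorem Eul.Qf_int (E : Eul c Φ G) (hnz : ∀ z : ℂ, 0 < z.re → Φ z ≠ 0) {C : ℝ}
    (h2 : ∀ u : ℝ, 1 ≤ u → ‖Qf Φ G u‖ ≤ C / u ^ 2) {x : ℝ} (hx : 0 < x) :
    IntegrableOn (fun u : ℝ => Qf Φ G u) (Ioi x) := by
  have hcont : ContinuousOn (fun u : ℝ => Qf Φ G u) (Ioi 0) := by
    intro u hu
    have hu0 : (0 : ℝ) < (u : ℂ).re := by simpa using hu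
    exact (((E.Qf_diff hu0 (hnz _ hu0)).continuousAt).comp
      Complex.continuous_ofReal.continuousAt).continuousWithinAt
  have h3 : IntegrableOn (fun u : ℝ => u ^ (-2 : ℝ)) (Ioi (max x 1)) :=
    integrableOn_Ioi_rpow_of_lt (by norm_num) (lt_max_of_lt_right one_pos)
  have hle : x ≤ max x 1 := le_max_left _ _
  rw [← Ioc_union_Ioi_eq_Ioi hle]
  refine IntegrableOn.union ?_ ?_
  · refine (ContinuousOn.integrableOn_Icc ?_).mono_set Ioc_subset_Icc_self
    exact hcont.mono fun u hu => hx.trans_le hu.1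
  · refine Integrable.mono' (h3.const_mul C) ?_ ?_
    · exact (hcont.mono (Ioi_subset_Ioi (hx.le.trans hle))).aestronglyMeasurable measurableSet_Ioi
    · filter_upwards [ae_restrict_mem measurableSet_Ioi] with u hu
      have hu1 : 1 ≤ u := (le_max_right x 1).trans (le_of_lt hu)
      refine (h2 u hu1).trans (le_of_eq ?_)
      rw [Real.rpow_neg (by linarith), div_eq_mul_inv]
      norm_num

/-- **The weighted law determines the order of vanishing.** -/
theorem Eul.law_order (E : Eul c Φ G)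
    (hsec : ∀ R : ℝ, 0 ≤ R → ∃ C : ℝ, ∀ v : ℂ, 0 < v.re → ‖v‖ ≤ R * v.re → ‖G v‖ ≤ C)
    (hwm : Measurable w) (hB : ∀ y ∈ Icc (0 : ℝ) 1, ‖w y‖ ≤ B)
    (hnz : ∀ z : ℂ, 0 < z.re → Φ z ≠ 0) (hd : ∀ z : ℂ, 0 < z.re → DifferentiableAt ℂ (LT c w) z)
    {n : ℕ} (hn : analyticOrderAt Φ 0 = n) {w0 : ℂ} (hw0 : Tendsto w (𝓝[>] 0) (𝓝 w0)) :
    Tendsto (fun x : ℝ => (x : ℂ) * LT c w x / (Real.log (1 / x) : ℂ)) (𝓝[>] 0) (𝓝 (w0 * n)) := by
  have hB0 : 0 ≤ B := (norm_nonneg _).trans (hB 0 ⟨le_rfl, zero_le_one⟩)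
  obtain ⟨C, hC0, hC1, hC2, hC3⟩ := E.Qf_small hsec hnz hn
  set B' : ℝ := B + ‖w0‖ with hB'
  have hB'0 : 0 ≤ B' := by positivity
  rw [Metric.tendsto_nhds]
  intro ε hε
  set e : ℝ := ε / (2 * (C + 1)) with he
  have he0 : 0 < e := by positivity
  have heC : e * C < ε := by
    rw [he, div_mul_eq_mul_div, div_lt_iff₀ (by positivity)]
    nlinarith
  have h1 : ∀ᶠ y in 𝓝[>] (0 : ℝ), ‖w y - w0‖ ≤ e := by
    have := (Metric.tendsto_nhds.1 hw0) e he0
    filter_upwards [this] with y hy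
    rw [dist_eq_norm] at hy
    exact hy.le
  obtain ⟨a, ha0, ha⟩ := (mem_nhdsGT_iff_exists_Ioo_subset.1 h1)
  have ha0' : (0 : ℝ) < a := ha0
  set a' : ℝ := min (a / 2) (1 / 2) with ha'
  have ha'0 : 0 < a' := lt_min (by positivity) (by norm_num)
  have ha'1 : a' < 1 := lt_of_le_of_lt (min_le_right _ _) (by norm_num)
  have hwa : ∀ y : ℝ, 0 < y → y ≤ a' → ‖w y - w0‖ ≤ e := by
    intro y hy hya
    refine ha ⟨hy, ?_⟩
    have := hya.trans (min_le_left _ _)
    linarith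
  have hL : Tendsto (fun x : ℝ => Real.log (1 / x)) (𝓝[>] 0) atTop :=
    Real.tendsto_log_atTop.comp
      ((tendsto_inv_nhdsGT_zero (𝕜 := ℝ)).congr fun x => (one_div x).symm)
  set K : ℝ := B' * C * Real.log (1 / a') + e * C + ‖w0‖ * (2 * C) with hK
  have hbig : ∀ᶠ x : ℝ in 𝓝[>] 0, K < (ε - e * C) * Real.log (1 / x) := by
    have := hL.const_mul_atTop (sub_pos.2 heC)
    exact this.eventually (eventually_gt_atTop K)
  filter_upwards [hbig, self_mem_nhdsWithin, Ioo_mem_nhdsGT ha'0,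
    hL.eventually (eventually_gt_atTop (0 : ℝ))] with x hx1 hx2 hx3 hx4
  have hx0 : (0 : ℝ) < x := hx2
  have hxa : x < a' := hx3.2
  have hx1' : x < 1 := hxa.trans ha'1
  -- the main estimate
  have hmain : ‖(x : ℂ) * LT c w x - w0 * n * (Real.log (1 / x) : ℂ)‖ ≤
      K + e * C * Real.log (1 / x) := by
    rw [E.LT_real hwm hB hnz hd hx0]
    have hQi := E.Qf_int hnz hC2 hx0
    have hwme : AEStronglyMeasurable (fun u : ℝ => w (x / u) - w0) (volume.restrict (Ioi x)) := by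
      have : Measurable fun u : ℝ => w (x / u) := hwm.comp (by fun_prop)
      exact (this.sub_const _).aestronglyMeasurable
    have hxu : ∀ u ∈ Ioi x, x / u ∈ Ioo (0 : ℝ) 1 := by
      intro u hu
      have hu0 : 0 < u := hx0.trans hu
      exact ⟨by positivity, (div_lt_one hu0).2 hu⟩
    have hwb : ∀ u ∈ Ioi x, ‖w (x / u) - w0‖ ≤ B' := by
      intro u hu
      have h3 := hxu u hu
      refine (norm_sub_le _ _).trans ?_
      have := hB _ ⟨h3.1.le, h3.2.le⟩
      rw [hB']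
      linarith
    have hDi : IntegrableOn (fun u : ℝ => (w (x / u) - w0) * Qf Φ G u) (Ioi x) := by
      refine Integrable.bdd_mul (c := B') hQi hwme ?_
      filter_upwards [ae_restrict_mem measurableSet_Ioi] with u hu using hwb u hu
    have hsplit : ∫ u in Ioi x, -(w (x / u) * Qf Φ G u) =
        -(∫ u in Ioi x, (w (x / u) - w0) * Qf Φ G u) - w0 * ∫ u in Ioi x, Qf Φ G u := by
      have hDn : IntegrableOn (fun u : ℝ => -((w (x / u) - w0) * Qf Φ G u)) (Ioi x) := hDi.neg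
      rw [← integral_const_mul, ← integral_neg, ← integral_sub hDn (hQi.const_mul w0)]
      congr 1
      funext u
      ring
    rw [hsplit]
    have hQsplit : ∫ u in Ioi x, Qf Φ G u = (∫ u in Ioc x 1, Qf Φ G u) + ∫ u in Ioi (1 : ℝ), Qf Φ G u := by
      rw [← Ioc_union_Ioi_eq_Ioi hx1'.le, setIntegral_union (Set.Ioc_disjoint_Ioi le_rfl)
        measurableSet_Ioi (hQi.mono_set Ioc_subset_Ioi_self) (hQi.mono_set (Ioi_subset_Ioi hx1'.le))]
    have hxx : x / a' ≤ 1 := by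
      rw [div_le_one ha'0]
      exact hxa.le
    have hxx0 : x ≤ x / a' := by
      rw [le_div_iff₀ ha'0]
      nlinarith
    have hDsplit : ∫ u in Ioi x, (w (x / u) - w0) * Qf Φ G u =
        (∫ u in Ioc x (x / a'), (w (x / u) - w0) * Qf Φ G u) +
        ((∫ u in Ioc (x / a') 1, (w (x / u) - w0) * Qf Φ G u) +
          ∫ u in Ioi (1 : ℝ), (w (x / u) - w0) * Qf Φ G u) := by
      rw [← Ioc_union_Ioi_eq_Ioi hxx0, setIntegral_union (Set.Ioc_disjoint_Ioi le_rfl)
        measurableSet_Ioi (hDi.mono_set Ioc_subset_Ioi_self) (hDi.mono_set (Ioi_subset_Ioi hxx0))]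
      congr 1
      have hDi' := hDi.mono_set (Ioi_subset_Ioi hxx0)
      rw [← Ioc_union_Ioi_eq_Ioi hxx, setIntegral_union (Set.Ioc_disjoint_Ioi le_rfl)
        measurableSet_Ioi (hDi'.mono_set Ioc_subset_Ioi_self) (hDi'.mono_set (Ioi_subset_Ioi hxx))]
    have b1 : ‖∫ u in Ioc x (x / a'), (w (x / u) - w0) * Qf Φ G u‖ ≤
        B' * C * Real.log (1 / a') := by
      have h3 := int_inv_le (C := B' * C) hx0 hxx0 (f := fun u => (w (x / u) - w0) * Qf Φ G u)
        fun u hu => by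
          have hu0 : 0 < u := hx0.trans hu.1
          have h4 := hwb u hu.1
          have h5 := hC1 u hu0 (hu.2.trans hxx)
          rw [norm_mul]
          calc ‖w (x / u) - w0‖ * ‖Qf Φ G u‖ ≤ B' * (C / u) :=
                mul_le_mul h4 h5 (norm_nonneg _) hB'0
            _ = _ := by ring
      have h4 : x / a' / x = 1 / a' := by field_simp
      rwa [h4] at h3
    have b2 : ‖∫ u in Ioc (x / a') 1, (w (x / u) - w0) * Qf Φ G u‖ ≤
        e * C * Real.log (1 / x) := by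
      have hp : 0 < x / a' := by positivity
      have h3 := int_inv_le (C := e * C) hp hxx (f := fun u => (w (x / u) - w0) * Qf Φ G u)
        fun u hu => by
          have hu0 : 0 < u := hp.trans hu.1
          have h4 : ‖w (x / u) - w0‖ ≤ e := by
            refine hwa _ (by positivity) ?_
            rw [div_le_iff₀ hu0]
            have := hu.1
            rw [div_lt_iff₀ ha'0] at this
            linarith
          have h5 := hC1 u hu0 hu.2
          rw [norm_mul]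
          calc ‖w (x / u) - w0‖ * ‖Qf Φ G u‖ ≤ e * (C / u) :=
                mul_le_mul h4 h5 (norm_nonneg _) he0.le
            _ = _ := by ring
      refine h3.trans (mul_le_mul_of_nonneg_left ?_ (by positivity))
      refine Real.log_le_log (by positivity) ?_
      rw [one_div_div]
      gcongr
    have b3 : ‖∫ u in Ioi (1 : ℝ), (w (x / u) - w0) * Qf Φ G u‖ ≤ e * C := by
      refine int_sq_le fun u hu => ?_
      have hu0 : 0 < u := by linarith
      have h4 : ‖w (x / u) - w0‖ ≤ e := by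
        refine hwa _ (by positivity) ?_
        rw [div_le_iff₀ hu0]
        nlinarith
      have h5 := hC2 u hu
      rw [norm_mul]
      calc ‖w (x / u) - w0‖ * ‖Qf Φ G u‖ ≤ e * (C / u ^ 2) :=
            mul_le_mul h4 h5 (norm_nonneg _) he0.le
        _ = _ := by ring
    have b4 := hC3 x hx0 hx1'.le
    have b5 : ‖∫ u in Ioi (1 : ℝ), Qf Φ G u‖ ≤ C := int_sq_le hC2
    rw [hDsplit, hQsplit]
    set I1 := ∫ u in Ioc x (x / a'), (w (x / u) - w0) * Qf Φ G u
    set I2 := ∫ u in Ioc (x / a') 1, (w (x / u) - w0) * Qf Φ G u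
    set I3 := ∫ u in Ioi (1 : ℝ), (w (x / u) - w0) * Qf Φ G u
    set I4 := ∫ u in Ioc x 1, Qf Φ G u
    set I5 := ∫ u in Ioi (1 : ℝ), Qf Φ G u
    have e1 : -(I1 + (I2 + I3)) - w0 * (I4 + I5) - w0 * n * (Real.log (1 / x) : ℂ) =
        -(I1 + I2 + I3 + w0 * ((I4 + n * (Real.log (1 / x) : ℂ)) + I5)) := by ring
    rw [e1, norm_neg]
    calc ‖I1 + I2 + I3 + w0 * ((I4 + n * (Real.log (1 / x) : ℂ)) + I5)‖ ≤
          ‖I1‖ + ‖I2‖ + ‖I3‖ + ‖w0‖ * (‖I4 + n * (Real.log (1 / x) : ℂ)‖ + ‖I5‖) := by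
          refine (norm_add_le _ _).trans ?_
          rw [norm_mul]
          gcongr
          · exact (norm_add_le _ _).trans (by gcongr; exact norm_add_le _ _)
          · exact norm_add_le _ _
      _ ≤ B' * C * Real.log (1 / a') + e * C * Real.log (1 / x) + e * C + ‖w0‖ * (C + C) := by
          gcongr
      _ = _ := by rw [hK]; ring
  rw [dist_eq_norm]
  have hLc : (Real.log (1 / x) : ℂ) ≠ 0 := by exact_mod_cast hx4.ne'
  have e2 : (x : ℂ) * LT c w x / (Real.log (1 / x) : ℂ) - w0 * n =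
      ((x : ℂ) * LT c w x - w0 * n * (Real.log (1 / x) : ℂ)) / (Real.log (1 / x) : ℂ) := by
    field_simp
  rw [e2, norm_div, Complex.norm_real, Real.norm_of_nonneg hx4.le, div_lt_iff₀ hx4]
  refine hmain.trans_lt ?_
  linarith

end Pool.Agent.L0h3.WB
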