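import Pool.Agent.L0h3.WB.Lap
import Pool.Agent.Helper380.B3

/-! The weighted sums as finite sums, bounds, and analyticity of their Laplace transform. -/

set_option autoImplicit false

namespace Pool.Agent.L0h3.WB

open MeasureTheory Filter Topology Set Classical

variable {c : ℕ → ℝ} {w : ℝ → ℂ} {B : ℝ}

theorem gT_eq (hc : Co c) (w : ℝ → ℂ) (T : ℝ) :
    gT c w T = ∑ p ∈ Finset.range (⌊Real.exp T⌋₊ + 1), (c p : ℂ) * w (Real.log p / T) := by
  unfold gT
  rw [tsum_eq_sum (s := Finset.range (⌊Real.exp T⌋₊ + 1))]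
  · refine Finset.sum_congr rfl fun p hp => ?_
    by_cases h0 : c p = 0
    · rw [h0]; simp
    · have hp3 := hc.big p h0
      have hp0 : (0 : ℝ) < p := by exact_mod_cast (show 0 < p by omega)
      rw [Finset.mem_range, Nat.lt_succ_iff] at hp
      have h1 : (p : ℝ) ≤ Real.exp T := (Nat.le_floor_iff (Real.exp_pos T).le).1 hp
      rw [if_pos ((Real.log_le_iff_le_exp hp0).2 h1)]
  · intro p hp
    rw [Finset.mem_range, Nat.lt_succ_iff, not_le] at hp
    have h1 : Real.exp T < p := (Nat.floor_lt (Real.exp_pos T).le).1 hp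
    have hp0 : (0 : ℝ) < p := (Real.exp_pos T).trans h1
    rw [if_neg]
    rw [not_le]
    exact (Real.lt_log_iff_exp_lt hp0).2 h1

theorem gT_meas (hwm : Measurable w) : Measurable (gT c w) := by
  have hm : ∀ n : ℕ, Measurable fun T : ℝ => ∑ p ∈ Finset.range n,
      (if Real.log p ≤ T then (c p : ℂ) * w (Real.log p / T) else 0) := by
    intro n
    refine Finset.measurable_fun_sum _ fun p _ => ?_
    refine Measurable.ite measurableSet_Ici ?_ measurable_const
    exact (hwm.comp (by fun_prop : Measurable fun T : ℝ => Real.log p / T)).const_mul _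
  refine measurable_of_tendsto_metrizable hm ?_
  rw [tendsto_pi_nhds]
  intro T
  unfold gT
  have hs : Summable fun p : ℕ => (if Real.log p ≤ T then (c p : ℂ) * w (Real.log p / T) else 0) := by
    refine summable_of_ne_finset_zero (s := Finset.range (⌊Real.exp T⌋₊ + 1)) fun p hp => ?_
    rw [Finset.mem_range, Nat.lt_succ_iff, not_le] at hp
    have h1 : Real.exp T < p := (Nat.floor_lt (Real.exp_pos T).le).1 hp
    have hp0 : (0 : ℝ) < p := (Real.exp_pos T).trans h1
    rw [if_neg]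
    rw [not_le]
    exact (Real.lt_log_iff_exp_lt hp0).2 h1
  exact hs.hasSum.tendsto_sum_nat

theorem gT_trivial (hc : Co c) (hB : ∀ y ∈ Icc (0 : ℝ) 1, ‖w y‖ ≤ B) (T : ℝ) :
    ‖gT c w T‖ ≤ B * (Real.exp T + 1) := by
  have hB0 : 0 ≤ B := (norm_nonneg _).trans (hB 0 ⟨le_rfl, zero_le_one⟩)
  rw [gT_eq hc]
  refine (norm_sum_le _ _).trans ?_
  have h1 : ∀ p ∈ Finset.range (⌊Real.exp T⌋₊ + 1), ‖(c p : ℂ) * w (Real.log p / T)‖ ≤ B := by
    intro p hp
    by_cases h0 : c p = 0
    · rw [h0]; simpa using hB0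
    · have hp3 := hc.big p h0
      have hp0 : (0 : ℝ) < p := by exact_mod_cast (show 0 < p by omega)
      rw [Finset.mem_range, Nat.lt_succ_iff] at hp
      have h1 : (p : ℝ) ≤ Real.exp T := (Nat.le_floor_iff (Real.exp_pos T).le).1 hp
      have h2 := (Real.log_le_iff_le_exp hp0).2 h1
      have h3 : 0 ≤ Real.log p := Real.log_natCast_nonneg p
      rw [norm_mul, Complex.norm_real, Real.norm_eq_abs]
      calc |c p| * ‖w (Real.log p / T)‖ ≤ 1 * B :=
            mul_le_mul (hc.le_one p) (hB _ ⟨div_nonneg h3 (h3.trans h2),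
              div_le_one_of_le₀ h2 (h3.trans h2)⟩) (norm_nonneg _) zero_le_one
        _ = B := one_mul _
  refine (Finset.sum_le_sum h1).trans ?_
  rw [Finset.sum_const, Finset.card_range, nsmul_eq_mul, mul_comm]
  refine mul_le_mul_of_nonneg_left ?_ hB0
  push_cast
  have := Nat.floor_le (Real.exp_pos T).le
  linarith

/-- an eventual bound is a bound everywhere -/
theorem gT_global (hc : Co c) (hB : ∀ y ∈ Icc (0 : ℝ) 1, ‖w y‖ ≤ B) {δ C : ℝ} (hδ : 0 ≤ δ)
    (h : ∀ᶠ T : ℝ in atTop, ‖gT c w T‖ ≤ C * Real.exp (δ * T)) :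
    ∃ C' : ℝ, 0 ≤ C' ∧ ∀ T : ℝ, 0 < T → ‖gT c w T‖ ≤ C' * Real.exp (δ * T) := by
  have hB0 : 0 ≤ B := (norm_nonneg _).trans (hB 0 ⟨le_rfl, zero_le_one⟩)
  obtain ⟨T0, hT0⟩ := eventually_atTop.1 h
  refine ⟨max |C| (B * (Real.exp T0 + 1)), le_max_of_le_left (abs_nonneg _), fun T hT => ?_⟩
  have h1 : 1 ≤ Real.exp (δ * T) := Real.one_le_exp (by positivity)
  by_cases hle : T0 ≤ T
  · refine (hT0 T hle).trans ?_
    gcongr
    exact (le_abs_self C).trans (le_max_left _ _)
  · push Not at hle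
    refine (gT_trivial hc hB T).trans ?_
    have h2 : B * (Real.exp T + 1) ≤ B * (Real.exp T0 + 1) := by
      gcongr
    refine h2.trans ((le_max_right |C| _).trans ?_)
    refine le_mul_of_one_le_right ?_ h1
    exact le_max_of_le_left (abs_nonneg _)

/-- the Laplace transform -/
noncomputable def LT (c : ℕ → ℝ) (w : ℝ → ℂ) (z : ℂ) : ℂ :=
  ∫ T in Ioi (0 : ℝ), gT c w T * Complex.exp (-(z * T))

theorem LT_diff (hc : Co c) (hwm : Measurable w) {δ C : ℝ} (hC : 0 ≤ C)
    (h : ∀ T : ℝ, 0 < T → ‖gT c w T‖ ≤ C * Real.exp (δ * T)) {z : ℂ} (hz : δ < z.re) :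
    DifferentiableAt ℂ (LT c w) z := by
  set ρ : ℝ := (z.re - δ) / 2 with hρ
  have hρ0 : 0 < ρ := by linarith
  refine Pool.Agent.Helper380.B3.differentiableAt_integral hρ0
    (bound := fun T => C * Real.exp (-(ρ * T))) ?_ ?_ ?_ ?_
  · refine Eventually.of_forall fun T => ?_
    intro v _
    refine DifferentiableAt.differentiableWithinAt ?_
    fun_prop
  · intro v _
    exact ((gT_meas hwm).mul (by fun_prop)).aestronglyMeasurable
  · filter_upwards [ae_restrict_mem measurableSet_Ioi] with T hT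
    have hT' : 0 < T := hT
    intro v hv
    rw [norm_mul, Complex.norm_exp, Complex.neg_re, Complex.re_mul_ofReal]
    have h1 : |v.re - z.re| < ρ := by
      have h2 := Complex.abs_re_le_norm (v - z)
      rw [Complex.sub_re] at h2
      rw [Metric.mem_ball, dist_eq_norm] at hv
      linarith
    have h3 := (abs_lt.1 h1).1
    calc ‖gT c w T‖ * Real.exp (-(v.re * T)) ≤ C * Real.exp (δ * T) * Real.exp (-(v.re * T)) := by
          gcongr
          exact h T hT'
      _ = C * Real.exp (δ * T + -(v.re * T)) := by rw [mul_assoc, ← Real.exp_add]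
      _ ≤ C * Real.exp (-(ρ * T)) := by
          gcongr
          nlinarith
  · have := (exp_int hρ0 0).1
    exact this.const_mul C

end Pool.Agent.L0h3.WB
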