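import Pool.Agent.L0h3.WB.Poisson
import Pool.Agent.Helper380.B3

/-! The jump of the multiplicative convolution across a ray through a zero. -/

set_option autoImplicit false

namespace Pool.Agent.L0h3.WB

open MeasureTheory Filter Topology Set

/-- a truncated closed sector -/
def TT (t1 η : ℝ) : Set ℂ := {v | t1 ≤ v.re ∧ |v.im| ≤ η * v.re}

theorem isClosed_TT (t1 η : ℝ) : IsClosed (TT t1 η) := by
  refine (isClosed_le continuous_const Complex.continuous_re).inter ?_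
  exact isClosed_le Complex.continuous_im.abs (continuous_const.mul Complex.continuous_re)

/-- local data: `q` has a simple pole with residue `-m` at `1`, and no other singularity in the
truncated sector. -/
structure Loc (q r : ℂ → ℂ) (m : ℂ) (t1 η M V : ℝ) : Prop where
  ht1 : 0 < t1
  hη : 0 < η
  hM0 : 0 ≤ M
  hr : ∀ v ∈ TT t1 η, DifferentiableAt ℂ r v
  hq : ∀ v ∈ TT t1 η, v ≠ 1 → DifferentiableAt ℂ q v
  hqr : ∀ v ∈ TT t1 η, v ≠ 1 → q v = r v - m / (v - 1)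
  hM : ∀ v ∈ TT t1 η, V ≤ v.re → ‖q v‖ ≤ M / v.re ^ 2

variable {q r : ℂ → ℂ} {m : ℂ} {t1 η M V : ℝ} {w : ℝ → ℂ} {B b : ℝ}

theorem Loc.bound (L : Loc q r m t1 η M V) {K : Set ℂ} (hK : IsClosed K) (hsub : K ⊆ TT t1 η)
    (h1 : (1 : ℂ) ∉ K) : ∃ C : ℝ, 0 ≤ C ∧ ∀ v ∈ K, ‖q v‖ ≤ C / v.re ^ 2 := by
  set K' : Set ℂ := K ∩ {v | v.re ≤ V} with hK'
  have hcl : IsClosed K' := hK.inter (isClosed_le Complex.continuous_re continuous_const)
  have hbd : Bornology.IsBounded K' := by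
    rw [isBounded_iff_forall_norm_le]
    refine ⟨|V| + η * |V|, fun v hv => ?_⟩
    have h2 := hsub hv.1
    have h3 : v.re ≤ V := hv.2
    have h4 := L.ht1
    have h5 : 0 < v.re := lt_of_lt_of_le h4 h2.1
    refine (Complex.norm_le_abs_re_add_abs_im v).trans ?_
    rw [abs_of_pos h5]
    have h6 : V ≤ |V| := le_abs_self V
    have h7 : η * v.re ≤ η * |V| := mul_le_mul_of_nonneg_left (by linarith) L.hη.le
    have := h2.2
    linarith
  have hcomp : IsCompact K' := Metric.isCompact_of_isClosed_isBounded hcl hbd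
  have hcont : ContinuousOn q K' := fun v hv =>
    (L.hq v (hsub hv.1) (fun h => h1 (h ▸ hv.1))).continuousAt.continuousWithinAt
  obtain ⟨C1, hC1⟩ := hcomp.exists_bound_of_continuousOn hcont
  refine ⟨max (|C1| * V ^ 2) M, le_max_of_le_right L.hM0, fun v hv => ?_⟩
  have h2 := hsub hv
  have h4 := L.ht1
  have h5 : 0 < v.re := lt_of_lt_of_le h4 h2.1
  by_cases h3 : v.re ≤ V
  · have h6 := hC1 v ⟨hv, h3⟩
    rw [le_div_iff₀ (by positivity)]
    refine le_max_of_le_left ?_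
    have h7 : v.re ^ 2 ≤ V ^ 2 := by
      apply pow_le_pow_left₀ h5.le h3
    exact mul_le_mul (h6.trans (le_abs_self _)) h7 (by positivity) (abs_nonneg _)
  · push Not at h3
    refine (L.hM v h2 h3.le).trans ?_
    gcongr
    exact le_max_right _ _

theorem div_ofReal_im (x : ℂ) (y : ℝ) : (x / (y : ℂ)).im = x.im / y := by
  rw [Complex.div_ofReal_im]

theorem mem_TT {t1 η b : ℝ} {x : ℂ} (hx : b * t1 ≤ x.re) (ht : 0 < t1)
    (hx2 : |x.im| ≤ η * x.re) {y : ℝ} (hy : y ∈ Ioo 0 b) : x / (y : ℂ) ∈ TT t1 η := by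
  have hy0 := hy.1
  constructor
  · rw [Complex.div_ofReal_re, le_div_iff₀ hy0]
    nlinarith [hy.2]
  · rw [Complex.div_ofReal_im, Complex.div_ofReal_re, abs_div, abs_of_pos hy0, mul_div_assoc']
    gcongr

/-- the open half sectors -/
def US (b t1 η σ : ℝ) : Set ℂ := {x | b * t1 < x.re ∧ 0 < σ * x.im ∧ σ * x.im < η * x.re}

/-- the convolution -/
noncomputable def HH (w : ℝ → ℂ) (q : ℂ → ℂ) (b : ℝ) (x : ℂ) : ℂ :=
  ∫ y in Ioo (0 : ℝ) b, -(w y * ((y : ℂ) ^ 2)⁻¹ * q (x / y))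

theorem kernel_bound (hB : ∀ y ∈ Icc (0 : ℝ) 1, ‖w y‖ ≤ B) (hb1 : b ≤ 1) {C : ℝ} (hC : 0 ≤ C)
    {x : ℂ} {a : ℝ} (ha : 0 < a) (hx : a ≤ x.re) {y : ℝ} (hy : y ∈ Ioo 0 b)
    (hq : ‖q (x / y)‖ ≤ C / (x / (y : ℂ)).re ^ 2) :
    ‖-(w y * ((y : ℂ) ^ 2)⁻¹ * q (x / y))‖ ≤ B * C / a ^ 2 := by
  have hy0 := hy.1
  have hBw := hB y ⟨hy0.le, hy.2.le.trans hb1⟩
  have hB0 : 0 ≤ B := (norm_nonneg _).trans hBw
  rw [Complex.div_ofReal_re] at hq
  rw [norm_neg, norm_mul, norm_mul, norm_inv, norm_pow, Complex.norm_real, Real.norm_of_nonneg hy0.le]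
  have h1 : C / (x.re / y) ^ 2 ≤ C * y ^ 2 / a ^ 2 := by
    rw [div_pow, div_div_eq_mul_div]
    gcongr
  calc ‖w y‖ * (y ^ 2)⁻¹ * ‖q (x / y)‖ ≤ B * (y ^ 2)⁻¹ * (C * y ^ 2 / a ^ 2) := by
        have := hq.trans h1
        gcongr
    _ = B * C / a ^ 2 := by
        field_simp

theorem cont_comp_meas {x : ℂ} (hwm : Measurable w)
    (h : ∀ y ∈ Ioo (0 : ℝ) b, ContinuousAt q (x / (y : ℂ))) :
    AEStronglyMeasurable (fun y : ℝ => -(w y * ((y : ℂ) ^ 2)⁻¹ * q (x / y)))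
      (volume.restrict (Ioo (0 : ℝ) b)) := by
  have h1 : ContinuousOn (fun y : ℝ => q (x / (y : ℂ))) (Ioo 0 b) := by
    intro y hy
    have h2 : ContinuousAt (fun y : ℝ => x / (y : ℂ)) y := by
      have : (y : ℂ) ≠ 0 := by exact_mod_cast hy.1.ne'
      fun_prop (disch := assumption)
    exact (ContinuousAt.comp (f := fun y : ℝ => x / (y : ℂ)) (g := q) (h y hy) h2).continuousWithinAt
  have h3 := h1.aestronglyMeasurable (μ := volume) measurableSet_Ioo
  have h4 : Measurable fun y : ℝ => w y * ((y : ℂ) ^ 2)⁻¹ := by fun_prop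
  exact ((h4.aestronglyMeasurable (μ := volume.restrict (Ioo (0 : ℝ) b))).mul h3).neg

theorem Loc.HH_diff (L : Loc q r m t1 η M V) (hwm : Measurable w)
    (hB : ∀ y ∈ Icc (0 : ℝ) 1, ‖w y‖ ≤ B) (hb0 : 0 < b) (hb1 : b ≤ 1) {σ : ℝ} (hσ : |σ| = 1)
    {x : ℂ} (hx : x ∈ US b t1 η σ) : DifferentiableAt ℂ (HH w q b) x := by
  obtain ⟨hx1, hx2, hx3⟩ := hx
  have ht1 := L.ht1
  have hxr : 0 < x.re := lt_trans (by positivity) hx1
  set c0 : ℝ := σ * x.im / (2 * x.re) with hc0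
  have hc0p : 0 < c0 := by positivity
  set O : Set ℂ := {x | b * t1 < x.re ∧ c0 * x.re < σ * x.im ∧ σ * x.im < η * x.re} with hO
  have hOo : IsOpen O := by
    have h1 : IsOpen {x : ℂ | b * t1 < x.re} := isOpen_lt (by fun_prop) (by fun_prop)
    have h2 : IsOpen {x : ℂ | c0 * x.re < σ * x.im} := isOpen_lt (by fun_prop) (by fun_prop)
    have h3 : IsOpen {x : ℂ | σ * x.im < η * x.re} := isOpen_lt (by fun_prop) (by fun_prop)
    exact h1.inter (h2.inter h3)
  have hxO : x ∈ O := by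
    refine ⟨hx1, ?_, hx3⟩
    have : c0 * x.re = σ * x.im / 2 := by
      rw [hc0]; field_simp
    rw [this]
    linarith
  obtain ⟨δ, hδ, hball⟩ := Metric.isOpen_iff.1 hOo x hxO
  have habs : ∀ v ∈ O, |v.im| ≤ η * v.re := by
    intro v hv
    have h1 : |σ * v.im| = |v.im| := by rw [abs_mul, hσ, one_mul]
    have h2 : 0 < v.re := lt_trans (by positivity) hv.1
    have h3 : 0 < σ * v.im := lt_trans (by positivity) hv.2.1
    rw [← h1, abs_of_pos h3]
    exact hv.2.2.le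
  set K : Set ℂ := TT t1 η ∩ {v | c0 * v.re ≤ σ * v.im} with hK
  obtain ⟨C, hC0, hC⟩ := L.bound (K := K) ((isClosed_TT _ _).inter
    (isClosed_le (by fun_prop) (by fun_prop))) inter_subset_left (by
      rintro ⟨-, h⟩
      have : c0 * (1 : ℂ).re ≤ σ * (1 : ℂ).im := h
      rw [Complex.one_re, Complex.one_im] at this
      linarith)
  have hKmem : ∀ v ∈ O, ∀ y ∈ Ioo (0 : ℝ) b, v / (y : ℂ) ∈ K := by
    intro v hv y hy
    have hy0 := hy.1
    refine ⟨mem_TT hv.1.le ht1 (habs v hv) hy, ?_⟩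
    show c0 * (v / (y : ℂ)).re ≤ σ * (v / (y : ℂ)).im
    rw [Complex.div_ofReal_im, Complex.div_ofReal_re, mul_div_assoc', mul_div_assoc']
    have := hv.2.1.le
    gcongr
  have hne : ∀ v ∈ K, v ≠ 1 := by
    rintro v ⟨-, h⟩ rfl
    have : c0 * (1 : ℂ).re ≤ σ * (1 : ℂ).im := h
    rw [Complex.one_re, Complex.one_im] at this
    linarith
  refine Pool.Agent.Helper380.B3.differentiableAt_integral hδ
    (bound := fun _ => B * C / (b * t1) ^ 2) ?_ ?_ ?_ ?_
  · filter_upwards [ae_restrict_mem measurableSet_Ioo] with y hy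
    intro v hv
    have hvO := hball hv
    have h1 := hKmem v hvO y hy
    have h2 : DifferentiableAt ℂ q (v / (y : ℂ)) := L.hq _ h1.1 (hne _ h1)
    have h3 : DifferentiableAt ℂ (fun v : ℂ => q (v / (y : ℂ))) v :=
      DifferentiableAt.comp (g := q) (f := fun v : ℂ => v / (y : ℂ)) v h2 (by fun_prop)
    exact ((h3.const_mul _).fun_neg).differentiableWithinAt
  · intro v hv
    refine cont_comp_meas hwm fun y hy => ?_
    have h1 := hKmem v (hball hv) y hy
    exact (L.hq _ h1.1 (hne _ h1)).continuousAt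
  · filter_upwards [ae_restrict_mem measurableSet_Ioo] with y hy
    intro v hv
    have hvO := hball hv
    exact kernel_bound hB hb1 hC0 (by positivity) hvO.1.le hy (hC _ (hKmem v hvO y hy))
  · exact integrable_const _

theorem isOpen_US (b t1 η σ : ℝ) : IsOpen (US b t1 η σ) := by
  have h1 : IsOpen {x : ℂ | b * t1 < x.re} := isOpen_lt (by fun_prop) (by fun_prop)
  have h2 : IsOpen {x : ℂ | 0 < σ * x.im} := isOpen_lt (by fun_prop) (by fun_prop)
  have h3 : IsOpen {x : ℂ | σ * x.im < η * x.re} := isOpen_lt (by fun_prop) (by fun_prop)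
  exact h1.inter (h2.inter h3)

theorem convex_US (b t1 η σ : ℝ) : Convex ℝ (US b t1 η σ) := by
  intro x hx y hy s t hs ht hst
  obtain ⟨h1, h2, h3⟩ := hx
  obtain ⟨h4, h5, h6⟩ := hy
  have e1 : (s • x + t • y).re = s * x.re + t * y.re := by simp
  have e2 : (s • x + t • y).im = s * x.im + t * y.im := by simp
  refine ⟨?_, ?_, ?_⟩
  · rw [e1]
    rcases hs.lt_or_eq with hs' | hs'
    · have e5 : b * t1 = s * (b * t1) + t * (b * t1) := by rw [← add_mul, hst, one_mul]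
      have := mul_lt_mul_of_pos_left h1 hs'
      have := mul_le_mul_of_nonneg_left h4.le ht
      linarith
    · rw [← hs'] at hst ⊢
      rw [zero_add] at hst
      rw [hst]
      linarith
  · rw [e2]
    have e3 : σ * (s * x.im + t * y.im) = s * (σ * x.im) + t * (σ * y.im) := by ring
    rw [e3]
    rcases hs.lt_or_eq with hs' | hs'
    · have := mul_pos hs' h2
      have := mul_nonneg ht h5.le
      linarith
    · rw [← hs'] at hst ⊢
      rw [zero_add] at hst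
      rw [hst]
      linarith
  · rw [e1, e2]
    have e3 : σ * (s * x.im + t * y.im) = s * (σ * x.im) + t * (σ * y.im) := by ring
    have e4 : η * (s * x.re + t * y.re) = s * (η * x.re) + t * (η * y.re) := by ring
    rw [e3, e4]
    rcases hs.lt_or_eq with hs' | hs'
    · have := mul_lt_mul_of_pos_left h3 hs'
      have := mul_le_mul_of_nonneg_left h6.le ht
      linarith
    · rw [← hs'] at hst ⊢
      rw [zero_add] at hst
      rw [hst]
      linarith

theorem Loc.eq_on (L : Loc q r m t1 η M V) (hwm : Measurable w)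
    (hB : ∀ y ∈ Icc (0 : ℝ) 1, ‖w y‖ ≤ B) (hb0 : 0 < b) (hb1 : b ≤ 1) {σ : ℝ} (hσ : |σ| = 1)
    {D : Set ℂ} (hDo : IsOpen D) (hDc : Convex ℝ D) {h : ℂ → ℂ} (hd : DifferentiableOn ℂ h D)
    {X0 : ℝ} (hX : ∀ v : ℂ, |v.im| ≤ η * v.re → X0 ≤ v.re → v ∈ D ∧ h v = HH w q b v) :
    ∀ x ∈ US b t1 η σ ∩ D, h x = HH w q b x := by
  have hη := L.hη
  have ht1 := L.ht1
  set U := US b t1 η σ ∩ D with hU
  have hUo : IsOpen U := (isOpen_US _ _ _ _).inter hDo
  have hUc : IsPreconnected U := ((convex_US _ _ _ _).inter hDc).isPreconnected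
  have h1 : AnalyticOnNhd ℂ h U := (hd.mono inter_subset_right).analyticOnNhd hUo
  have h2 : AnalyticOnNhd ℂ (HH w q b) U := by
    refine DifferentiableOn.analyticOnNhd (fun x hx => ?_) hUo
    exact (L.HH_diff hwm hB hb0 hb1 hσ hx.1).differentiableWithinAt
  have habs : ∀ v ∈ US b t1 η σ, |v.im| ≤ η * v.re := by
    intro v hv
    have h1 : |σ * v.im| = |v.im| := by rw [abs_mul, hσ, one_mul]
    rw [← h1, abs_of_pos hv.2.1]
    exact hv.2.2.le
  have hσ2 : σ * σ = 1 := by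
    have := congrArg (fun t => t * t) hσ
    simpa using this
  set X1 : ℝ := |X0| + b * t1 + 1 with hX1
  have hX1p : 0 < X1 := by positivity
  set z : ℂ := ⟨X1, σ * (η * X1 / 2)⟩ with hz
  have hzU : z ∈ US b t1 η σ := by
    have e1 : σ * z.im = η * X1 / 2 := by
      rw [hz]
      show σ * (σ * (η * X1 / 2)) = _
      rw [← mul_assoc, hσ2, one_mul]
    have e2 : z.re = X1 := rfl
    refine ⟨?_, ?_, ?_⟩
    · rw [e2, hX1]
      have := abs_nonneg X0
      linarith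
    · rw [e1]; positivity
    · rw [e1, e2]
      have : 0 < η * X1 := by positivity
      linarith
  have hzX : X0 < z.re := by
    show X0 < X1
    have := le_abs_self X0
    have : 0 < b * t1 := by positivity
    rw [hX1]
    linarith
  have hzD := (hX z (habs z hzU) hzX.le).1
  have hev : h =ᶠ[𝓝 z] HH w q b := by
    have ho : IsOpen {v : ℂ | X0 < v.re} := isOpen_lt (by fun_prop) (by fun_prop)
    filter_upwards [ho.mem_nhds hzX, (isOpen_US b t1 η σ).mem_nhds hzU] with v hv1 hv2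
    exact (hX v (habs v hv2) (le_of_lt hv1)).2
  exact h1.eqOn_of_preconnected_of_eventuallyEq h2 hUc ⟨hzU, hzD⟩ hev

/-- the pole part of the convolution -/
theorem pole_part (hwm : Measurable w) (hB : ∀ y ∈ Icc (0 : ℝ) 1, ‖w y‖ ≤ B) {y1 : ℝ}
    (hy1 : 0 < y1) (hb1 : b ≤ 1) {x : ℝ} (hx1 : y1 < x) (hxb : x < b) (hwx : ContinuousAt w x) :
    Tendsto (fun c : ℝ => ∫ y in Ioo y1 b, (w y / y) * (1 / (((x : ℂ) + (c⁻¹ : ℝ) * Complex.I) - y) -
      1 / (((x : ℂ) - (c⁻¹ : ℝ) * Complex.I) - y))) atTop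
      (𝓝 (-(2 * Real.pi * Complex.I) * (w x / x))) := by
  set g : ℝ → ℂ := (Ioo y1 b).indicator (fun y => w y / y) with hg
  have hB0 : 0 ≤ B := (norm_nonneg _).trans (hB 0 ⟨le_rfl, zero_le_one⟩)
  have hgi : Integrable g := by
    rw [hg, integrable_indicator_iff measurableSet_Ioo]
    refine Integrable.mono' (g := fun _ => B / y1) ((integrable_const (B / y1)) : IntegrableOn
      (fun _ : ℝ => B / y1) (Ioo y1 b)) ?_ ?_
    · have : Measurable fun y : ℝ => w y / y := by fun_prop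
      exact this.aestronglyMeasurable
    · filter_upwards [ae_restrict_mem measurableSet_Ioo] with y hy
      have hy0 : 0 < y := hy1.trans hy.1
      have := hB y ⟨hy0.le, hy.2.le.trans hb1⟩
      have h2 := hy.1.le
      rw [norm_div, Complex.norm_real, Real.norm_of_nonneg hy0.le]
      gcongr
  have hx0 : 0 < x := hy1.trans hx1
  have hgx : ContinuousAt g x := by
    have h1 : g =ᶠ[𝓝 x] fun y => w y / y := by
      filter_upwards [Ioo_mem_nhds hx1 hxb] with y hy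
      rw [hg, indicator_of_mem hy]
    have h2 : ContinuousAt (fun y : ℝ => w y / (y : ℂ)) x := by
      refine ContinuousAt.div hwx (by fun_prop) ?_
      exact_mod_cast hx0.ne'
    exact h2.congr h1.symm
  have h3 := (poisson hgi hgx).const_mul (-(2 * Complex.I))
  have hgx' : g x = w x / x := by
    rw [hg, indicator_of_mem (show x ∈ Ioo y1 b from ⟨hx1, hxb⟩)]
  rw [hgx'] at h3
  have e0 : -(2 * Complex.I) * ((Real.pi : ℂ) * (w x / x)) =
      -(2 * Real.pi * Complex.I) * (w x / x) := by ring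
  rw [e0] at h3
  refine h3.congr' ?_
  filter_upwards [eventually_gt_atTop (0 : ℝ)] with c hc
  rw [← integral_const_mul, ← integral_indicator measurableSet_Ioo]
  congr 1
  funext y
  by_cases hy : y ∈ Ioo y1 b
  · rw [indicator_of_mem hy, hg, indicator_of_mem hy]
    have hc' : (c : ℂ) ≠ 0 := by exact_mod_cast hc.ne'
    have hne : ∀ s : ℝ, s ≠ 0 → ((x : ℂ) - y) + s * Complex.I ≠ 0 := by
      intro s hs h
      have := congrArg Complex.im h
      simp at this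
      exact hs this
    have h1 : ((x : ℂ) + (c⁻¹ : ℝ) * Complex.I) - y ≠ 0 := by
      have := hne c⁻¹ (inv_ne_zero hc.ne')
      intro h
      apply this
      rw [← h]; ring
    have h2 : ((x : ℂ) - (c⁻¹ : ℝ) * Complex.I) - y ≠ 0 := by
      have := hne (-c⁻¹) (neg_ne_zero.2 (inv_ne_zero hc.ne'))
      intro h
      apply this
      rw [← h]; push_cast; ring
    have h4 : (1 + ((c : ℂ) * (x - y)) ^ 2) ≠ 0 := by
      have : (0 : ℝ) < 1 + (c * (x - y)) ^ 2 := by positivity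
      exact_mod_cast this.ne'
    have e1 : 1 / (((x : ℂ) + (c⁻¹ : ℝ) * Complex.I) - y) -
      1 / (((x : ℂ) - (c⁻¹ : ℝ) * Complex.I) - y) =
      -(2 * Complex.I) * (((c / (1 + (c * (x - y)) ^ 2) : ℝ)) : ℂ) := by
      have e2 : (((x : ℂ) + (c⁻¹ : ℝ) * Complex.I) - y) * (((x : ℂ) - (c⁻¹ : ℝ) * Complex.I) - y) =
          (1 + (c * (x - y)) ^ 2) / c ^ 2 := by
        have e3 : (((x : ℂ) + (c⁻¹ : ℝ) * Complex.I) - y) *
            (((x : ℂ) - (c⁻¹ : ℝ) * Complex.I) - y) =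
            ((x : ℂ) - y) ^ 2 - (c⁻¹ : ℝ) ^ 2 * Complex.I ^ 2 := by ring
        rw [e3, Complex.I_sq]
        push_cast
        field_simp
        ring
      rw [div_sub_div _ _ h1 h2, e2]
      push_cast
      field_simp
      ring
    rw [e1]
    ring
  · rw [indicator_of_notMem hy, hg, indicator_of_notMem hy]
    ring

theorem meas_gen {S : Set ℝ} (hS : MeasurableSet S) (hS0 : ∀ y ∈ S, 0 < y) {φ : ℂ → ℂ} {x : ℂ}
    (hwm : Measurable w) (h : ∀ y ∈ S, ContinuousAt φ (x / (y : ℂ))) :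
    AEStronglyMeasurable (fun y : ℝ => -(w y * ((y : ℂ) ^ 2)⁻¹ * φ (x / y)))
      (volume.restrict S) := by
  have h1 : ContinuousOn (fun y : ℝ => φ (x / (y : ℂ))) S := by
    intro y hy
    have h2 : ContinuousAt (fun y : ℝ => x / (y : ℂ)) y := by
      have : (y : ℂ) ≠ 0 := by exact_mod_cast (hS0 y hy).ne'
      fun_prop (disch := assumption)
    exact (ContinuousAt.comp (f := fun y : ℝ => x / (y : ℂ)) (g := φ) (h y hy) h2).continuousWithinAt
  have h3 := h1.aestronglyMeasurable (μ := volume) hS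
  have h4 : Measurable fun y : ℝ => w y * ((y : ℂ) ^ 2)⁻¹ := by fun_prop
  exact ((h4.aestronglyMeasurable (μ := volume.restrict S)).mul h3).neg

theorem tend_gen {S : Set ℝ} (hS : MeasurableSet S) (hS0 : ∀ y ∈ S, 0 < y)
    (hSf : volume S < ⊤) {φ : ℂ → ℂ} {K : Set ℂ} (hφ : ∀ v ∈ K, ContinuousAt φ v)
    (hwm : Measurable w) {xs : ℝ → ℂ} {x : ℂ} (hxs : Tendsto xs atTop (𝓝 x))
    (hK : ∀ᶠ c : ℝ in atTop, ∀ y ∈ S, xs c / (y : ℂ) ∈ K) (hK0 : ∀ y ∈ S, x / (y : ℂ) ∈ K) {E : ℝ}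
    (hE : ∀ᶠ c : ℝ in atTop, ∀ y ∈ S, ‖-(w y * ((y : ℂ) ^ 2)⁻¹ * φ (xs c / y))‖ ≤ E) :
    Tendsto (fun c : ℝ => ∫ y in S, -(w y * ((y : ℂ) ^ 2)⁻¹ * φ (xs c / y))) atTop
      (𝓝 (∫ y in S, -(w y * ((y : ℂ) ^ 2)⁻¹ * φ (x / y)))) := by
  have : IsFiniteMeasure (volume.restrict S) := ⟨by rwa [Measure.restrict_apply_univ]⟩
  refine tendsto_integral_filter_of_dominated_convergence (fun _ => E) ?_ ?_ (integrable_const E) ?_
  · filter_upwards [hK] with c hc
    exact meas_gen hS hS0 hwm fun y hy => hφ _ (hc y hy)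
  · filter_upwards [hE] with c hc
    filter_upwards [ae_restrict_mem hS] with y hy using hc y hy
  · filter_upwards [ae_restrict_mem hS] with y hy
    have h1 : Tendsto (fun c => xs c / (y : ℂ)) atTop (𝓝 (x / y)) := hxs.div_const _
    exact (((hφ _ (hK0 y hy)).tendsto.comp h1).const_mul _).neg

theorem int_gen {S : Set ℝ} (hS : MeasurableSet S) (hS0 : ∀ y ∈ S, 0 < y)
    (hSf : volume S < ⊤) {φ : ℂ → ℂ} {K : Set ℂ} (hφ : ∀ v ∈ K, ContinuousAt φ v)
    (hwm : Measurable w) {x : ℂ} (hK0 : ∀ y ∈ S, x / (y : ℂ) ∈ K) {E : ℝ}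
    (hE : ∀ y ∈ S, ‖-(w y * ((y : ℂ) ^ 2)⁻¹ * φ (x / y))‖ ≤ E) :
    IntegrableOn (fun y : ℝ => -(w y * ((y : ℂ) ^ 2)⁻¹ * φ (x / y))) S := by
  have : IsFiniteMeasure (volume.restrict S) := ⟨by rwa [Measure.restrict_apply_univ]⟩
  refine Integrable.mono' (integrable_const E) (meas_gen hS hS0 hwm fun y hy => hφ _ (hK0 y hy)) ?_
  filter_upwards [ae_restrict_mem hS] with y hy using hE y hy

/-- **The weight vanishes at the position of the last zero on a ray.** -/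
theorem Loc.jump (L : Loc q r m t1 η M V) (hwm : Measurable w)
    (hB : ∀ y ∈ Icc (0 : ℝ) 1, ‖w y‖ ≤ B) (hb0 : 0 < b) (hb1 : b ≤ 1)
    {D : Set ℂ} (hDo : IsOpen D) (hDc : Convex ℝ D) {h : ℂ → ℂ} (hd : DifferentiableOn ℂ h D)
    {X0 : ℝ} (hX : ∀ v : ℂ, |v.im| ≤ η * v.re → X0 ≤ v.re → v ∈ D ∧ h v = HH w q b v)
    {x : ℝ} (hxD : (x : ℂ) ∈ D) (hx1 : b * t1 < x) (hxb : x < b) (hwx : ContinuousAt w x) :
    m * w x = 0 := by
  have hη := L.hη
  have ht1 := L.ht1
  have hx0 : 0 < x := lt_trans (by positivity) hx1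
  have hB0 : 0 ≤ B := (norm_nonneg _).trans (hB 0 ⟨le_rfl, zero_le_one⟩)
  set y1 : ℝ := x / 2 with hy1
  have hy10 : 0 < y1 := by positivity
  have hy1x : y1 < x := by rw [hy1]; linarith
  -- the two families of points
  set xs : ℝ → ℝ → ℂ := fun s c => (x : ℂ) + ((s * c⁻¹ : ℝ) : ℂ) * Complex.I with hxs
  have hre : ∀ s c, (xs s c).re = x := by intro s c; simp [hxs]
  have him : ∀ s c, (xs s c).im = s * c⁻¹ := by intro s c; simp [hxs]
  have htend : ∀ s, Tendsto (xs s) atTop (𝓝 (x : ℂ)) := by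
    intro s
    have h1 : Tendsto (fun c : ℝ => ((s * c⁻¹ : ℝ) : ℂ)) atTop (𝓝 ((0 : ℝ) : ℂ)) := by
      refine (Complex.continuous_ofReal.tendsto 0).comp ?_
      have := tendsto_inv_atTop_zero (𝕜 := ℝ) |>.const_mul s
      rwa [mul_zero] at this
    have h2 := (h1.mul_const Complex.I).const_add (x : ℂ)
    rw [Complex.ofReal_zero, zero_mul, add_zero] at h2
    exact h2
  have hsmall : ∀ s : ℝ, |s| = 1 → ∀ᶠ c : ℝ in atTop, |s * c⁻¹| < η * x := by
    intro s hs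
    have h1 : Tendsto (fun c : ℝ => |s * c⁻¹|) atTop (𝓝 |s * 0|) :=
      ((tendsto_inv_atTop_zero (𝕜 := ℝ)).const_mul s).abs
    rw [mul_zero, abs_zero] at h1
    exact h1.eventually (gt_mem_nhds (by positivity))
  -- first part: far from the pole
  set K1 : Set ℂ := TT t1 η ∩ {v | 3 / 2 ≤ v.re} with hK1
  obtain ⟨C1, hC10, hC1⟩ := L.bound (K := K1) ((isClosed_TT _ _).inter
    (isClosed_le continuous_const Complex.continuous_re)) inter_subset_left (by
      rintro ⟨-, h⟩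
      have : (3 : ℝ) / 2 ≤ (1 : ℂ).re := h
      rw [Complex.one_re] at this
      norm_num at this)
  have hq1 : ∀ v ∈ K1, ContinuousAt q v := by
    rintro v ⟨h1, h2⟩
    refine (L.hq v h1 ?_).continuousAt
    rintro rfl
    have : (3 : ℝ) / 2 ≤ (1 : ℂ).re := h2
    rw [Complex.one_re] at this
    norm_num at this
  have hmem1 : ∀ v : ℂ, v.re = x → |v.im| ≤ η * x → ∀ y ∈ Ioc 0 y1, v / (y : ℂ) ∈ K1 := by
    intro v hv1 hv2 y hy
    have hyb : y ∈ Ioo 0 b := ⟨hy.1, by linarith [hy.2]⟩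
    refine ⟨mem_TT (by rw [hv1]; exact hx1.le) ht1 (by rw [hv1]; exact hv2) hyb, ?_⟩
    show (3 : ℝ) / 2 ≤ (v / (y : ℂ)).re
    rw [Complex.div_ofReal_re, hv1, le_div_iff₀ hy.1]
    have := hy.2
    rw [hy1] at this
    linarith
  have hbd1 : ∀ v : ℂ, v.re = x → |v.im| ≤ η * x → ∀ y ∈ Ioc 0 y1,
      ‖-(w y * ((y : ℂ) ^ 2)⁻¹ * q (v / y))‖ ≤ B * C1 / x ^ 2 := by
    intro v hv1 hv2 y hy
    have hyb : y ∈ Ioo 0 b := ⟨hy.1, by linarith [hy.2]⟩
    exact kernel_bound hB hb1 hC10 hx0 (le_of_eq hv1.symm) hyb (hC1 _ (hmem1 v hv1 hv2 y hy))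
  -- second part
  set K2 : Set ℂ := TT t1 η ∩ {v | v.re ≤ 2} with hK2
  have hK2c : IsCompact K2 := by
    refine Metric.isCompact_of_isClosed_isBounded ((isClosed_TT _ _).inter
      (isClosed_le Complex.continuous_re continuous_const)) ?_
    rw [isBounded_iff_forall_norm_le]
    refine ⟨2 + η * 2, fun v hv => ?_⟩
    have h2 := hv.1
    have h3 : v.re ≤ 2 := hv.2
    have h5 : 0 < v.re := lt_of_lt_of_le ht1 h2.1
    refine (Complex.norm_le_abs_re_add_abs_im v).trans ?_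
    rw [abs_of_pos h5]
    have h7 : η * v.re ≤ η * 2 := mul_le_mul_of_nonneg_left (by linarith) hη.le
    have := h2.2
    linarith
  obtain ⟨C2, hC2⟩ := hK2c.exists_bound_of_continuousOn (f := r) fun v hv =>
    (L.hr v hv.1).continuousAt.continuousWithinAt
  have hr2 : ∀ v ∈ K2, ContinuousAt r v := fun v hv => (L.hr v hv.1).continuousAt
  have hmem2 : ∀ v : ℂ, v.re = x → |v.im| ≤ η * x → ∀ y ∈ Ioo y1 b, v / (y : ℂ) ∈ K2 := by
    intro v hv1 hv2 y hy
    have hy0 : 0 < y := hy10.trans hy.1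
    have hyb : y ∈ Ioo 0 b := ⟨hy0, hy.2⟩
    refine ⟨mem_TT (by rw [hv1]; exact hx1.le) ht1 (by rw [hv1]; exact hv2) hyb, ?_⟩
    show (v / (y : ℂ)).re ≤ 2
    rw [Complex.div_ofReal_re, hv1, div_le_iff₀ hy0]
    have := hy.1
    rw [hy1] at this
    linarith
  have hbd2 : ∀ v : ℂ, v.re = x → |v.im| ≤ η * x → ∀ y ∈ Ioo y1 b,
      ‖-(w y * ((y : ℂ) ^ 2)⁻¹ * r (v / y))‖ ≤ B * (y1 ^ 2)⁻¹ * |C2| := by
    intro v hv1 hv2 y hy
    have hy0 : 0 < y := hy10.trans hy.1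
    have h1 := hB y ⟨hy0.le, hy.2.le.trans hb1⟩
    have h2 := (hC2 _ (hmem2 v hv1 hv2 y hy)).trans (le_abs_self C2)
    have h3 := hy.1.le
    rw [norm_neg, norm_mul, norm_mul, norm_inv, norm_pow, Complex.norm_real,
      Real.norm_of_nonneg hy0.le]
    gcongr
  have hi3g : ∀ v : ℂ, v.im ≠ 0 →
      IntegrableOn (fun y : ℝ => m * ((w y / y) * (1 / (v - y)))) (Ioo y1 b) := by
    intro v hv3
    have hvy : ∀ y : ℝ, |v.im| ≤ ‖v - y‖ := by
      intro y
      have := Complex.abs_im_le_norm (v - y)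
      simpa using this
    have : IsFiniteMeasure (volume.restrict (Ioo y1 b)) :=
      ⟨by rw [Measure.restrict_apply_univ]; simp⟩
    refine Integrable.mono' (integrable_const (‖m‖ * ((B / y1) * (1 / |v.im|)))) ?_ ?_
    · have : Measurable fun y : ℝ => m * ((w y / y) * (1 / (v - y))) := by fun_prop
      exact this.aestronglyMeasurable
    · filter_upwards [ae_restrict_mem measurableSet_Ioo] with y hy
      have hy0 : 0 < y := hy10.trans hy.1
      have h1 := hB y ⟨hy0.le, hy.2.le.trans hb1⟩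
      have h3 := hy.1.le
      have h4 := hvy y
      have h5 : 0 < |v.im| := abs_pos.2 hv3
      rw [norm_mul, norm_mul, norm_div, norm_div, norm_one, Complex.norm_real,
        Real.norm_of_nonneg hy0.le]
      gcongr
  -- the decomposition
  have hdec : ∀ v : ℂ, v.re = x → |v.im| ≤ η * x → v.im ≠ 0 →
      HH w q b v = (∫ y in Ioc 0 y1, -(w y * ((y : ℂ) ^ 2)⁻¹ * q (v / y))) +
        ((∫ y in Ioo y1 b, -(w y * ((y : ℂ) ^ 2)⁻¹ * r (v / y))) +
          ∫ y in Ioo y1 b, m * ((w y / y) * (1 / (v - y)))) := by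
    intro v hv1 hv2 hv3
    have hi1 : IntegrableOn (fun y : ℝ => -(w y * ((y : ℂ) ^ 2)⁻¹ * q (v / y))) (Ioc 0 y1) :=
      int_gen measurableSet_Ioc (fun y hy => hy.1) (by simp) hq1 hwm (hmem1 v hv1 hv2)
        (hbd1 v hv1 hv2)
    have hi2 : IntegrableOn (fun y : ℝ => -(w y * ((y : ℂ) ^ 2)⁻¹ * r (v / y))) (Ioo y1 b) :=
      int_gen measurableSet_Ioo (fun y hy => hy10.trans hy.1) (by simp) hr2 hwm (hmem2 v hv1 hv2)
        (hbd2 v hv1 hv2)
    have hi3 := hi3g v hv3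
    have hpt : ∀ y ∈ Ioo y1 b, -(w y * ((y : ℂ) ^ 2)⁻¹ * q (v / y)) =
        -(w y * ((y : ℂ) ^ 2)⁻¹ * r (v / y)) + m * ((w y / y) * (1 / (v - y))) := by
      intro y hy
      have hy0 : 0 < y := hy10.trans hy.1
      have hyc : (y : ℂ) ≠ 0 := by exact_mod_cast hy0.ne'
      have hvyne : v - y ≠ 0 := by
        intro h
        apply hv3
        have := congrArg Complex.im h
        simpa using this
      have hne : v / (y : ℂ) ≠ 1 := by
        intro h
        rw [div_eq_one_iff_eq hyc] at h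
        exact hvyne (sub_eq_zero.2 h)
      rw [L.hqr _ (hmem2 v hv1 hv2 y hy).1 hne]
      have e1 : m / (v / (y : ℂ) - 1) = m * y / (v - y) := by
        have : v / (y : ℂ) - 1 = (v - y) / y := by field_simp
        rw [this]
        field_simp
      rw [e1]
      field_simp
      ring
    have hun : Ioo (0 : ℝ) b = Ioc 0 y1 ∪ Ioo y1 b := by
      rw [Ioc_union_Ioo_eq_Ioo hy10.le (by linarith)]
    have hdis : Disjoint (Ioc (0 : ℝ) y1) (Ioo y1 b) := by
      rw [Set.disjoint_left]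
      intro y h1 h2
      linarith [h1.2, h2.1]
    have hi4 : IntegrableOn (fun y : ℝ => -(w y * ((y : ℂ) ^ 2)⁻¹ * q (v / y))) (Ioo y1 b) :=
      (hi2.add hi3).congr_fun (fun y hy => (hpt y hy).symm) measurableSet_Ioo
    unfold HH
    rw [hun, setIntegral_union hdis measurableSet_Ioo hi1 hi4]
    congr 1
    rw [← integral_add hi2 hi3]
    exact setIntegral_congr_fun measurableSet_Ioo hpt
  have hev : ∀ s : ℝ, |s| = 1 → ∀ᶠ c : ℝ in atTop, xs s c ∈ US b t1 η s ∩ D ∧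
      |(xs s c).im| ≤ η * x ∧ (xs s c).im ≠ 0 := by
    intro s hs
    have hs2 : s * s = 1 := by
      have := congrArg (fun t => t * t) hs
      simpa using this
    have hs0 : s ≠ 0 := by
      rintro rfl
      simp at hs
    filter_upwards [hsmall s hs, eventually_gt_atTop (0 : ℝ),
      (htend s).eventually (hDo.mem_nhds hxD)] with c h1 h2 h3
    have e1 : s * (xs s c).im = c⁻¹ := by
      rw [him, ← mul_assoc, hs2, one_mul]
    have e2 : |s * c⁻¹| = c⁻¹ := by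
      rw [abs_mul, hs, one_mul, abs_of_pos (inv_pos.2 h2)]
    refine ⟨⟨⟨?_, ?_, ?_⟩, h3⟩, ?_, ?_⟩
    · rw [hre]; exact hx1
    · rw [e1]; exact inv_pos.2 h2
    · rw [e1, hre, ← e2]; exact h1
    · rw [him]; exact h1.le
    · rw [him]
      exact mul_ne_zero hs0 (inv_ne_zero h2.ne')
  -- limits
  have hT1 : ∀ s : ℝ, |s| = 1 → Tendsto (fun c : ℝ => ∫ y in Ioc 0 y1,
      -(w y * ((y : ℂ) ^ 2)⁻¹ * q (xs s c / y))) atTop
      (𝓝 (∫ y in Ioc 0 y1, -(w y * ((y : ℂ) ^ 2)⁻¹ * q ((x : ℂ) / y)))) := by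
    intro s hs
    refine tend_gen measurableSet_Ioc (fun y hy => hy.1) (by simp) hq1 hwm (htend s) ?_
      (hmem1 x (by simp) (by simp; positivity)) (E := B * C1 / x ^ 2) ?_
    · filter_upwards [hev s hs] with c hc
      exact hmem1 _ (hre s c) hc.2.1
    · filter_upwards [hev s hs] with c hc
      exact hbd1 _ (hre s c) hc.2.1
  have hT2 : ∀ s : ℝ, |s| = 1 → Tendsto (fun c : ℝ => ∫ y in Ioo y1 b,
      -(w y * ((y : ℂ) ^ 2)⁻¹ * r (xs s c / y))) atTop
      (𝓝 (∫ y in Ioo y1 b, -(w y * ((y : ℂ) ^ 2)⁻¹ * r ((x : ℂ) / y)))) := by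
    intro s hs
    refine tend_gen measurableSet_Ioo (fun y hy => hy10.trans hy.1) (by simp) hr2 hwm (htend s) ?_
      (hmem2 x (by simp) (by simp; positivity)) (E := B * (y1 ^ 2)⁻¹ * |C2|) ?_
    · filter_upwards [hev s hs] with c hc
      exact hmem2 _ (hre s c) hc.2.1
    · filter_upwards [hev s hs] with c hc
      exact hbd2 _ (hre s c) hc.2.1
  have hTh : ∀ s : ℝ, |s| = 1 → Tendsto (fun c : ℝ => HH w q b (xs s c)) atTop (𝓝 (h x)) := by
    intro s hs
    have h1 : Tendsto (fun c => h (xs s c)) atTop (𝓝 (h x)) :=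
      ((hd.differentiableAt (hDo.mem_nhds hxD)).continuousAt.tendsto).comp (htend s)
    refine h1.congr' ?_
    filter_upwards [hev s hs] with c hc
    exact L.eq_on hwm hB hb0 hb1 hs hDo hDc hd hX _ hc.1
  have hP := pole_part (w := w) (B := B) (b := b) hwm hB hy10 hb1 hy1x hxb hwx
  have h1a : |(1 : ℝ)| = 1 := abs_one
  have h1b : |(-1 : ℝ)| = 1 := by simp
  have hpole : ∀ s : ℝ, |s| = 1 → ∀ᶠ c : ℝ in atTop, ∫ y in Ioo y1 b, m * ((w y / y) *
      (1 / (xs s c - y))) = HH w q b (xs s c) - (∫ y in Ioc 0 y1,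
      -(w y * ((y : ℂ) ^ 2)⁻¹ * q (xs s c / y))) - ∫ y in Ioo y1 b,
      -(w y * ((y : ℂ) ^ 2)⁻¹ * r (xs s c / y)) := by
    intro s hs
    filter_upwards [hev s hs] with c hc
    rw [hdec _ (hre s c) hc.2.1 hc.2.2]
    ring
  have hL1 := ((hTh 1 h1a).sub (hT1 1 h1a)).sub (hT2 1 h1a)
  have hL2 := ((hTh (-1) h1b).sub (hT1 (-1) h1b)).sub (hT2 (-1) h1b)
  have hL := hL1.sub hL2
  rw [sub_self] at hL
  have hR := hP.const_mul m
  have hcmp : (fun c : ℝ => m * ∫ y in Ioo y1 b, (w y / y) *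
      (1 / (((x : ℂ) + (c⁻¹ : ℝ) * Complex.I) - y) -
      1 / (((x : ℂ) - (c⁻¹ : ℝ) * Complex.I) - y))) =ᶠ[atTop] fun c =>
      (HH w q b (xs 1 c) - (∫ y in Ioc 0 y1, -(w y * ((y : ℂ) ^ 2)⁻¹ * q (xs 1 c / y))) -
        ∫ y in Ioo y1 b, -(w y * ((y : ℂ) ^ 2)⁻¹ * r (xs 1 c / y))) -
      (HH w q b (xs (-1) c) - (∫ y in Ioc 0 y1, -(w y * ((y : ℂ) ^ 2)⁻¹ * q (xs (-1) c / y))) -
        ∫ y in Ioo y1 b, -(w y * ((y : ℂ) ^ 2)⁻¹ * r (xs (-1) c / y))) := by
    filter_upwards [hpole 1 h1a, hpole (-1) h1b, hev 1 h1a, hev (-1) h1b] with c h1 h2 h3 h4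
    rw [← h1, ← h2, ← integral_sub (hi3g _ h3.2.2) (hi3g _ h4.2.2), ← integral_const_mul]
    refine setIntegral_congr_fun measurableSet_Ioo fun y hy => ?_
    have e1 : xs 1 c = (x : ℂ) + (c⁻¹ : ℝ) * Complex.I := by
      simp [hxs]
    have e2 : xs (-1) c = (x : ℂ) - (c⁻¹ : ℝ) * Complex.I := by
      simp only [hxs]
      push_cast
      ring
    rw [e1, e2]
    ring
  have h0 := tendsto_nhds_unique (hR.congr' hcmp) hL
  have hpi : (Real.pi : ℂ) ≠ 0 := by exact_mod_cast Real.pi_ne_zero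
  have hxc : (x : ℂ) ≠ 0 := by exact_mod_cast hx0.ne'
  have h5 : m * w x = (m * (-(2 * Real.pi * Complex.I) * (w x / x))) *
      (-(x : ℂ) / (2 * Real.pi * Complex.I)) := by
    field_simp
  rw [h5, h0, zero_mul]

end Pool.Agent.L0h3.WB
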