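import Pool.Agent.L0h3.WB.Meas

/-! Landau's theorem and nonnegative weights: preparations. -/

set_option autoImplicit false

namespace Pool.Agent.L0h3.WB

open MeasureTheory Filter Topology Set Classical
open Pool.Agent.W263.BSD (LInt lap lapC landau dens dens_pos mem_integrableExpSet_dens mgf_dens
  lapC_ofReal lapC_differentiableAt)

/-- Landau's theorem for Laplace integrals of nonnegative functions -/
theorem landau_lap {k : ℝ → ℝ} (hk : Measurable k) (h0 : ∀ u, 0 < u → 0 ≤ k u) {s0 : ℝ}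
    {K : ℂ → ℂ} (hK : ∀ᶠ z in 𝓝 (s0 : ℂ), DifferentiableAt ℂ K z) (hint : ∀ σ > s0, LInt k σ)
    (heq : ∀ᶠ σ : ℝ in 𝓝[>] s0, (lap k σ : ℂ) = K σ) : ∃ σ < s0, LInt k σ := by
  have hga : AnalyticAt ℂ (fun z : ℂ => K (-z)) ((-s0 : ℝ) : ℂ) := by
    have h1 : AnalyticAt ℂ K (-((-s0 : ℝ) : ℂ)) := by
      have : -((-s0 : ℝ) : ℂ) = (s0 : ℂ) := by push_cast; ring
      rw [this]
      exact Complex.analyticAt_iff_eventually_differentiableAt.mpr hK
    exact h1.comp analyticAt_id.neg
  have hgr : AnalyticAt ℝ (fun t : ℝ => (K (-(t : ℂ))).re) (-s0) := hga.re_ofReal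
  obtain ⟨t, hts, ht⟩ := landau (X := id) (μ := dens k) (dens_pos k hk) hgr
    (fun t ht => (mem_integrableExpSet_dens hk h0 t).mpr (hint (-t) (by linarith))) (by
      have h1 : Tendsto (fun t : ℝ => -t) (𝓝[<] (-s0)) (𝓝[>] s0) := by
        have := tendsto_neg_nhdsLT_neg (a := s0)
        exact this
      filter_upwards [h1.eventually heq] with t ht
      rw [mgf_dens hk h0]
      have h2 : (lap k (-t) : ℂ) = K (-(t : ℂ)) := by
        rw [ht]
        push_cast
        rfl
      rw [← h2, Complex.ofReal_re])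
  exact ⟨-t, by linarith, (mem_integrableExpSet_dens hk h0 t).mp ht⟩

variable {c : ℕ → ℝ} {Φ G : ℂ → ℂ} {w : ℝ → ℂ} {ω : ℝ → ℝ} {B b : ℝ}

/-- the weighted sums for a real weight -/
noncomputable def gR (c : ℕ → ℝ) (ω : ℝ → ℝ) (T : ℝ) : ℝ :=
  ∑' p : ℕ, if Real.log p ≤ T then c p * ω (Real.log p / T) else 0

theorem gR_cast (c : ℕ → ℝ) (ω : ℝ → ℝ) (T : ℝ) : (gR c ω T : ℂ) = gT c (fun y => (ω y : ℂ)) T := by
  unfold gR gT
  rw [Complex.ofReal_tsum]
  refine tsum_congr fun p => ?_
  split_ifs <;> push_cast <;> rfl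

theorem gR_meas (hω : Measurable ω) : Measurable (gR c ω) := by
  have h1 : Measurable (gT c fun y => (ω y : ℂ)) := gT_meas (Complex.measurable_ofReal.comp hω)
  have h2 : gR c ω = fun T => (gT c (fun y => (ω y : ℂ)) T).re := by
    funext T
    rw [← gR_cast, Complex.ofReal_re]
  rw [h2]
  exact Complex.measurable_re.comp h1

theorem LT_eq_lapC (c : ℕ → ℝ) (ω : ℝ → ℝ) (z : ℂ) :
    LT c (fun y => (ω y : ℂ)) z = lapC (gR c ω) z := by
  unfold LT lapC
  refine setIntegral_congr_fun measurableSet_Ioi fun T _ => ?_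
  show gT c (fun y => (ω y : ℂ)) T * Complex.exp (-(z * T)) = _
  rw [gR_cast]

theorem gR_LInt (hc : Co c) (hω : Measurable ω) (hB : ∀ y ∈ Icc (0 : ℝ) 1, ‖(ω y : ℂ)‖ ≤ B)
    {σ : ℝ} (hσ : 1 < σ) : LInt (gR c ω) σ := by
  unfold LInt
  have h1 := (exp_int (by linarith : 0 < σ - 1) 0).1
  have h2 := (exp_int (by linarith : 0 < σ) 0).1
  refine Integrable.mono' ((h1.const_mul B).add (h2.const_mul B))
    (((gR_meas hω).mul (by fun_prop)).aestronglyMeasurable) ?_
  filter_upwards [ae_restrict_mem measurableSet_Ioi] with T hT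
  have h3 := gT_trivial hc hB T
  rw [← gR_cast, Complex.norm_real] at h3
  rw [norm_mul, Real.norm_of_nonneg (Real.exp_pos _).le]
  show _ ≤ B * Real.exp (-((σ - 1) * T)) + B * Real.exp (-(σ * T))
  calc ‖gR c ω T‖ * Real.exp (-(σ * T)) ≤ B * (Real.exp T + 1) * Real.exp (-(σ * T)) := by gcongr
    _ = B * (Real.exp T * Real.exp (-(σ * T))) + B * Real.exp (-(σ * T)) := by ring
    _ = _ := by
      rw [← Real.exp_add]
      congr 3
      ring

/-- holomorphic dependence of the convolution over a set `S` -/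
theorem diff_gen {S : Set ℝ} (hS : MeasurableSet S) (hS0 : ∀ y ∈ S, 0 < y)
    (hSf : volume S < ⊤) {φ : ℂ → ℂ} {K : Set ℂ} (hφ : ∀ v ∈ K, DifferentiableAt ℂ φ v)
    (hwm : Measurable w) {x : ℂ} {ρ : ℝ} (hρ : 0 < ρ)
    (hK : ∀ v ∈ Metric.ball x ρ, ∀ y ∈ S, v / (y : ℂ) ∈ K) {E : ℝ}
    (hE : ∀ v ∈ Metric.ball x ρ, ∀ y ∈ S, ‖-(w y * ((y : ℂ) ^ 2)⁻¹ * φ (v / y))‖ ≤ E) :
    DifferentiableAt ℂ (fun v : ℂ => ∫ y in S, -(w y * ((y : ℂ) ^ 2)⁻¹ * φ (v / y))) x := by
  have : IsFiniteMeasure (volume.restrict S) := ⟨by rwa [Measure.restrict_apply_univ]⟩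
  refine Pool.Agent.Helper380.B3.differentiableAt_integral hρ (bound := fun _ => E) ?_ ?_ ?_
    (integrable_const _)
  · filter_upwards [ae_restrict_mem hS] with y hy
    intro v hv
    have h3 : DifferentiableAt ℂ (fun v : ℂ => φ (v / (y : ℂ))) v :=
      DifferentiableAt.comp (g := φ) (f := fun v : ℂ => v / (y : ℂ)) v (hφ _ (hK v hv y hy))
        (by fun_prop)
    exact ((h3.const_mul _).fun_neg).differentiableWithinAt
  · intro v hv
    exact meas_gen hS hS0 hwm fun y hy => (hφ _ (hK v hv y hy)).continuousAt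
  · filter_upwards [ae_restrict_mem hS] with y hy
    intro v hv
    exact hE v hv y hy

/-- Laplace transform of a superposition of exponentials -/
theorem lap_super {y1 : ℝ} {β : ℝ} (hβ : 0 < β) {f : ℝ → ℝ} (hf : Measurable f) {M : ℝ}
    (hM : ∀ y ∈ Ioo y1 b, ‖f y‖ ≤ M) {σ : ℝ} (hσ : β * b < σ) :
    LInt (fun T => ∫ y in Ioo y1 b, f y * Real.exp (β * y * T)) σ ∧
    lap (fun T => ∫ y in Ioo y1 b, f y * Real.exp (β * y * T)) σ =
      ∫ y in Ioo y1 b, f y * (1 / (σ - β * y)) := by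
  have hfin : IsFiniteMeasure (volume.restrict (Ioo y1 b)) :=
    ⟨by rw [Measure.restrict_apply_univ]; simp⟩
  set κ : ℝ := σ - β * b with hκ
  have hκ0 : 0 < κ := by linarith
  -- integrability on the product
  have hint : Integrable (fun p : ℝ × ℝ => f p.2 * Real.exp (β * p.2 * p.1) *
      Real.exp (-(σ * p.1))) ((volume.restrict (Ioi (0 : ℝ))).prod (volume.restrict (Ioo y1 b))) := by
    have h1 : Integrable (fun p : ℝ × ℝ => Real.exp (-(κ * p.1)) * M)
        ((volume.restrict (Ioi (0 : ℝ))).prod (volume.restrict (Ioo y1 b))) :=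
      Integrable.mul_prod (f := fun T : ℝ => Real.exp (-(κ * T))) (g := fun _ : ℝ => M)
        (exp_int hκ0 0).1 (integrable_const M)
    refine h1.mono' ?_ ?_
    · have : Measurable fun p : ℝ × ℝ => f p.2 * Real.exp (β * p.2 * p.1) *
          Real.exp (-(σ * p.1)) := by
        have h2 : Measurable fun p : ℝ × ℝ => f p.2 := hf.comp measurable_snd
        fun_prop
      exact this.aestronglyMeasurable
    · rw [Measure.prod_restrict]
      filter_upwards [ae_restrict_mem (measurableSet_Ioi.prod measurableSet_Ioo)] with p hp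
      obtain ⟨h2, h3⟩ := hp
      have hT : 0 < p.1 := h2
      rw [norm_mul, norm_mul, Real.norm_of_nonneg (Real.exp_pos _).le,
        Real.norm_of_nonneg (Real.exp_pos _).le, mul_assoc, ← Real.exp_add, mul_comm]
      refine mul_le_mul (Real.exp_le_exp.2 ?_) (hM _ h3) (norm_nonneg _) (Real.exp_pos _).le
      have h4 : β * p.2 * p.1 ≤ β * b * p.1 := by
        have := h3.2.le
        gcongr
      rw [hκ]
      linarith
  have hinner : ∀ T : ℝ, (∫ y in Ioo y1 b, f y * Real.exp (β * y * T)) * Real.exp (-(σ * T)) =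
      ∫ y in Ioo y1 b, f y * Real.exp (β * y * T) * Real.exp (-(σ * T)) := by
    intro T
    rw [integral_mul_const]
  constructor
  · unfold LInt
    have h5 := hint.integral_prod_left
    refine IntegrableOn.congr_fun h5 (fun T _ => ?_) measurableSet_Ioi
    exact (hinner T).symm
  · unfold lap
    simp only [hinner]
    rw [integral_integral_swap hint]
    refine setIntegral_congr_fun measurableSet_Ioo fun y hy => ?_
    have h6 : 0 < σ - β * y := by
      have : β * y < β * b := by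
        have := hy.2
        gcongr
      linarith
    have h7 : ∀ T : ℝ, f y * Real.exp (β * y * T) * Real.exp (-(σ * T)) =
        f y * Real.exp (-((σ - β * y) * T)) := by
      intro T
      rw [mul_assoc, ← Real.exp_add]
      congr 2
      ring
    simp only [h7]
    rw [integral_const_mul, (exp_int h6 0).2, mul_zero, neg_zero, Real.exp_zero]

end Pool.Agent.L0h3.WB
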