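import Pool.Agent.L0h3.WB.Ser

/-! The Laplace transform of a weighted sum over the primes. -/

set_option autoImplicit false

namespace Pool.Agent.L0h3.WB

open MeasureTheory Filter Topology Set Classical

variable {c : ℕ → ℝ} {w : ℝ → ℂ} {B : ℝ}

/-- `∑_{log p ≤ T} c_p w(log p / T)` -/
noncomputable def gT (c : ℕ → ℝ) (w : ℝ → ℂ) (T : ℝ) : ℂ :=
  ∑' p : ℕ, if Real.log p ≤ T then (c p : ℂ) * w (Real.log p / T) else 0

/-- change of variables `T = L / y` -/
theorem subst_integral {E : Type*} [NormedAddCommGroup E] [NormedSpace ℝ E] {L : ℝ} (hL : 0 < L)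
    (G : ℝ → E) :
    (∫ T in Ioi L, G T = ∫ y in Ioo (0 : ℝ) 1, (L / y ^ 2) • G (L / y)) ∧
    (IntegrableOn G (Ioi L) ↔ IntegrableOn (fun y => (L / y ^ 2) • G (L / y)) (Ioo (0 : ℝ) 1)) := by
  have himg : (fun y : ℝ => L / y) '' Ioo (0 : ℝ) 1 = Ioi L := by
    ext T
    simp only [mem_image, mem_Ioo, mem_Ioi]
    constructor
    · rintro ⟨y, ⟨h1, h2⟩, rfl⟩
      rw [lt_div_iff₀ h1]
      nlinarith
    · intro h
      have hT : 0 < T := hL.trans h
      refine ⟨L / T, ⟨by positivity, (div_lt_one hT).2 h⟩, ?_⟩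
      field_simp
  have hder : ∀ y ∈ Ioo (0 : ℝ) 1, HasDerivWithinAt (fun y : ℝ => L / y) (-(L / y ^ 2)) (Ioo 0 1) y := by
    intro y hy
    have h1 : HasDerivAt (fun y : ℝ => L / y) (-(L / y ^ 2)) y := by
      have h2 := (hasDerivAt_inv hy.1.ne').const_mul L
      refine (h2.congr_deriv (by ring)).congr_of_eventuallyEq ?_
      exact Eventually.of_forall fun y => div_eq_mul_inv _ _
    exact h1.hasDerivWithinAt
  have hinj : InjOn (fun y : ℝ => L / y) (Ioo (0 : ℝ) 1) := by
    intro y hy y' hy' h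
    have h1 : L / y = L / y' := h
    rw [div_eq_div_iff hy.1.ne' hy'.1.ne'] at h1
    exact (mul_left_cancel₀ hL.ne' h1).symm
  have habs : ∀ y ∈ Ioo (0 : ℝ) 1, |-(L / y ^ 2)| = L / y ^ 2 := by
    intro y hy
    rw [abs_neg, abs_of_nonneg]
    have := hy.1
    positivity
  constructor
  · rw [← himg, integral_image_eq_integral_abs_deriv_smul measurableSet_Ioo hder hinj]
    refine setIntegral_congr_fun measurableSet_Ioo fun y hy => ?_
    show |-(L / y ^ 2)| • G (L / y) = _
    rw [habs y hy]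
  · rw [← himg, integrableOn_image_iff_integrableOn_abs_deriv_smul measurableSet_Ioo hder hinj]
    refine integrableOn_congr_fun (fun y hy => ?_) measurableSet_Ioo
    show |-(L / y ^ 2)| • G (L / y) = _
    rw [habs y hy]

/-- the terms -/
noncomputable def Gp (c : ℕ → ℝ) (w : ℝ → ℂ) (z : ℂ) (p : ℕ) (T : ℝ) : ℂ :=
  (c p : ℂ) * w (Real.log p / T) * Complex.exp (-(z * T))

theorem Gp_bound (hc : Co c) (hw : ∀ y ∈ Icc (0 : ℝ) 1, ‖w y‖ ≤ B) (z : ℂ) (p : ℕ) {T : ℝ}
    (hT : Real.log p ≤ T) : ‖Gp c w z p T‖ ≤ B * Real.exp (-(z.re * T)) := by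
  have hB : 0 ≤ B := (norm_nonneg _).trans (hw 0 ⟨le_rfl, zero_le_one⟩)
  have hl : 0 ≤ Real.log p := Real.log_natCast_nonneg p
  have h1 : Real.log p / T ∈ Icc (0 : ℝ) 1 := ⟨div_nonneg hl (hl.trans hT),
    div_le_one_of_le₀ hT (hl.trans hT)⟩
  unfold Gp
  rw [norm_mul, norm_mul, Complex.norm_real, Real.norm_eq_abs, Complex.norm_exp, Complex.neg_re,
    Complex.re_mul_ofReal]
  calc |c p| * ‖w (Real.log p / T)‖ * Real.exp (-(z.re * T)) ≤ 1 * B * Real.exp (-(z.re * T)) := by
        have := hc.le_one p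
        have := hw _ h1
        gcongr
    _ = _ := by ring

theorem Gp_meas (hwm : Measurable w) (z : ℂ) (p : ℕ) : Measurable (Gp c w z p) := by
  unfold Gp
  have : Measurable fun T : ℝ => w (Real.log p / T) := hwm.comp (by fun_prop)
  fun_prop

theorem exp_int {σ : ℝ} (hσ : 0 < σ) (L : ℝ) : IntegrableOn (fun T : ℝ => Real.exp (-(σ * T))) (Ioi L) ∧
    ∫ T in Ioi L, Real.exp (-(σ * T)) = Real.exp (-(σ * L)) / σ := by
  have h1 := integrableOn_exp_mul_Ioi (a := -σ) (by linarith) L
  have h2 := integral_exp_mul_Ioi (a := -σ) (by linarith) L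
  simp only [neg_mul] at h1 h2
  refine ⟨h1, h2.trans ?_⟩
  rw [neg_div_neg_eq]

theorem Gp_int (hc : Co c) (hwm : Measurable w) (hw : ∀ y ∈ Icc (0 : ℝ) 1, ‖w y‖ ≤ B) {z : ℂ}
    (hz : 0 < z.re) (p : ℕ) : IntegrableOn (Gp c w z p) (Ioi (Real.log p)) ∧
    ∫ T in Ioi (Real.log p), ‖Gp c w z p T‖ ≤ B * (Real.exp (-(z.re * Real.log p)) / z.re) := by
  obtain ⟨h1, h2⟩ := exp_int hz (Real.log p)
  have h3 : ∀ᵐ T ∂(volume.restrict (Ioi (Real.log p))), ‖Gp c w z p T‖ ≤
      B * Real.exp (-(z.re * T)) := by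
    filter_upwards [ae_restrict_mem measurableSet_Ioi] with T hT
    exact Gp_bound hc hw z p (le_of_lt hT)
  have h4 : IntegrableOn (Gp c w z p) (Ioi (Real.log p)) :=
    Integrable.mono' (h1.const_mul B) (Gp_meas hwm z p).aestronglyMeasurable h3
  refine ⟨h4, ?_⟩
  rw [← h2, ← integral_const_mul]
  exact integral_mono_ae h4.norm (h1.const_mul B) h3

theorem sum_bound (hc : Co c) (hwm : Measurable w) (hw : ∀ y ∈ Icc (0 : ℝ) 1, ‖w y‖ ≤ B) {z : ℂ}
    (hz : 1 < z.re) : Summable fun p : ℕ => ∫ T in Ioi (Real.log p), ‖Gp c w z p T‖ := by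
  have hB : 0 ≤ B := (norm_nonneg _).trans (hw 0 ⟨le_rfl, zero_le_one⟩)
  have h1 : Summable fun p : ℕ => (B / z.re) * (p : ℝ) ^ (-z.re) :=
    (Real.summable_nat_rpow.mpr (by linarith : -z.re < -1)).mul_left _
  refine Summable.of_nonneg_of_le (fun p => integral_nonneg fun T => norm_nonneg _) (fun p => ?_) h1
  by_cases h0 : c p = 0
  · have : ∀ T, ‖Gp c w z p T‖ = 0 := by
      intro T
      unfold Gp
      rw [h0]
      simp
    simp only [this, integral_zero]
    have : (0 : ℝ) < z.re := by linarith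
    positivity
  · have hp := hc.big p h0
    refine (Gp_int hc hwm hw (by linarith : 0 < z.re) p).2.trans (le_of_eq ?_)
    rw [exp_log_eq (by omega)]
    ring

/-- **The Laplace transform of the weighted sums.** -/
theorem laplace_eq (hc : Co c) (hwm : Measurable w) (hw : ∀ y ∈ Icc (0 : ℝ) 1, ‖w y‖ ≤ B) {z : ℂ}
    (hz : 1 < z.re) :
    ∫ T in Ioi (0 : ℝ), gT c w T * Complex.exp (-(z * T)) =
      ∫ y in Ioo (0 : ℝ) 1, -(w y * ((y : ℂ) ^ 2)⁻¹ * f1 c (z / y)) := by
  have hz0 : 0 < z.re := by linarith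
  -- left side
  have hl : ∀ p : ℕ, IntegrableOn (fun T : ℝ => (if Real.log p ≤ T then (c p : ℂ) *
      w (Real.log p / T) else 0) * Complex.exp (-(z * T))) (Ioi 0) ∧
      (∫ T in Ioi (0 : ℝ), (if Real.log p ≤ T then (c p : ℂ) * w (Real.log p / T) else 0) *
        Complex.exp (-(z * T)) = ∫ T in Ioi (Real.log p), Gp c w z p T) ∧
      (∫ T in Ioi (0 : ℝ), ‖(if Real.log p ≤ T then (c p : ℂ) * w (Real.log p / T) else 0) *
        Complex.exp (-(z * T))‖ = ∫ T in Ioi (Real.log p), ‖Gp c w z p T‖) := by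
    intro p
    by_cases h0 : c p = 0
    · have e1 : (fun T : ℝ => (if Real.log p ≤ T then (c p : ℂ) *
          w (Real.log p / T) else 0) * Complex.exp (-(z * T))) = fun _ => 0 := by
        funext T
        rw [h0]
        simp
      have e2 : Gp c w z p = fun _ => 0 := by
        funext T
        unfold Gp
        rw [h0]
        simp
      refine ⟨by rw [e1]; exact integrableOn_zero, ?_, ?_⟩
      · rw [e1, e2]
        simp
      · have e3 : (fun T : ℝ => ‖(if Real.log p ≤ T then (c p : ℂ) *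
            w (Real.log p / T) else 0) * Complex.exp (-(z * T))‖) = fun _ => 0 := by
          funext T
          rw [h0]
          simp
        rw [e3, e2]
        simp
    · have hp := hc.big p h0
      have hL : 0 < Real.log p := Real.log_pos (by exact_mod_cast (show 1 < p by omega))
      have e1 : (fun T : ℝ => (if Real.log p ≤ T then (c p : ℂ) *
          w (Real.log p / T) else 0) * Complex.exp (-(z * T))) =
          (Ici (Real.log p)).indicator (Gp c w z p) := by
        funext T
        unfold Gp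
        by_cases h : Real.log p ≤ T
        · rw [indicator_of_mem (show T ∈ Ici (Real.log p) from h), if_pos h]
        · rw [indicator_of_notMem (show T ∉ Ici (Real.log p) from h), if_neg h, zero_mul]
      have hsub : Ici (Real.log p) ⊆ Ioi (0 : ℝ) := fun x hx => lt_of_lt_of_le hL hx
      have e2 : ∀ {E : Type} [NormedAddCommGroup E] [NormedSpace ℝ E] (g : ℝ → E),
          ∫ T in Ioi (0 : ℝ), (Ici (Real.log p)).indicator g T = ∫ T in Ioi (Real.log p), g T := by
        intro E _ _ g
        rw [setIntegral_indicator measurableSet_Ici, inter_eq_right.2 hsub,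
          integral_Ici_eq_integral_Ioi]
      refine ⟨?_, ?_, ?_⟩
      · rw [e1, IntegrableOn, integrable_indicator_iff measurableSet_Ici, IntegrableOn,
          Measure.restrict_restrict measurableSet_Ici, inter_eq_left.2 hsub, ← IntegrableOn,
          integrableOn_Ici_iff_integrableOn_Ioi]
        exact (Gp_int hc hwm hw hz0 p).1
      · rw [e1, e2]
      · have e3 : (fun T : ℝ => ‖(if Real.log p ≤ T then (c p : ℂ) *
            w (Real.log p / T) else 0) * Complex.exp (-(z * T))‖) =
            (Ici (Real.log p)).indicator (fun T => ‖Gp c w z p T‖) := by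
          funext T
          rw [congrFun e1 T, norm_indicator_eq_indicator_norm]
        rw [e3, e2]
  have hs := sum_bound hc hwm hw hz
  have h1 := hasSum_integral_of_summable_integral_norm (μ := volume.restrict (Ioi (0 : ℝ)))
    (fun p => (hl p).1) (by simp only [fun p => (hl p).2.2]; exact hs)
  simp only [fun p => (hl p).2.1] at h1
  have e1 : (fun T : ℝ => ∑' p : ℕ, (if Real.log p ≤ T then (c p : ℂ) * w (Real.log p / T) else 0) *
      Complex.exp (-(z * T))) = fun T => gT c w T * Complex.exp (-(z * T)) := by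
    funext T
    rw [tsum_mul_right]
    rfl
  rw [e1] at h1
  -- right side
  have hr : ∀ p : ℕ, IntegrableOn (fun y : ℝ => (Real.log p / y ^ 2) • Gp c w z p (Real.log p / y))
      (Ioo 0 1) ∧
      (∫ y in Ioo (0 : ℝ) 1, (Real.log p / y ^ 2) • Gp c w z p (Real.log p / y) =
        ∫ T in Ioi (Real.log p), Gp c w z p T) ∧
      (∫ y in Ioo (0 : ℝ) 1, ‖(Real.log p / y ^ 2) • Gp c w z p (Real.log p / y)‖ =
        ∫ T in Ioi (Real.log p), ‖Gp c w z p T‖) := by
    intro p
    by_cases h0 : c p = 0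
    · have e2 : ∀ T, Gp c w z p T = 0 := by
        intro T
        unfold Gp
        rw [h0]
        simp
      simp [e2]
    · have hp := hc.big p h0
      have hL : 0 < Real.log p := Real.log_pos (by exact_mod_cast (show 1 < p by omega))
      obtain ⟨h2, h3⟩ := subst_integral hL (Gp c w z p)
      obtain ⟨h4, -⟩ := subst_integral hL (fun T => ‖Gp c w z p T‖)
      refine ⟨h3.1 (Gp_int hc hwm hw hz0 p).1, h2.symm, ?_⟩
      rw [h4]
      refine setIntegral_congr_fun measurableSet_Ioo fun y hy => ?_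
      show ‖(Real.log p / y ^ 2) • Gp c w z p (Real.log p / y)‖ = _
      rw [norm_smul, Real.norm_of_nonneg (by positivity), smul_eq_mul]
  have h2 := hasSum_integral_of_summable_integral_norm (μ := volume.restrict (Ioo (0 : ℝ) 1))
    (fun p => (hr p).1) (by simp only [fun p => (hr p).2.2]; exact hs)
  simp only [fun p => (hr p).2.1] at h2
  rw [h1.unique h2]
  refine setIntegral_congr_fun measurableSet_Ioo fun y hy => ?_
  have hy0 : 0 < y := hy.1
  have hzy : 1 < (z / y).re := by
    have : (z / y).re = z.re / y := by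
      rw [Complex.div_ofReal_re]
    rw [this, lt_div_iff₀ hy0]
    nlinarith [hy.2]
  have h3 := ((hc.f1_hasSum hzy).1.mul_left (-(w y * ((y : ℂ) ^ 2)⁻¹))).tsum_eq
  rw [neg_mul] at h3
  rw [← h3]
  refine tsum_congr fun p => ?_
  by_cases h0 : c p = 0
  · unfold Gp
    rw [h0]
    simp
  · have hp := hc.big p h0
    have hL : 0 < Real.log p := Real.log_pos (by exact_mod_cast (show 1 < p by omega))
    unfold Gp
    have e3 : Real.log p / (Real.log p / y) = y := by field_simp
    have e4 : -(z * ((Real.log p / y : ℝ) : ℂ)) = -(z / y * Real.log p) := by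
      push_cast
      ring
    rw [e3, e4, Complex.real_smul]
    push_cast
    have : (y : ℂ) ≠ 0 := by exact_mod_cast hy0.ne'
    field_simp

end Pool.Agent.L0h3.WB
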