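import Pool.Agent.L0h3.WB.Fin

/-! Reduction of measurable weights to continuous ones by averaging. -/

set_option autoImplicit false

namespace Pool.Agent.L0h3.WB

open MeasureTheory Filter Topology Set Classical

variable {c : ℕ → ℝ} {Φ G : ℂ → ℂ} {w : ℝ → ℂ} {B b : ℝ}

/-- the averaged weight `∫_{1-h}^1 w(y/s) 1_{y ≤ s} ds` -/
noncomputable def av (w : ℝ → ℂ) (h y : ℝ) : ℂ :=
  ∫ s in Ioo (1 - h) 1, if y ≤ s then w (y / s) else 0

theorem av_meas (hwm : Measurable w) (h : ℝ) : Measurable (av w h) := by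
  have h1 : Measurable fun p : ℝ × ℝ => if p.1 ≤ p.2 then w (p.1 / p.2) else 0 :=
    Measurable.ite (measurableSet_le measurable_fst measurable_snd) (hwm.comp (by fun_prop))
      measurable_const
  exact (h1.stronglyMeasurable.integral_prod_right (ν := volume.restrict (Ioo (1 - h) 1))).measurable

theorem av_bound (hB : ∀ y ∈ Icc (0 : ℝ) 1, ‖w y‖ ≤ B) {h : ℝ} (h0 : 0 < h) (h1 : h < 1) {y : ℝ}
    (hy : y ∈ Icc (0 : ℝ) 1) : ‖av w h y‖ ≤ B := by
  have hB0 : 0 ≤ B := (norm_nonneg _).trans (hB 0 ⟨le_rfl, zero_le_one⟩)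
  unfold av
  have h2 : ‖∫ s in Ioo (1 - h) 1, if y ≤ s then w (y / s) else 0‖ ≤ ∫ _s in Ioo (1 - h) 1, B := by
    refine norm_integral_le_of_norm_le (integrable_const B) ?_
    filter_upwards [ae_restrict_mem measurableSet_Ioo] with s hs
    have hs0 : 0 < s := by linarith [hs.1]
    split_ifs with h3
    · exact hB _ ⟨div_nonneg hy.1 hs0.le, (div_le_one hs0).2 h3⟩
    · simpa using hB0
  refine h2.trans ?_
  rw [setIntegral_const, Measure.real, Real.volume_Ioo, smul_eq_mul]
  have : (ENNReal.ofReal (1 - (1 - h))).toReal = h := by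
    rw [ENNReal.toReal_ofReal (by linarith)]; ring
  rw [this]
  nlinarith

/-- the averaged weight as a difference of primitives -/
theorem av_eq {h : ℝ} (h1 : h < 1) {κ y : ℝ} (hκ : 0 < κ) (hy : κ < y) :
    av w h y = y * ∫ t in Ioo y (y / (1 - h)), if κ < t ∧ t ≤ 1 then w t / (t : ℂ) ^ 2 else 0 := by
  have hy0 : 0 < y := hκ.trans hy
  have h1' : 0 < 1 - h := by linarith
  have himg : (fun t : ℝ => y / t) '' Ioo y (y / (1 - h)) = Ioo (1 - h) 1 := by
    ext s
    simp only [mem_image, mem_Ioo]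
    constructor
    · rintro ⟨t, ⟨h2, h3⟩, rfl⟩
      have ht : 0 < t := hy0.trans h2
      constructor
      · rw [lt_div_iff₀ h1'] at h3
        rw [lt_div_iff₀ ht]
        linarith
      · rwa [div_lt_one ht]
    · rintro ⟨h2, h3⟩
      have hs : 0 < s := h1'.trans h2
      refine ⟨y / s, ⟨?_, ?_⟩, ?_⟩
      · rw [lt_div_iff₀ hs]
        nlinarith
      · gcongr
      · field_simp
  have hder : ∀ t ∈ Ioo y (y / (1 - h)), HasDerivWithinAt (fun t : ℝ => y / t) (-(y / t ^ 2))
      (Ioo y (y / (1 - h))) t := by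
    intro t ht
    have ht0 : t ≠ 0 := (hy0.trans ht.1).ne'
    have h2 := (hasDerivAt_inv ht0).const_mul y
    refine HasDerivAt.hasDerivWithinAt ((h2.congr_deriv (by ring)).congr_of_eventuallyEq ?_)
    exact Eventually.of_forall fun t => div_eq_mul_inv _ _
  have hinj : InjOn (fun t : ℝ => y / t) (Ioo y (y / (1 - h))) := by
    intro t ht t' ht' h
    have ht0 : 0 < t := hy0.trans ht.1
    have ht0' : 0 < t' := hy0.trans ht'.1
    have h1 : y / t = y / t' := h
    rw [div_eq_div_iff ht0.ne' ht0'.ne'] at h1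
    exact (mul_left_cancel₀ hy0.ne' h1).symm
  unfold av
  rw [← himg, integral_image_eq_integral_abs_deriv_smul measurableSet_Ioo hder hinj,
    ← integral_const_mul]
  refine setIntegral_congr_fun measurableSet_Ioo fun t ht => ?_
  have ht0 : 0 < t := hy0.trans ht.1
  have hκt : κ < t := hy.trans ht.1
  show |-(y / t ^ 2)| • (if y ≤ y / t then w (y / (y / t)) else 0) = _
  have e1 : y / (y / t) = t := by field_simp
  have e2 : (y ≤ y / t) ↔ t ≤ 1 := by
    rw [le_div_iff₀ ht0]
    constructor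
    · intro h
      nlinarith
    · intro h
      nlinarith
  rw [e1, abs_neg, abs_of_pos (by positivity), Complex.real_smul]
  by_cases h3 : t ≤ 1
  · rw [if_pos (e2.2 h3), if_pos ⟨hκt, h3⟩]
    push_cast
    ring
  · rw [if_neg (fun h => h3 (e2.1 h)), if_neg (fun h => h3 h.2)]
    ring

theorem ut_meas (hwm : Measurable w) (κ : ℝ) :
    Measurable fun t : ℝ => if κ < t ∧ t ≤ 1 then w t / (t : ℂ) ^ 2 else 0 :=
  Measurable.ite (measurableSet_Ioi.inter measurableSet_Iic) (by fun_prop) measurable_const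

theorem ut_int (hwm : Measurable w) (hB : ∀ y ∈ Icc (0 : ℝ) 1, ‖w y‖ ≤ B) {κ : ℝ} (hκ : 0 < κ) :
    Integrable fun t : ℝ => if κ < t ∧ t ≤ 1 then w t / (t : ℂ) ^ 2 else 0 := by
  have hB0 : 0 ≤ B := (norm_nonneg _).trans (hB 0 ⟨le_rfl, zero_le_one⟩)
  have h1 : Integrable ((Ioc κ 1).indicator fun _ : ℝ => B / κ ^ 2) := by
    rw [integrable_indicator_iff measurableSet_Ioc]
    exact integrable_const _
  refine h1.mono' (ut_meas hwm κ).aestronglyMeasurable (Eventually.of_forall fun t => ?_)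
  by_cases h : κ < t ∧ t ≤ 1
  · have ht0 : 0 < t := hκ.trans h.1
    rw [if_pos h, indicator_of_mem (show t ∈ Ioc κ 1 from h), norm_div, norm_pow, Complex.norm_real,
      Real.norm_of_nonneg ht0.le]
    have := hB t ⟨ht0.le, h.2⟩
    have := h.1.le
    gcongr
  · rw [if_neg h, indicator_of_notMem (show t ∉ Ioc κ 1 from h), norm_zero]

theorem av_cont (hwm : Measurable w) (hB : ∀ y ∈ Icc (0 : ℝ) 1, ‖w y‖ ≤ B) {h : ℝ} (h0 : 0 < h)
    (h1 : h < 1) {y1 : ℝ} (hy1 : 0 < y1) : ContinuousAt (av w h) y1 := by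
  set κ : ℝ := y1 / 2 with hκ
  have hκ0 : 0 < κ := by positivity
  set u : ℝ → ℂ := fun t => if κ < t ∧ t ≤ 1 then w t / (t : ℂ) ^ 2 else 0 with hu
  have hui : Integrable u := ut_int hwm hB hκ0
  have hV : Continuous fun t : ℝ => ∫ x in κ..t, u x :=
    intervalIntegral.continuous_primitive (fun a b => hui.intervalIntegrable) κ
  have h2 : av w h =ᶠ[𝓝 y1] fun y => y * ((∫ x in κ..(y / (1 - h)), u x) - ∫ x in κ..y, u x) := by
    filter_upwards [lt_mem_nhds (show κ < y1 by rw [hκ]; linarith)] with y hy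
    have hy0 : 0 < y := hκ0.trans hy
    have h1' : 0 < 1 - h := by linarith
    have hle : y ≤ y / (1 - h) := by
      rw [le_div_iff₀ h1']
      nlinarith
    rw [av_eq h1 hκ0 hy, intervalIntegral.integral_interval_sub_left hui.intervalIntegrable
      hui.intervalIntegrable, intervalIntegral.integral_of_le hle, integral_Ioc_eq_integral_Ioo]
  refine ContinuousAt.congr ?_ h2.symm
  have h3 : Continuous fun y : ℝ => (y : ℂ) * ((∫ x in κ..(y / (1 - h)), u x) - ∫ x in κ..y, u x) :=
    Complex.continuous_ofReal.mul ((hV.comp (by fun_prop)).sub hV)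
  exact h3.continuousAt

/-- some averaged weight does not vanish -/
theorem av_ne (hwm : Measurable w) (hB : ∀ y ∈ Icc (0 : ℝ) 1, ‖w y‖ ≤ B) {y0 : ℝ}
    (hy0 : y0 ∈ Ioo (0 : ℝ) 1) (hne : ¬ ∀ᵐ y ∂(volume.restrict (Ioo y0 1)), w y = 0) :
    ∃ h y : ℝ, 0 < h ∧ h < 1 ∧ y ∈ Ioo y0 1 ∧ av w h y ≠ 0 := by
  by_contra hcon
  push Not at hcon
  apply hne
  have hκ0 : 0 < y0 / 2 := by have := hy0.1; positivity
  set κ : ℝ := y0 / 2 with hκ
  set u : ℝ → ℂ := fun t => if κ < t ∧ t ≤ 1 then w t / (t : ℂ) ^ 2 else 0 with hu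
  have hui : Integrable u := ut_int hwm hB hκ0
  -- the primitive is constant on `(y0, 1)`
  have hconst : ∀ y ∈ Ioo y0 1, ∀ z ∈ Ioo y0 1, y < z → ∫ x in κ..z, u x = ∫ x in κ..y, u x := by
    intro y hy z hz hyz
    have hyp : 0 < y := hy0.1.trans hy.1
    have hzp : 0 < z := hy0.1.trans hz.1
    have h1 : y / z < 1 := (div_lt_one hzp).2 hyz
    have h1' : 0 < y / z := by positivity
    have h2 := hcon (1 - y / z) y (by linarith) (by linarith) hy
    have hκy : κ < y := by rw [hκ]; linarith [hy.1, hy0.1]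
    rw [av_eq (by linarith) hκ0 hκy] at h2
    have h3 : y / (1 - (1 - y / z)) = z := by
      rw [sub_sub_cancel, div_div_cancel₀ hyp.ne']
    rw [h3] at h2
    have h4 : ∫ t in Ioo y z, u t = 0 := by
      rcases mul_eq_zero.1 h2 with h5 | h5
      · exact absurd (by exact_mod_cast h5) hyp.ne'
      · exact h5
    rw [← integral_Ioc_eq_integral_Ioo, ← intervalIntegral.integral_of_le hyz.le,
      ← intervalIntegral.integral_interval_sub_left hui.intervalIntegrable
      hui.intervalIntegrable (a := κ)] at h4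
    exact sub_eq_zero.1 h4
  have hae := LocallyIntegrable.ae_hasDerivAt_integral hui.locallyIntegrable
  rw [ae_restrict_iff' measurableSet_Ioo]
  filter_upwards [hae] with y hy hy1
  have h1 := hy κ
  have h2 : (fun x => ∫ t in κ..x, u t) =ᶠ[𝓝 y] fun _ => ∫ t in κ..y, u t := by
    filter_upwards [Ioo_mem_nhds hy1.1 hy1.2] with z hz
    rcases lt_trichotomy y z with h | h | h
    · exact hconst y hy1 z hz h
    · rw [h]
    · exact (hconst z hz y hy1 h).symm
  have h3 : HasDerivAt (fun x => ∫ t in κ..x, u t) 0 y :=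
    (hasDerivAt_const y _).congr_of_eventuallyEq h2
  have h4 := h1.unique h3
  have hyp : 0 < y := hy0.1.trans hy1.1
  have hκy : κ < y := by rw [hκ]; linarith [hy1.1, hy0.1]
  rw [hu] at h4
  simp only [if_pos (⟨hκy, hy1.2.le⟩ : κ < y ∧ y ≤ 1)] at h4
  rcases div_eq_zero_iff.1 h4 with h5 | h5
  · exact h5
  · exfalso
    have : (y : ℂ) ≠ 0 := by exact_mod_cast hyp.ne'
    exact (pow_ne_zero 2 this) h5

/-- the sum as a finite sum over any large range -/
theorem gT_fin {T : ℝ} {N : ℕ} (hN : Real.exp T < N) :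
    gT c w T = ∑ p ∈ Finset.range N, if Real.log p ≤ T then (c p : ℂ) * w (Real.log p / T) else 0 := by
  unfold gT
  refine tsum_eq_sum fun p hp => ?_
  rw [Finset.mem_range, not_lt] at hp
  have h1 : Real.exp T < p := hN.trans_le (by exact_mod_cast hp)
  have hp0 : (0 : ℝ) < p := (Real.exp_pos T).trans h1
  rw [if_neg]
  rw [not_le]
  exact (Real.lt_log_iff_exp_lt hp0).2 h1

theorem gT_av (hwm : Measurable w) (hB : ∀ y ∈ Icc (0 : ℝ) 1, ‖w y‖ ≤ B) {h : ℝ} (h0 : 0 < h)
    (h1 : h < 1) {T : ℝ} (hT : 0 < T) :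
    gT c (av w h) T = ∫ s in Ioo (1 - h) 1, gT c w (s * T) := by
  obtain ⟨N, hN⟩ := exists_nat_gt (Real.exp T)
  have h2 : ∀ s ∈ Ioo (1 - h) 1, gT c w (s * T) = ∑ p ∈ Finset.range N,
      if Real.log p ≤ s * T then (c p : ℂ) * w (Real.log p / (s * T)) else 0 := by
    intro s hs
    refine gT_fin (lt_of_le_of_lt (Real.exp_le_exp.2 ?_) hN)
    nlinarith [hs.2]
  rw [gT_fin hN, setIntegral_congr_fun measurableSet_Ioo h2, integral_finsetSum]
  · refine Finset.sum_congr rfl fun p _ => ?_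
    have h3 : ∀ s ∈ Ioo (1 - h) 1, (if Real.log p ≤ s * T then
        (c p : ℂ) * w (Real.log p / (s * T)) else 0) =
        (c p : ℂ) * (if Real.log p / T ≤ s then w (Real.log p / T / s) else 0) := by
      intro s hs
      have hs0 : 0 < s := by linarith [hs.1]
      have e1 : Real.log p / (s * T) = Real.log p / T / s := by
        rw [div_div, mul_comm T s]
      have e2 : Real.log p ≤ s * T ↔ Real.log p / T ≤ s := by
        rw [div_le_iff₀ hT]
      rw [e1]
      by_cases h4 : Real.log p / T ≤ s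
      · rw [if_pos h4, if_pos (e2.2 h4)]
      · rw [if_neg h4, if_neg (fun h => h4 (e2.1 h)), mul_zero]
    rw [setIntegral_congr_fun measurableSet_Ioo h3, integral_const_mul]
    by_cases h4 : Real.log p ≤ T
    · rw [if_pos h4]
      rfl
    · rw [if_neg h4]
      push Not at h4
      have h5 : ∫ s in Ioo (1 - h) 1, (if Real.log p / T ≤ s then w (Real.log p / T / s) else 0) = 0 := by
        refine setIntegral_eq_zero_of_forall_eq_zero fun s hs => ?_
        rw [if_neg]
        rw [not_le]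
        exact hs.2.trans ((one_lt_div hT).2 h4)
      rw [h5, mul_zero]
  · intro p _
    have hB0 : 0 ≤ B := (norm_nonneg _).trans (hB 0 ⟨le_rfl, zero_le_one⟩)
    refine Integrable.mono' (g := fun _ => |c p| * B) (integrable_const _) ?_ ?_
    · refine Measurable.aestronglyMeasurable (Measurable.ite ?_ ?_ measurable_const)
      · exact measurableSet_le measurable_const (by fun_prop)
      · exact (hwm.comp (by fun_prop : Measurable fun s : ℝ => Real.log p / (s * T))).const_mul _
    · filter_upwards [ae_restrict_mem measurableSet_Ioo] with s hs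
      have hs0 : 0 < s := by linarith [hs.1]
      split_ifs with h3
      · rw [norm_mul, Complex.norm_real, Real.norm_eq_abs]
        refine mul_le_mul_of_nonneg_left (hB _ ⟨?_, ?_⟩) (abs_nonneg _)
        · have := Real.log_natCast_nonneg p
          positivity
        · exact div_le_one_of_le₀ h3 (by positivity)
      · rw [norm_zero]
        positivity

/-- **Zeros are bounded by the growth, for measurable weights.** -/
theorem Eul.no_zero_meas (E : Eul c Φ G) (hwm : Measurable w) (hB : ∀ y ∈ Icc (0 : ℝ) 1, ‖w y‖ ≤ B)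
    {δ C : ℝ} (hδ : 0 ≤ δ)
    (hC : 0 ≤ C) (hg : ∀ T : ℝ, 0 < T → ‖gT c w T‖ ≤ C * Real.exp (δ * T)) {y0 : ℝ}
    (hy0 : y0 ∈ Ioo (0 : ℝ) 1) (hne : ¬ ∀ᵐ y ∂(volume.restrict (Ioo y0 1)), w y = 0) {z1 : ℂ}
    (hz1 : δ / y0 < z1.re) : Φ z1 ≠ 0 := by
  obtain ⟨h, y, h0, h1, hy, hav⟩ := av_ne hwm hB hy0 hne
  have hyp : 0 < y := hy0.1.trans hy.1
  refine E.no_zero (w := av w h) (B := B) (av_meas hwm h) (fun y hy => av_bound hB h0 h1 hy)
    ?_ hδ (C := C) hC (fun T hT => ?_) (y0 := y) ⟨hyp, hy.2⟩ (av_cont hwm hB h0 h1 hyp) hav ?_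
  · filter_upwards [ae_restrict_mem measurableSet_Ioo] with t ht
    exact av_cont hwm hB h0 h1 ht.1
  · rw [gT_av hwm hB h0 h1 hT]
    have h2 : ‖∫ s in Ioo (1 - h) 1, gT c w (s * T)‖ ≤ ∫ _s in Ioo (1 - h) 1, C * Real.exp (δ * T) := by
      refine norm_integral_le_of_norm_le (integrable_const _) ?_
      filter_upwards [ae_restrict_mem measurableSet_Ioo] with s hs
      have hs0 : 0 < s := by linarith [hs.1]
      refine (hg (s * T) (by positivity)).trans ?_
      gcongr
      nlinarith [hs.2]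
    refine h2.trans ?_
    rw [setIntegral_const, Measure.real, Real.volume_Ioo, smul_eq_mul]
    have : (ENNReal.ofReal (1 - (1 - h))).toReal = h := by
      rw [ENNReal.toReal_ofReal (by linarith)]; ring
    rw [this]
    have h3 : 0 ≤ C * Real.exp (δ * T) := by positivity
    nlinarith
  · refine lt_of_le_of_lt ?_ hz1
    have := hy.1.le
    have := hy0.1
    gcongr

end Pool.Agent.L0h3.WB
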