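import Pool.Agent.L0h3.WB.Zero

/-! Growth of the weighted sums bounds the zeros. -/

set_option autoImplicit false

namespace Pool.Agent.L0h3.WB

open MeasureTheory Filter Topology Set Classical

variable {c : ℕ → ℝ} {Φ G : ℂ → ℂ} {w : ℝ → ℂ} {B b : ℝ}

/-- the effective end of the support -/
theorem exists_end (hc : ∀ᵐ y ∂(volume.restrict (Ioo (0 : ℝ) 1)), ContinuousAt w y) {y0 : ℝ}
    (hy0 : y0 ∈ Ioo (0 : ℝ) 1) (hwc : ContinuousAt w y0) (hw0 : w y0 ≠ 0) :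
    ∃ b : ℝ, y0 ≤ b ∧ b ≤ 1 ∧ (∀ᵐ y ∂(volume.restrict (Ioo b 1)), w y = 0) ∧
      ∀ b' < b, ∃ x : ℝ, b' < x ∧ x < b ∧ 0 < x ∧ ContinuousAt w x ∧ w x ≠ 0 := by
  set P : Set ℝ := {y | y ∈ Ioo (0 : ℝ) 1 ∧ ContinuousAt w y ∧ w y ≠ 0} with hP
  have hne : P.Nonempty := ⟨y0, hy0, hwc, hw0⟩
  have hba : BddAbove P := ⟨1, fun y hy => hy.1.2.le⟩
  set b := sSup P with hb
  have hy0b : y0 ≤ b := le_csSup hba ⟨hy0, hwc, hw0⟩
  have hb1 : b ≤ 1 := csSup_le hne fun y hy => hy.1.2.le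
  have hb0 : 0 < b := hy0.1.trans_le hy0b
  have hnot : b ∉ P := by
    rintro ⟨h1, h2, h3⟩
    have h4 : ∀ᶠ y in 𝓝 b, w y ≠ 0 := h2.eventually_ne h3
    obtain ⟨ε, hε, h5⟩ := Metric.eventually_nhds_iff.1 h4
    set b2 : ℝ := min (b + ε) 1 with hb2
    have hbb2 : b < b2 := lt_min (by linarith) h1.2
    have h6 : ∀ᵐ y ∂(volume.restrict (Ioo b b2)), ContinuousAt w y := by
      refine ae_restrict_of_ae_restrict_of_subset (fun y hy => ?_) hc
      exact ⟨hb0.trans hy.1, hy.2.trans_le (min_le_right _ _)⟩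
    have h7 : (volume.restrict (Ioo b b2)) ≠ 0 := by
      rw [Ne, Measure.restrict_eq_zero, Real.volume_Ioo, ENNReal.ofReal_eq_zero]
      linarith
    have : NeZero (volume.restrict (Ioo b b2)) := ⟨h7⟩
    have h8 := (h6.and (ae_restrict_mem measurableSet_Ioo)).exists
    obtain ⟨y, hy1, hy2⟩ := h8
    have h9 : y ∈ P := by
      refine ⟨⟨hb0.trans hy2.1, hy2.2.trans_le (min_le_right _ _)⟩, hy1, h5 ?_⟩
      rw [Real.dist_eq, abs_of_pos (by linarith [hy2.1])]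
      have := hy2.2.trans_le (min_le_left (b + ε) 1)
      linarith
    have := le_csSup hba h9
    linarith [hy2.1]
  refine ⟨b, hy0b, hb1, ?_, fun b' hb' => ?_⟩
  · have h6 : ∀ᵐ y ∂(volume.restrict (Ioo b 1)), ContinuousAt w y := by
      refine ae_restrict_of_ae_restrict_of_subset (fun y hy => ?_) hc
      exact ⟨hb0.trans hy.1, hy.2⟩
    filter_upwards [h6, ae_restrict_mem measurableSet_Ioo] with y h1 h2
    by_contra h3
    have h9 : y ∈ P := ⟨⟨hb0.trans h2.1, h2.2⟩, h1, h3⟩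
    have := le_csSup hba h9
    linarith [h2.1]
  · obtain ⟨x, hx, hx2⟩ := exists_lt_of_lt_csSup hne hb'
    have h1 : x ≤ b := le_csSup hba hx
    have h2 : x ≠ b := fun h => hnot (h ▸ hx)
    exact ⟨x, hx2, lt_of_le_of_ne h1 h2, hx.1.1, hx.2.1, hx.2.2⟩

/-- the convolution sees only the support -/
theorem HH_eq {q : ℂ → ℂ} (hb1 : b ≤ 1)
    (hwb : ∀ᵐ y ∂(volume.restrict (Ioo b 1)), w y = 0) (x : ℂ) :
    ∫ y in Ioo (0 : ℝ) 1, -(w y * ((y : ℂ) ^ 2)⁻¹ * q (x / y)) = HH w q b x := by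
  unfold HH
  refine setIntegral_eq_of_subset_of_ae_sdiff_eq_zero measurableSet_Ioo.nullMeasurableSet
    (Ioo_subset_Ioo_right hb1) ?_
  have h1 : ∀ᵐ y ∂(volume : Measure ℝ), y ∈ Ioo b 1 → w y = 0 :=
    (ae_restrict_iff' measurableSet_Ioo).1 hwb
  have h2 : ∀ᵐ y ∂(volume : Measure ℝ), y ≠ b := by
    rw [ae_iff]
    simp
  filter_upwards [h1, h2] with y h3 h4 h5
  have h6 : y ∈ Ioo b 1 := by
    obtain ⟨⟨h7, h8⟩, h9⟩ := h5
    refine ⟨?_, h8⟩
    by_contra h10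
    push Not at h10
    exact h9 ⟨h7, lt_of_le_of_ne h10 h4⟩
  rw [h3 h6]
  ring

/-- **Zeros are bounded by the abscissa of holomorphy of the Laplace transform.** -/
theorem Eul.no_zero' (E : Eul c Φ G) (hwm : Measurable w) (hB : ∀ y ∈ Icc (0 : ℝ) 1, ‖w y‖ ≤ B)
    (hc : ∀ᵐ y ∂(volume.restrict (Ioo (0 : ℝ) 1)), ContinuousAt w y) {δ : ℝ} (hδ : 0 ≤ δ)
    (hLT : ∀ z : ℂ, δ < z.re → DifferentiableAt ℂ (LT c w) z) {y0 : ℝ}
    (hy0 : y0 ∈ Ioo (0 : ℝ) 1) (hwc : ContinuousAt w y0) (hw0 : w y0 ≠ 0) {z1 : ℂ}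
    (hz1 : δ / y0 < z1.re) : Φ z1 ≠ 0 := by
  intro hzero
  have hy00 : 0 < y0 := hy0.1
  have hz1p : 0 < z1.re := lt_of_le_of_lt (by positivity) hz1
  obtain ⟨z0, hz01, hz0, hlast, -⟩ := E.last hz1p hzero
  have hz0p : 0 < z0.re := by linarith
  obtain ⟨r, n, t1, η, M, V, ht1, hn, hη1, L, -⟩ := E.loc hz0p hz0 hlast
  have hm : (n : ℂ) / z0 ≠ 0 := by
    refine div_ne_zero (by exact_mod_cast hn) ?_
    rintro rfl
    simp at hz0p
  obtain ⟨b, hyb, hb1, hwb, hsup⟩ := exists_end hc hy0 hwc hw0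
  have hb0 : 0 < b := hy00.trans_le hyb
  have hbd : δ / z0.re < b := by
    rw [div_lt_iff₀ hy00] at hz1
    rw [div_lt_iff₀ hz0p]
    calc δ < z1.re * y0 := hz1
      _ ≤ z0.re * b := by gcongr
      _ = b * z0.re := by ring
  obtain ⟨x, hx1, hxb, hx0, hxc, hxw⟩ := hsup (max (b * t1) (δ / z0.re))
    (max_lt (by nlinarith) hbd)
  have hxt : b * t1 < x := lt_of_le_of_lt (le_max_left _ _) hx1
  have hxδ : δ < (z0 * x).re := by
    have := lt_of_le_of_lt (le_max_right _ _) hx1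
    rw [div_lt_iff₀ hz0p] at this
    rw [Complex.re_mul_ofReal]
    linarith
  set D : Set ℂ := {v | δ < (z0 * v).re} with hD
  have hDo : IsOpen D := isOpen_lt continuous_const (by fun_prop)
  have hDc : Convex ℝ D := by
    intro u hu v hv s t hs ht hst
    have hu' : δ < (z0 * u).re := hu
    have hv' : δ < (z0 * v).re := hv
    have e1 : (z0 * (s • u + t • v)).re = s * (z0 * u).re + t * (z0 * v).re := by
      rw [mul_add, Complex.add_re, mul_smul_comm, mul_smul_comm, Complex.smul_re, Complex.smul_re,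
        smul_eq_mul, smul_eq_mul]
    show δ < (z0 * (s • u + t • v)).re
    rw [e1]
    have e2 : δ = s * δ + t * δ := by rw [← add_mul, hst, one_mul]
    rcases hs.lt_or_eq with hs' | hs'
    · have := mul_lt_mul_of_pos_left hu' hs'
      have := mul_le_mul_of_nonneg_left hv'.le ht
      linarith
    · rw [← hs'] at hst ⊢
      rw [zero_add] at hst
      rw [hst]
      linarith
  have hd : DifferentiableOn ℂ (fun v => LT c w (z0 * v)) D := by
    intro v hv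
    refine DifferentiableAt.differentiableWithinAt ?_
    exact DifferentiableAt.comp (g := LT c w) (f := fun v : ℂ => z0 * v) v
      (hLT _ hv) (by fun_prop)
  have hηp := L.hη
  have hX : ∀ v : ℂ, |v.im| ≤ η * v.re → (δ + 2) / (z0.re / 2) ≤ v.re →
      v ∈ D ∧ LT c w (z0 * v) = HH w (fun v => Qf Φ G (z0 * v)) b v := by
    intro v hv1 hv2
    have hv0 : 0 ≤ v.re := le_trans (by positivity) hv2
    have h1 := sector_re hη1 hv0 hv1
    have h2 : δ + 2 ≤ z0.re / 2 * v.re := by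
      rw [div_le_iff₀ (by positivity)] at hv2
      linarith
    refine ⟨show δ < (z0 * v).re by linarith, ?_⟩
    rw [← HH_eq hb1 hwb]
    unfold LT
    rw [laplace_eq E.co hwm hB (by linarith : 1 < (z0 * v).re)]
    refine setIntegral_congr_fun measurableSet_Ioo fun y hy => ?_
    have h3 : 1 < (z0 * v / y).re := by
      rw [Complex.div_ofReal_re, lt_div_iff₀ hy.1]
      nlinarith [hy.2]
    have h4 : z0 * (v / y) = z0 * v / y := by ring
    show -(w y * ((y : ℂ) ^ 2)⁻¹ * f1 c (z0 * v / y)) =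
      -(w y * ((y : ℂ) ^ 2)⁻¹ * Qf Φ G (z0 * (v / y)))
    rw [h4, E.Qf_eq h3]
  have key := L.jump hwm hB hb0 hb1 hDo hDc hd hX hxδ hxt hxb hxc
  rcases mul_eq_zero.1 key with h | h
  · exact hm h
  · exact hxw h

/-- **Zeros are bounded by the growth of the weighted sums.** -/
theorem Eul.no_zero (E : Eul c Φ G) (hwm : Measurable w) (hB : ∀ y ∈ Icc (0 : ℝ) 1, ‖w y‖ ≤ B)
    (hc : ∀ᵐ y ∂(volume.restrict (Ioo (0 : ℝ) 1)), ContinuousAt w y) {δ C : ℝ} (hδ : 0 ≤ δ)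
    (hC : 0 ≤ C) (hg : ∀ T : ℝ, 0 < T → ‖gT c w T‖ ≤ C * Real.exp (δ * T)) {y0 : ℝ}
    (hy0 : y0 ∈ Ioo (0 : ℝ) 1) (hwc : ContinuousAt w y0) (hw0 : w y0 ≠ 0) {z1 : ℂ}
    (hz1 : δ / y0 < z1.re) : Φ z1 ≠ 0 :=
  E.no_zero' hwm hB hc hδ (fun _ hz => LT_diff E.co hwm hC hg hz) hy0 hwc hw0 hz1

end Pool.Agent.L0h3.WB
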