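import Pool.Agent.L0h3.WB.Abel

/-! The order of vanishing from the behaviour of the Laplace transform at `0`. -/

set_option autoImplicit false

namespace Pool.Agent.L0h3.WB

open MeasureTheory Filter Topology Set Classical

variable {c : ℕ → ℝ} {Φ G : ℂ → ℂ} {w : ℝ → ℂ} {B b : ℝ}

/-- a bound on closed subsets of truncated sectors -/
theorem bound' {q : ℂ → ℂ} {t1 η M V : ℝ} (ht1 : 0 < t1) (hη : 0 ≤ η) (hM0 : 0 ≤ M) {K : Set ℂ}
    (hK : IsClosed K) (hsub : K ⊆ TT t1 η) (hq : ContinuousOn q K)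
    (hM : ∀ v ∈ K, V ≤ v.re → ‖q v‖ ≤ M / v.re ^ 2) :
    ∃ C : ℝ, 0 ≤ C ∧ ∀ v ∈ K, ‖q v‖ ≤ C / v.re ^ 2 := by
  set K' : Set ℂ := K ∩ {v | v.re ≤ V} with hK'
  have hcl : IsClosed K' := hK.inter (isClosed_le Complex.continuous_re continuous_const)
  have hbd : Bornology.IsBounded K' := by
    rw [isBounded_iff_forall_norm_le]
    refine ⟨|V| + η * |V|, fun v hv => ?_⟩
    have h2 := hsub hv.1
    have h3 : v.re ≤ V := hv.2
    have h5 : 0 < v.re := lt_of_lt_of_le ht1 h2.1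
    refine (Complex.norm_le_abs_re_add_abs_im v).trans ?_
    rw [abs_of_pos h5]
    have h6 : V ≤ |V| := le_abs_self V
    have h7 : η * v.re ≤ η * |V| := mul_le_mul_of_nonneg_left (by linarith) hη
    have := h2.2
    linarith
  have hcomp : IsCompact K' := Metric.isCompact_of_isClosed_isBounded hcl hbd
  obtain ⟨C1, hC1⟩ := hcomp.exists_bound_of_continuousOn (hq.mono inter_subset_left)
  refine ⟨max (|C1| * V ^ 2) M, le_max_of_le_right hM0, fun v hv => ?_⟩
  have h2 := hsub hv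
  have h5 : 0 < v.re := lt_of_lt_of_le ht1 h2.1
  by_cases h3 : v.re ≤ V
  · have h6 := hC1 v ⟨hv, h3⟩
    rw [le_div_iff₀ (by positivity)]
    refine le_max_of_le_left ?_
    have h7 : v.re ^ 2 ≤ V ^ 2 := by
      apply pow_le_pow_left₀ h5.le h3
    exact mul_le_mul (h6.trans (le_abs_self _)) h7 (by positivity) (abs_nonneg _)
  · push Not at h3
    refine (hM v hv h3.le).trans ?_
    gcongr
    exact le_max_right _ _

theorem Eul.Qf_diff (E : Eul c Φ G) {u : ℂ} (hu : 0 < u.re) (h : Φ u ≠ 0) :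
    DifferentiableAt ℂ (Qf Φ G) u := by
  have h1 : DifferentiableOn ℂ G {z : ℂ | 0 < z.re} := fun z hz =>
    (E.hG z hz).differentiableWithinAt
  have h2 := (h1.analyticOnNhd (isOpen_half 0)).deriv
  have h3 : DifferentiableAt ℂ (deriv Φ) u := ((E.hΦ.analyticAt u).deriv).differentiableAt
  exact ((h2 u hu).differentiableAt).sub (h3.div (E.hΦ u) h)

theorem Eul.Qf_decay (E : Eul c Φ G) : ∃ M : ℝ, 0 ≤ M ∧ ∀ v : ℂ, 4 ≤ v.re →
    ‖Qf Φ G v‖ ≤ M / v.re ^ 2 := by
  obtain ⟨M0, hM0, hM1⟩ := E.co.f1_le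
  refine ⟨2 * M0, by positivity, fun v hv => ?_⟩
  rw [E.Qf_eq (by linarith)]
  refine (hM1 v hv).trans ?_
  have h1 := exp_neg_le (κ := 1) one_pos (by linarith : 0 < v.re)
  rw [one_mul] at h1
  calc M0 * Real.exp (-v.re) ≤ M0 * (2 / 1 ^ 2 / v.re ^ 2) := by gcongr
    _ = _ := by ring

/-- the Laplace transform on the real axis when there are no zeros -/
theorem Eul.LT_eq (E : Eul c Φ G) (hwm : Measurable w) (hB : ∀ y ∈ Icc (0 : ℝ) 1, ‖w y‖ ≤ B)
    (hnz : ∀ z : ℂ, 0 < z.re → Φ z ≠ 0) (hd : ∀ z : ℂ, 0 < z.re → DifferentiableAt ℂ (LT c w) z)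
    {z : ℂ} (hz : 0 < z.re) :
    LT c w z = ∫ y in Ioo (0 : ℝ) 1, -(w y * ((y : ℂ) ^ 2)⁻¹ * Qf Φ G (z / y)) := by
  have hB0 : 0 ≤ B := (norm_nonneg _).trans (hB 0 ⟨le_rfl, zero_le_one⟩)
  set H : ℂ → ℂ := HH w (Qf Φ G) 1 with hH
  obtain ⟨M, hM0, hM⟩ := E.Qf_decay
  have hHd : ∀ x : ℂ, 0 < x.re → DifferentiableAt ℂ H x := by
    intro x hx
    set a : ℝ := x.re / 2 with ha
    have ha0 : 0 < a := by positivity
    set R : ℝ := (|x.im| + a) / a with hR
    have hR0 : 0 ≤ R := by positivity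
    have hK : TT a R ⊆ {v | 0 < v.re} := fun v hv => lt_of_lt_of_le ha0 hv.1
    obtain ⟨C, hC0, hC⟩ := bound' (q := Qf Φ G) (V := 4) ha0 hR0 hM0 (isClosed_TT a R) subset_rfl
      (fun v hv => (E.Qf_diff (hK hv) (hnz v (hK hv))).continuousAt.continuousWithinAt)
      fun v _ hv => hM v hv
    have hmem : ∀ v ∈ Metric.ball x a, a ≤ v.re ∧ ∀ y ∈ Ioo (0 : ℝ) 1, v / (y : ℂ) ∈ TT a R := by
      intro v hv
      rw [Metric.mem_ball, dist_eq_norm] at hv
      have h1 := (Complex.abs_re_le_norm (v - x)).trans_lt hv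
      have h2 := (Complex.abs_im_le_norm (v - x)).trans_lt hv
      rw [Complex.sub_re] at h1
      rw [Complex.sub_im] at h2
      have h3 : a ≤ v.re := by
        have := (abs_lt.1 h1).1
        rw [ha] at this ⊢
        linarith
      refine ⟨h3, fun y hy => ?_⟩
      have hy0 := hy.1
      constructor
      · rw [Complex.div_ofReal_re, le_div_iff₀ hy0]
        nlinarith [hy.2]
      · rw [Complex.div_ofReal_im, Complex.div_ofReal_re, abs_div, abs_of_pos hy0, mul_div_assoc']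
        refine div_le_div_of_nonneg_right ?_ hy0.le
        have h4 : |v.im| ≤ |x.im| + a := by
          have := abs_sub_abs_le_abs_sub v.im x.im
          linarith
        calc |v.im| ≤ |x.im| + a := h4
          _ = R * a := by rw [hR]; field_simp
          _ ≤ R * v.re := by gcongr
    refine Pool.Agent.Helper380.B3.differentiableAt_integral ha0
      (bound := fun _ => B * C / a ^ 2) ?_ ?_ ?_ ?_
    · filter_upwards [ae_restrict_mem measurableSet_Ioo] with y hy
      intro v hv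
      have h1 := (hmem v hv).2 y hy
      have h2 : DifferentiableAt ℂ (Qf Φ G) (v / (y : ℂ)) := E.Qf_diff (hK h1) (hnz _ (hK h1))
      have h3 : DifferentiableAt ℂ (fun v : ℂ => Qf Φ G (v / (y : ℂ))) v :=
        DifferentiableAt.comp (g := Qf Φ G) (f := fun v : ℂ => v / (y : ℂ)) v h2 (by fun_prop)
      exact ((h3.const_mul _).fun_neg).differentiableWithinAt
    · intro v hv
      refine cont_comp_meas hwm fun y hy => ?_
      have h1 := (hmem v hv).2 y hy
      exact (E.Qf_diff (hK h1) (hnz _ (hK h1))).continuousAt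
    · filter_upwards [ae_restrict_mem measurableSet_Ioo] with y hy
      intro v hv
      exact kernel_bound hB le_rfl hC0 ha0 (hmem v hv).1 hy (hC _ ((hmem v hv).2 y hy))
    · exact integrable_const _
  have h1 : AnalyticOnNhd ℂ (LT c w) {z | 0 < z.re} :=
    DifferentiableOn.analyticOnNhd (fun x hx => (hd x hx).differentiableWithinAt) (isOpen_half 0)
  have h2 : AnalyticOnNhd ℂ H {z | 0 < z.re} :=
    DifferentiableOn.analyticOnNhd (fun x hx => (hHd x hx).differentiableWithinAt) (isOpen_half 0)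
  have hpre : IsPreconnected {z : ℂ | 0 < z.re} := Pool.Agent.W263.BSD.preconn_half 0
  have hev : LT c w =ᶠ[𝓝 (2 : ℂ)] H := by
    filter_upwards [(isOpen_half 1).mem_nhds (show (1 : ℝ) < (2 : ℂ).re by norm_num)] with v hv
    have hv' : 1 < v.re := hv
    unfold LT
    rw [laplace_eq E.co hwm hB hv', hH]
    unfold HH
    refine setIntegral_congr_fun measurableSet_Ioo fun y hy => ?_
    have h3 : 1 < (v / y).re := by
      rw [Complex.div_ofReal_re, lt_div_iff₀ hy.1]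
      nlinarith [hy.2]
    show -(w y * ((y : ℂ) ^ 2)⁻¹ * f1 c (v / y)) = -(w y * ((y : ℂ) ^ 2)⁻¹ * Qf Φ G (v / y))
    rw [E.Qf_eq h3]
  exact h1.eqOn_of_preconnected_of_eventuallyEq h2 hpre (show (0 : ℝ) < (2 : ℂ).re by norm_num) hev hz

/-- the same after the substitution `u = x / y` -/
theorem Eul.LT_real (E : Eul c Φ G) (hwm : Measurable w) (hB : ∀ y ∈ Icc (0 : ℝ) 1, ‖w y‖ ≤ B)
    (hnz : ∀ z : ℂ, 0 < z.re → Φ z ≠ 0) (hd : ∀ z : ℂ, 0 < z.re → DifferentiableAt ℂ (LT c w) z)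
    {x : ℝ} (hx : 0 < x) :
    (x : ℂ) * LT c w x = ∫ u in Ioi x, -(w (x / u) * Qf Φ G u) := by
  rw [(subst_integral hx fun u => -(w (x / u) * Qf Φ G u)).1,
    E.LT_eq hwm hB hnz hd (by simpa using hx), ← integral_const_mul]
  refine setIntegral_congr_fun measurableSet_Ioo fun y hy => ?_
  have hy0 : (0 : ℝ) < y := hy.1
  have e1 : x / (x / y) = y := by field_simp
  show (x : ℂ) * -(w y * ((y : ℂ) ^ 2)⁻¹ * Qf Φ G (x / y)) =
    (x / y ^ 2) • -(w (x / (x / y)) * Qf Φ G ((x / y : ℝ) : ℂ))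
  rw [e1, Complex.real_smul]
  push_cast
  ring

theorem log_deriv_factor {Ψ : ℂ → ℂ} (hΨ : Differentiable ℂ Ψ) {z0 : ℂ} {n : ℕ}
    (hf : ∀ u, Φ u = (u - z0) ^ n * Ψ u) {u : ℂ} (hu : u ≠ z0) (hΨu : Ψ u ≠ 0) :
    deriv Φ u / Φ u = n / (u - z0) + deriv Ψ u / Ψ u := by
  have hu' : u - z0 ≠ 0 := sub_ne_zero.2 hu
  have h3 : Φ = fun u => (u - z0) ^ n * Ψ u := funext hf
  rcases Nat.eq_zero_or_pos n with h0 | h0
  · subst h0
    have h4 : Φ = Ψ := by
      funext u
      rw [hf]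
      ring
    rw [h4]
    simp
  · have h4 : HasDerivAt Φ ((n : ℂ) * (u - z0) ^ (n - 1) * Ψ u + (u - z0) ^ n * deriv Ψ u) u := by
      rw [h3]
      have h5 : HasDerivAt (fun u : ℂ => (u - z0) ^ n) ((n : ℂ) * (u - z0) ^ (n - 1) * 1) u :=
        ((hasDerivAt_id u).sub_const z0).pow n
      rw [mul_one] at h5
      exact h5.mul (hΨ _).hasDerivAt
    rw [h4.deriv, hf u]
    have h6 : (u - z0) ^ n = (u - z0) ^ (n - 1) * (u - z0) := by
      rw [← pow_succ]
      congr 1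
      omega
    rw [h6]
    have h7 : (u - z0) ^ (n - 1) ≠ 0 := pow_ne_zero _ hu'
    field_simp

/-- the behaviour of `Qf` at the origin -/
theorem Eul.Qf_small (E : Eul c Φ G)
    (hsec : ∀ R : ℝ, 0 ≤ R → ∃ C : ℝ, ∀ v : ℂ, 0 < v.re → ‖v‖ ≤ R * v.re → ‖G v‖ ≤ C)
    (hnz : ∀ z : ℂ, 0 < z.re → Φ z ≠ 0) {n : ℕ} (hn : analyticOrderAt Φ 0 = n) :
    ∃ C : ℝ, 0 ≤ C ∧ (∀ u : ℝ, 0 < u → u ≤ 1 → ‖Qf Φ G u‖ ≤ C / u) ∧
      (∀ u : ℝ, 1 ≤ u → ‖Qf Φ G u‖ ≤ C / u ^ 2) ∧
      ∀ x : ℝ, 0 < x → x ≤ 1 → ‖(∫ u in Ioc x 1, Qf Φ G u) + n * (Real.log (1 / x) : ℂ)‖ ≤ C := by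
  obtain ⟨Ψ, hΨ, hΨ0, hΨf⟩ := factor E.hΦ hn
  obtain ⟨CG, hCG⟩ := hsec 3 (by norm_num)
  have hCG0 : 0 ≤ CG := (norm_nonneg _).trans (hCG 1 (by simp) (by simp))
  have hΨp : ∀ u : ℝ, 0 ≤ u → Ψ u ≠ 0 := by
    intro u hu
    rcases hu.lt_or_eq with h | h
    · intro h2
      refine hnz u (by simpa using h) ?_
      rw [hΨf, h2, mul_zero]
    · rw [← h]
      simpa using hΨ0
  have hΨd : Differentiable ℂ (deriv Ψ) := fun u => ((hΨ.analyticAt u).deriv).differentiableAt
  have hcont : ContinuousOn (fun u : ℝ => deriv Ψ u / Ψ u) (Icc 0 1) := by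
    intro u hu
    refine ContinuousAt.continuousWithinAt ?_
    have h1 : ContinuousAt (fun u : ℝ => deriv Ψ (u : ℂ)) u :=
      ((hΨd _).continuousAt).comp Complex.continuous_ofReal.continuousAt
    have h2 : ContinuousAt (fun u : ℝ => Ψ (u : ℂ)) u :=
      ((hΨ _).continuousAt).comp Complex.continuous_ofReal.continuousAt
    exact h1.div h2 (hΨp u hu.1)
  obtain ⟨K1, hK1⟩ := isCompact_Icc.exists_bound_of_continuousOn hcont
  have hK10 : 0 ≤ K1 := (norm_nonneg _).trans (hK1 0 ⟨le_rfl, zero_le_one⟩)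
  -- the derivative of `G`
  have hG1 : ∀ u : ℝ, 0 < u → ‖deriv G u‖ ≤ 2 * CG / u := by
    intro u hu
    have hmem : ∀ z ∈ Metric.closedBall (u : ℂ) (u / 2), 0 < z.re ∧ ‖z‖ ≤ 3 * z.re := by
      intro z hz
      rw [Metric.mem_closedBall, dist_eq_norm] at hz
      have h1 := (Complex.abs_re_le_norm (z - u)).trans hz
      rw [Complex.sub_re, Complex.ofReal_re] at h1
      have h2 := (abs_le.1 h1).1
      have h3 : ‖z‖ ≤ 3 / 2 * u := by
        have h4 : z = (z - u) + u := by ring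
        rw [h4]
        refine (norm_add_le _ _).trans ?_
        rw [Complex.norm_real, Real.norm_of_nonneg hu.le]
        linarith
      constructor <;> linarith
    have h1 := Complex.norm_deriv_le_of_forall_mem_sphere_norm_le (f := G) (c := (u : ℂ))
      (R := u / 2) (C := CG) (by positivity) (by
        refine DifferentiableOn.diffContOnCl fun z hz => ?_
        rw [closure_ball _ (by positivity)] at hz
        exact (E.hG z (hmem z hz).1).differentiableWithinAt)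
      fun z hz => hCG z (hmem z (Metric.sphere_subset_closedBall hz)).1
        (hmem z (Metric.sphere_subset_closedBall hz)).2
    refine h1.trans (le_of_eq ?_)
    field_simp
  have hQ : ∀ u : ℝ, 0 < u → Qf Φ G u = deriv G u - n / u - deriv Ψ u / Ψ u := by
    intro u hu
    unfold Qf
    rw [log_deriv_factor hΨ hΨf (by exact_mod_cast hu.ne') (hΨp u hu.le), sub_zero]
    ring
  obtain ⟨M, hM0, hM⟩ := E.Qf_decay
  obtain ⟨C2, hC20, hC2⟩ := bound' (q := Qf Φ G) (V := 4) (K := TT 1 0) one_pos le_rfl hM0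
    (isClosed_TT 1 0) subset_rfl
    (fun v hv => (E.Qf_diff (lt_of_lt_of_le one_pos hv.1)
      (hnz v (lt_of_lt_of_le one_pos hv.1))).continuousAt.continuousWithinAt)
    fun v _ hv => hM v hv
  refine ⟨2 * CG + n + K1 + C2, by positivity, fun u hu hu1 => ?_, fun u hu => ?_, fun x hx hx1 => ?_⟩
  · rw [hQ u hu]
    have h1 := hG1 u hu
    have h2 := hK1 u ⟨hu.le, hu1⟩
    have h3 : ‖((n : ℂ) / u)‖ = n / u := by
      rw [norm_div, Complex.norm_natCast, Complex.norm_real, Real.norm_of_nonneg hu.le]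
    have h4 : K1 ≤ K1 / u := by
      rw [le_div_iff₀ hu]
      nlinarith
    have h5 : 0 ≤ C2 / u := by positivity
    calc ‖deriv G u - n / u - deriv Ψ u / Ψ u‖ ≤ ‖deriv G u‖ + ‖((n : ℂ) / u)‖ +
          ‖deriv Ψ u / Ψ u‖ := (norm_sub_le _ _).trans (by gcongr; exact norm_sub_le _ _)
      _ ≤ 2 * CG / u + n / u + K1 / u + C2 / u := by rw [h3]; linarith
      _ = _ := by ring
  · have h1 := hC2 u ⟨by simpa using hu, by simp⟩
    rw [Complex.ofReal_re] at h1
    refine h1.trans ?_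
    gcongr
    linarith
  · have h1 : ∫ u in Ioc x 1, Qf Φ G u = ∫ u in x..1, (deriv G u - n / u - deriv Ψ u / Ψ u) := by
      rw [intervalIntegral.integral_of_le hx1]
      refine setIntegral_congr_fun measurableSet_Ioc fun u hu => ?_
      exact hQ u (hx.trans hu.1)
    have hderiv : ∀ u ∈ uIcc x 1, HasDerivAt (fun t : ℝ => G t - n * (Real.log t : ℂ))
        (deriv G u - n / u) u := by
      intro u hu
      rw [uIcc_of_le hx1] at hu
      have hu0 : 0 < u := hx.trans_le hu.1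
      have h2 : HasDerivAt (fun t : ℝ => G t) (deriv G u) u :=
        (E.hG u (by simpa using hu0)).hasDerivAt.comp_ofReal
      have h3 : HasDerivAt (fun t : ℝ => (Real.log t : ℂ)) ((u⁻¹ : ℝ) : ℂ) u :=
        (Real.hasDerivAt_log hu0.ne').ofReal_comp
      have h4 := h2.sub (h3.const_mul (n : ℂ))
      refine h4.congr_deriv ?_
      push_cast
      ring
    have hcG : ContinuousOn (fun u : ℝ => deriv G u - n / u) (uIcc x 1) := by
      intro u hu
      rw [uIcc_of_le hx1] at hu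
      have hu0 : 0 < u := hx.trans_le hu.1
      refine ContinuousAt.continuousWithinAt (ContinuousAt.sub ?_ ?_)
      · have h5 : DifferentiableOn ℂ G {z : ℂ | 0 < z.re} := fun z hz =>
          (E.hG z hz).differentiableWithinAt
        have h6 := (h5.analyticOnNhd (isOpen_half 0)).deriv
        have h7 : ContinuousAt (deriv G) (u : ℂ) :=
          (h6 u (show (0 : ℝ) < (u : ℂ).re by simpa using hu0)).continuousAt
        exact h7.comp Complex.continuous_ofReal.continuousAt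
      · refine ContinuousAt.div continuousAt_const Complex.continuous_ofReal.continuousAt ?_
        exact_mod_cast hu0.ne'
    have hcP : ContinuousOn (fun u : ℝ => deriv Ψ u / Ψ u) (uIcc x 1) := by
      rw [uIcc_of_le hx1]
      exact hcont.mono (Icc_subset_Icc_left hx.le)
    rw [h1, intervalIntegral.integral_sub (f := fun u : ℝ => deriv G u - n / u)
      (g := fun u : ℝ => deriv Ψ u / Ψ u) hcG.intervalIntegrable hcP.intervalIntegrable,
      intervalIntegral.integral_eq_sub_of_hasDerivAt hderiv hcG.intervalIntegrable]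
    have h2 : ‖∫ u in x..1, deriv Ψ (u : ℂ) / Ψ u‖ ≤ K1 := by
      refine (intervalIntegral.norm_integral_le_of_norm_le_const (C := K1) fun u hu => ?_).trans ?_
      · rw [uIoc_of_le hx1] at hu
        exact hK1 u ⟨(hx.trans hu.1).le, hu.2⟩
      · rw [abs_of_nonneg (by linarith)]
        nlinarith
    have h3 : ‖G ((1 : ℝ) : ℂ)‖ ≤ CG := hCG _ (by simp) (by simp)
    have h4 : ‖G (x : ℂ)‖ ≤ CG := hCG _ (by simpa using hx) (by
      rw [Complex.norm_real, Real.norm_of_nonneg hx.le, Complex.ofReal_re]; linarith)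
    have h5 : (G ((1 : ℝ) : ℂ) - n * (Real.log 1 : ℂ) - (G x - n * (Real.log x : ℂ)) -
        ∫ u in x..1, deriv Ψ (u : ℂ) / Ψ u) + n * (Real.log (1 / x) : ℂ) =
        G ((1 : ℝ) : ℂ) - G x - ∫ u in x..1, deriv Ψ (u : ℂ) / Ψ u := by
      rw [one_div, Real.log_inv, Real.log_one]
      push_cast
      ring
    rw [h5]
    have h6 : (0 : ℝ) ≤ n := Nat.cast_nonneg n
    calc ‖G ((1 : ℝ) : ℂ) - G x - ∫ u in x..1, deriv Ψ (u : ℂ) / Ψ u‖ ≤
        ‖G ((1 : ℝ) : ℂ)‖ + ‖G x‖ + ‖∫ u in x..1, deriv Ψ (u : ℂ) / Ψ u‖ :=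
          (norm_sub_le _ _).trans (by gcongr; exact norm_sub_le _ _)
      _ ≤ CG + CG + K1 := by gcongr
      _ ≤ _ := by linarith

end Pool.Agent.L0h3.WB
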