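import Mathlib

/-! The Poisson kernel, and a compactness bound in sectors. -/

set_option autoImplicit false

namespace Pool.Agent.L0h3.WB

open MeasureTheory Filter Topology Set Bornology

theorem poisson {g : ℝ → ℂ} {x : ℝ} (hg : Integrable g) (hx : ContinuousAt g x) :
    Tendsto (fun c : ℝ => ∫ y, ((c / (1 + (c * (x - y)) ^ 2) : ℝ) : ℂ) * g y) atTop
      (𝓝 ((Real.pi : ℂ) * g x)) := by
  have hpi := Real.pi_pos
  have h1 := tendsto_integral_comp_smul_smul_of_integrable' (μ := (volume : Measure ℝ))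
    (φ := fun u : ℝ => (Real.pi)⁻¹ * (1 + u ^ 2)⁻¹) (fun u => by positivity)
    (by rw [integral_const_mul, integral_univ_inv_one_add_sq, inv_mul_cancel₀ hpi.ne'])
    (by
      have h2 : Tendsto (fun u : ℝ => (Real.pi)⁻¹ * ‖u‖⁻¹) (cobounded ℝ) (𝓝 ((Real.pi)⁻¹ * 0)) :=
        (tendsto_norm_cobounded_atTop.inv_tendsto_atTop).const_mul _
      rw [mul_zero] at h2
      refine squeeze_zero' (Eventually.of_forall fun u => by positivity) ?_ h2
      filter_upwards [tendsto_norm_cobounded_atTop.eventually (eventually_gt_atTop (0 : ℝ))] with u hu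
      rw [Module.finrank_self, pow_one]
      have h3 : ‖u‖ * (1 + u ^ 2)⁻¹ ≤ ‖u‖⁻¹ := by
        rw [← div_eq_mul_inv, div_le_iff₀ (by positivity), ← sq_abs u, ← Real.norm_eq_abs]
        field_simp
        nlinarith
      calc ‖u‖ * ((Real.pi)⁻¹ * (1 + u ^ 2)⁻¹) = (Real.pi)⁻¹ * (‖u‖ * (1 + u ^ 2)⁻¹) := by ring
        _ ≤ _ := by gcongr) hg hx
  have h4 := h1.const_mul (Real.pi : ℂ)
  refine h4.congr fun c => ?_
  rw [← integral_const_mul]
  congr 1
  funext y
  rw [Module.finrank_self, pow_one, Complex.real_smul, smul_eq_mul]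
  push_cast
  have : (Real.pi : ℂ) ≠ 0 := by exact_mod_cast hpi.ne'
  have h5 : (1 + ((c : ℂ) * (x - y)) ^ 2) ≠ 0 := by
    have : (0 : ℝ) < 1 + (c * (x - y)) ^ 2 := by positivity
    exact_mod_cast this.ne'
  field_simp

end Pool.Agent.L0h3.WB
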