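import Pool.Agent.W524.RY.Fin

/-! Dirichlet series over the primes and their derivative. -/

set_option autoImplicit false

namespace Pool.Agent.L0h3.WB

open MeasureTheory Filter Topology Set Classical

/-- conditions on the coefficients -/
structure Co (c : ℕ → ℝ) : Prop where
  le_one : ∀ p, |c p| ≤ 1
  big : ∀ p, c p ≠ 0 → 3 ≤ p

/-- `∑ c_p p^{-u}` -/
noncomputable def ff (c : ℕ → ℝ) (u : ℂ) : ℂ := ∑' p : ℕ, (c p : ℂ) * Complex.exp (-(u * Real.log p))

/-- `-∑ c_p log p p^{-u}` -/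
noncomputable def f1 (c : ℕ → ℝ) (u : ℂ) : ℂ :=
  ∑' p : ℕ, (c p : ℂ) * (Complex.exp (-(u * Real.log p)) * (-(Real.log p : ℂ)))

variable {c : ℕ → ℝ}

theorem norm_exp_log (u : ℂ) (p : ℕ) :
    ‖Complex.exp (-(u * Real.log p))‖ = Real.exp (-(u.re * Real.log p)) := by
  rw [Complex.norm_exp, Complex.neg_re, Complex.re_mul_ofReal]

theorem exp_log_eq {p : ℕ} (hp : 0 < p) (σ : ℝ) : Real.exp (-(σ * Real.log p)) = (p : ℝ) ^ (-σ) := by
  rw [Real.rpow_def_of_pos (by exact_mod_cast hp)]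
  congr 1
  ring

theorem Co.term_le (h : Co c) {σ : ℝ} {u : ℂ} (hu : σ ≤ u.re) (p : ℕ) :
    ‖(c p : ℂ) * Complex.exp (-(u * Real.log p))‖ ≤ (p : ℝ) ^ (-σ) := by
  by_cases h0 : c p = 0
  · rw [h0, Complex.ofReal_zero, zero_mul, norm_zero]
    positivity
  · have hp := h.big p h0
    have hp1 : (1 : ℝ) ≤ p := by exact_mod_cast (show 1 ≤ p by omega)
    rw [norm_mul, Complex.norm_real, Real.norm_eq_abs, norm_exp_log, exp_log_eq (by omega)]
    calc |c p| * (p : ℝ) ^ (-u.re) ≤ 1 * (p : ℝ) ^ (-σ) :=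
          mul_le_mul (h.le_one p) (Real.rpow_le_rpow_of_exponent_le hp1 (by linarith))
            (by positivity) zero_le_one
      _ = _ := one_mul _

theorem Co.ff_hasSum (h : Co c) {u : ℂ} (hu : 1 < u.re) :
    HasSum (fun p : ℕ => (c p : ℂ) * Complex.exp (-(u * Real.log p))) (ff c u) :=
  (Summable.of_norm_bounded (Real.summable_nat_rpow.mpr (by linarith : -u.re < -1))
    fun p => h.term_le le_rfl p).hasSum

theorem term_hasDerivAt (c : ℕ → ℝ) (p : ℕ) (u : ℂ) :
    HasDerivAt (fun u : ℂ => (c p : ℂ) * Complex.exp (-(u * Real.log p)))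
      ((c p : ℂ) * (Complex.exp (-(u * Real.log p)) * (-(Real.log p : ℂ)))) u := by
  have h1 : HasDerivAt (fun u : ℂ => -(u * (Real.log p : ℂ))) (-(Real.log p : ℂ)) u :=
    (((hasDerivAt_id u).mul_const (Real.log p : ℂ)).fun_neg).congr_deriv (by ring)
  exact (h1.cexp).const_mul _

theorem isOpen_half (s : ℝ) : IsOpen {z : ℂ | s < z.re} :=
  isOpen_lt continuous_const Complex.continuous_re

theorem Co.f1_hasSum (h : Co c) {u : ℂ} (hu : 1 < u.re) :
    HasSum (fun p : ℕ => (c p : ℂ) * (Complex.exp (-(u * Real.log p)) * (-(Real.log p : ℂ))))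
      (f1 c u) ∧ HasDerivAt (ff c) (f1 c u) u := by
  set σ : ℝ := (1 + u.re) / 2 with hσ
  have h1 : Summable fun p : ℕ => (p : ℝ) ^ (-σ) := Real.summable_nat_rpow.mpr (by linarith)
  have hU : σ < u.re := by linarith
  have h2 := Complex.hasSum_deriv_of_summable_norm (F := fun (p : ℕ) (u : ℂ) =>
    (c p : ℂ) * Complex.exp (-(u * Real.log p))) (U := {z : ℂ | σ < z.re}) h1
    (fun p z _ => (term_hasDerivAt c p z).differentiableAt.differentiableWithinAt)
    (isOpen_half σ) (fun p z hz => h.term_le (le_of_lt hz) p) hU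
  have h4 := Complex.differentiableOn_tsum_of_summable_norm (F := fun (p : ℕ) (u : ℂ) =>
    (c p : ℂ) * Complex.exp (-(u * Real.log p))) (U := {z : ℂ | σ < z.re}) h1
    (fun p z _ => (term_hasDerivAt c p z).differentiableAt.differentiableWithinAt)
    (isOpen_half σ) (fun p z hz => h.term_le (le_of_lt hz) p)
  have h5 : DifferentiableAt ℂ (ff c) u := h4.differentiableAt ((isOpen_half σ).mem_nhds hU)
  have h3 : HasSum (fun p : ℕ => (c p : ℂ) *
      (Complex.exp (-(u * Real.log p)) * (-(Real.log p : ℂ)))) (deriv (ff c) u) := by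
    have e : (fun p : ℕ => deriv ((fun (p : ℕ) (u : ℂ) =>
        (c p : ℂ) * Complex.exp (-(u * Real.log p))) p) u) = fun p : ℕ => (c p : ℂ) *
      (Complex.exp (-(u * Real.log p)) * (-(Real.log p : ℂ))) := by
      funext p
      exact (term_hasDerivAt c p u).deriv
    rw [e] at h2
    exact h2
  have h6 : f1 c u = deriv (ff c) u := h3.tsum_eq
  rw [h6]
  exact ⟨h3, h5.hasDerivAt⟩

/-- exponential decay of the derivative -/
theorem Co.f1_le (h : Co c) : ∃ M : ℝ, 0 ≤ M ∧ ∀ u : ℂ, 4 ≤ u.re → ‖f1 c u‖ ≤ M * Real.exp (-u.re) := by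
  refine ⟨(∑' p : ℕ, (p : ℝ) ^ (-2 : ℝ)) * Real.exp 4, by positivity, fun u hu => ?_⟩
  have hs : Summable fun p : ℕ => (p : ℝ) ^ (-2 : ℝ) := Real.summable_nat_rpow.mpr (by norm_num)
  have hb : ∀ p : ℕ, ‖(c p : ℂ) * (Complex.exp (-(u * Real.log p)) * (-(Real.log p : ℂ)))‖ ≤
      (p : ℝ) ^ (-2 : ℝ) * (Real.exp 4 * Real.exp (-u.re)) := by
    intro p
    by_cases h0 : c p = 0
    · rw [h0, Complex.ofReal_zero, zero_mul, norm_zero]
      positivity
    · have hp := h.big p h0
      have hp3 : (3 : ℝ) ≤ p := by exact_mod_cast hp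
      have hp0 : (0 : ℝ) < p := by linarith
      have hl : 1 ≤ Real.log p := by
        rw [Real.le_log_iff_exp_le hp0]
        linarith [Real.exp_one_lt_d9]
      have hl2 : Real.log p ≤ p := (Real.log_le_sub_one_of_pos hp0).trans (by linarith)
      rw [norm_mul, norm_mul, norm_neg, Complex.norm_real, Complex.norm_real, Real.norm_eq_abs,
        Real.norm_eq_abs, norm_exp_log, abs_of_nonneg (by linarith : 0 ≤ Real.log p)]
      have e1 : Real.exp (-(u.re * Real.log p)) ≤
          (p : ℝ) ^ (-3 : ℝ) * (Real.exp 4 * Real.exp (-u.re)) := by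
        rw [Real.rpow_def_of_pos hp0, ← Real.exp_add, ← Real.exp_add]
        apply Real.exp_le_exp.2
        nlinarith
      have e2 : (p : ℝ) ^ (-3 : ℝ) * p = (p : ℝ) ^ (-2 : ℝ) := by
        rw [← Real.rpow_add_one hp0.ne']
        norm_num
      calc |c p| * (Real.exp (-(u.re * Real.log p)) * Real.log p) ≤
          1 * (((p : ℝ) ^ (-3 : ℝ) * (Real.exp 4 * Real.exp (-u.re))) * p) := by
            refine mul_le_mul (h.le_one p) (mul_le_mul e1 hl2 (by linarith) (by positivity))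
              (by positivity) zero_le_one
        _ = ((p : ℝ) ^ (-3 : ℝ) * p) * (Real.exp 4 * Real.exp (-u.re)) := by ring
        _ = _ := by rw [e2]
  have h1 := tsum_of_norm_bounded (hs.mul_right (Real.exp 4 * Real.exp (-u.re))).hasSum hb
  rw [tsum_mul_right] at h1
  unfold f1
  calc _ ≤ _ := h1
    _ = _ := by ring

end Pool.Agent.L0h3.WB
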