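import Pool.Agent.L0h3.WB.Lan

/-! One-sided bounds for nonnegative weights. -/

set_option autoImplicit false

namespace Pool.Agent.L0h3.WB

open MeasureTheory Filter Topology Set Classical
open Pool.Agent.W263.BSD (LInt lap lapC lapC_ofReal lapC_differentiableAt ex ex_LInt ex_lap
  ex_meas lap_sub lap_add lap_const_mul)

variable {c : ℕ → ℝ} {Φ G : ℂ → ℂ} {w : ℝ → ℂ} {ω : ℝ → ℝ} {B b : ℝ}

/-- decay of `Qf` along a scaled sector -/
theorem Eul.decay_scaled (E : Eul c Φ G) {z0 : ℝ} (hz0 : 0 < z0) : ∃ M : ℝ, 0 ≤ M ∧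
    ∀ v : ℂ, 4 / z0 ≤ v.re → ‖Qf Φ G (z0 * v)‖ ≤ M / v.re ^ 2 := by
  obtain ⟨M, hM0, hM⟩ := E.Qf_decay
  refine ⟨M / z0 ^ 2, by positivity, fun v hv => ?_⟩
  have h1 : ((z0 : ℂ) * v).re = z0 * v.re := Complex.re_ofReal_mul _ _
  have h2 : 4 ≤ ((z0 : ℂ) * v).re := by
    rw [h1]
    rw [div_le_iff₀ hz0] at hv
    linarith
  refine (hM _ h2).trans (le_of_eq ?_)
  rw [h1]
  field_simp

/-- balls inside truncated sectors -/
theorem ball_TT {t1 η β ρ : ℝ} (hη : 0 ≤ η) (h1 : ρ ≤ β * (1 - t1))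
    (h2 : ρ ≤ η * (β * t1)) {x : ℂ} (hx : x ∈ Metric.ball (β : ℂ) ρ) :
    β * t1 ≤ x.re ∧ |x.im| ≤ η * x.re ∧ |x.re - β| < ρ := by
  rw [Metric.mem_ball, dist_eq_norm] at hx
  have h3 := (Complex.abs_re_le_norm (x - β)).trans_lt hx
  have h4 := (Complex.abs_im_le_norm (x - β)).trans_lt hx
  rw [Complex.sub_re, Complex.ofReal_re] at h3
  rw [Complex.sub_im, Complex.ofReal_im, sub_zero] at h4
  have h5 := (abs_lt.1 h3).1
  have h6 : β * t1 ≤ x.re := by nlinarith
  refine ⟨h6, ?_, h3⟩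
  have h7 : η * (β * t1) ≤ η * x.re := mul_le_mul_of_nonneg_left h6 hη
  linarith

/-- the Laplace transform to the right of the last zero on the real axis -/
theorem Eul.right_eq (E : Eul c Φ G) (hwm : Measurable w) (hB : ∀ y ∈ Icc (0 : ℝ) 1, ‖w y‖ ≤ B)
    {z0 : ℝ} (hz0 : 0 < z0) {η : ℝ} (hη : 0 < η) (hb0 : 0 < b) (hb1 : b ≤ 1)
    (hwb : ∀ᵐ y ∂(volume.restrict (Ioo b 1)), w y = 0)
    (hnz : ∀ v : ℂ, 1 < v.re → |v.im| ≤ η * v.re → Φ (z0 * v) ≠ 0)
    (hLT : ∀ z : ℂ, z0 * b < z.re → DifferentiableAt ℂ (LT c w) z) :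
    ∀ x : ℂ, b < x.re → |x.im| < η * x.re →
      LT c w (z0 * x) = HH w (fun v => Qf Φ G (z0 * v)) b x := by
  set U : Set ℂ := {x | b < x.re ∧ |x.im| < η * x.re} with hU
  set q : ℂ → ℂ := fun v => Qf Φ G (z0 * v) with hq
  obtain ⟨M, hM0, hM⟩ := E.decay_scaled hz0
  have hqd : ∀ v : ℂ, 1 < v.re → |v.im| ≤ η * v.re → DifferentiableAt ℂ q v := by
    intro v h1 h2
    have h3 : 0 < ((z0 : ℂ) * v).re := by
      rw [Complex.re_ofReal_mul]
      have : 0 < v.re := by linarith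
      positivity
    exact DifferentiableAt.comp (g := Qf Φ G) (f := fun v : ℂ => (z0 : ℂ) * v) v
      (E.Qf_diff h3 (hnz v h1 h2)) (by fun_prop)
  have hUo : IsOpen U := by
    have h1 : IsOpen {x : ℂ | b < x.re} := isOpen_lt (by fun_prop) (by fun_prop)
    have h2 : IsOpen {x : ℂ | |x.im| < η * x.re} := isOpen_lt (by fun_prop) (by fun_prop)
    exact h1.inter h2
  have hUc : Convex ℝ U := by
    intro x hx y hy s t hs ht hst
    obtain ⟨h1, h2⟩ := hx
    obtain ⟨h3, h4⟩ := hy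
    have e1 : (s • x + t • y).re = s * x.re + t * y.re := by simp
    have e2 : (s • x + t • y).im = s * x.im + t * y.im := by simp
    constructor
    · rw [e1]
      have e5 : b = s * b + t * b := by rw [← add_mul, hst, one_mul]
      rcases hs.lt_or_eq with hs' | hs'
      · have := mul_lt_mul_of_pos_left h1 hs'
        have := mul_le_mul_of_nonneg_left h3.le ht
        linarith
      · rw [← hs'] at hst ⊢
        rw [zero_add] at hst
        rw [hst]
        linarith
    · rw [e1, e2]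
      have h5 : |s * x.im + t * y.im| ≤ s * |x.im| + t * |y.im| := by
        refine (abs_add_le _ _).trans ?_
        rw [abs_mul, abs_mul, abs_of_nonneg hs, abs_of_nonneg ht]
      have h6 : η * (s * x.re + t * y.re) = s * (η * x.re) + t * (η * y.re) := by ring
      rw [h6]
      refine h5.trans_lt ?_
      rcases hs.lt_or_eq with hs' | hs'
      · have := mul_lt_mul_of_pos_left h2 hs'
        have := mul_le_mul_of_nonneg_left h4.le ht
        linarith
      · rw [← hs'] at hst ⊢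
        rw [zero_add] at hst
        rw [hst]
        linarith
  have h1 : AnalyticOnNhd ℂ (fun x => LT c w (z0 * x)) U := by
    refine DifferentiableOn.analyticOnNhd (fun x hx => DifferentiableAt.differentiableWithinAt ?_) hUo
    refine DifferentiableAt.comp (g := LT c w) (f := fun v : ℂ => (z0 : ℂ) * v) x
      (hLT _ ?_) (by fun_prop)
    rw [Complex.re_ofReal_mul]
    have := hx.1
    gcongr
  have h2 : AnalyticOnNhd ℂ (HH w q b) U := by
    refine DifferentiableOn.analyticOnNhd (fun x hx => DifferentiableAt.differentiableWithinAt ?_) hUo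
    obtain ⟨hx1, hx2⟩ := hx
    set b' : ℝ := (b + x.re) / 2 with hb'
    have hb'b : b < b' := by rw [hb']; linarith
    have hbb : 1 < b' / b := (one_lt_div hb0).2 hb'b
    have hO : IsOpen {v : ℂ | b' < v.re ∧ |v.im| < η * v.re} := by
      have h1 : IsOpen {x : ℂ | b' < x.re} := isOpen_lt (by fun_prop) (by fun_prop)
      have h2 : IsOpen {x : ℂ | |x.im| < η * x.re} := isOpen_lt (by fun_prop) (by fun_prop)
      exact h1.inter h2
    obtain ⟨ρ, hρ, hball⟩ := Metric.isOpen_iff.1 hO x ⟨by rw [hb']; linarith, hx2⟩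
    have hTT : ∀ v ∈ TT (b' / b) η, 1 < v.re ∧ |v.im| ≤ η * v.re := fun v hv =>
      ⟨hbb.trans_le hv.1, hv.2⟩
    obtain ⟨C1, hC10, hC1⟩ := bound' (q := q) (V := 4 / z0) (by positivity : 0 < b' / b) hη.le hM0
      (isClosed_TT (b' / b) η) subset_rfl
      (fun v hv => (hqd v (hTT v hv).1 (hTT v hv).2).continuousAt.continuousWithinAt)
      fun v _ hv => hM v hv
    have hmem : ∀ v ∈ Metric.ball x ρ, ∀ y ∈ Ioo (0 : ℝ) b, v / (y : ℂ) ∈ TT (b' / b) η := by
      intro v hv y hy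
      have h5 := hball hv
      refine mem_TT ?_ (by positivity) h5.2.le hy
      have e : b * (b' / b) = b' := by field_simp
      rw [e]
      exact h5.1.le
    refine diff_gen (E := B * C1 / b' ^ 2) measurableSet_Ioo (fun y hy => hy.1) (by simp)
      (K := TT (b' / b) η) (fun v hv => hqd v (hTT v hv).1 (hTT v hv).2) hwm hρ hmem ?_
    intro v hv y hy
    exact kernel_bound hB hb1 hC10 (by linarith) (hball hv).1.le hy (hC1 _ (hmem v hv y hy))
  set X1 : ℝ := b + 1 + 2 / z0 with hX1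
  have hX1p : 0 < X1 := by positivity
  have hzU : (X1 : ℂ) ∈ U := by
    refine ⟨?_, ?_⟩
    · rw [Complex.ofReal_re, hX1]
      have : 0 < 2 / z0 := by positivity
      linarith
    · rw [Complex.ofReal_re, Complex.ofReal_im, abs_zero]
      positivity
  have hev : (fun x => LT c w (z0 * x)) =ᶠ[𝓝 (X1 : ℂ)] HH w q b := by
    have ho : IsOpen {v : ℂ | 1 < ((z0 : ℂ) * v).re} := isOpen_lt (by fun_prop) (by fun_prop)
    have hm : (X1 : ℂ) ∈ {v : ℂ | 1 < ((z0 : ℂ) * v).re} := by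
      show 1 < ((z0 : ℂ) * X1).re
      rw [Complex.re_ofReal_mul, Complex.ofReal_re, hX1]
      have e : z0 * (b + 1 + 2 / z0) = z0 * b + z0 + 2 := by field_simp
      rw [e]
      have : 0 < z0 * b := by positivity
      linarith
    filter_upwards [ho.mem_nhds hm] with v hv
    have hv' : 1 < ((z0 : ℂ) * v).re := hv
    rw [← HH_eq hb1 hwb]
    unfold LT
    rw [laplace_eq E.co hwm hB hv']
    refine setIntegral_congr_fun measurableSet_Ioo fun y hy => ?_
    have h3 : 1 < ((z0 : ℂ) * v / y).re := by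
      rw [Complex.div_ofReal_re, lt_div_iff₀ hy.1]
      nlinarith [hy.2]
    have h4 : (z0 : ℂ) * (v / y) = z0 * v / y := by ring
    show -(w y * ((y : ℂ) ^ 2)⁻¹ * f1 c (z0 * v / y)) =
      -(w y * ((y : ℂ) ^ 2)⁻¹ * Qf Φ G (z0 * (v / y)))
    rw [h4, E.Qf_eq h3]
  intro x hx1 hx2
  exact h1.eqOn_of_preconnected_of_eventuallyEq h2 hUc.isPreconnected hzU hev ⟨hx1, hx2⟩

end Pool.Agent.L0h3.WB
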