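import Pool.Agent.L0h3.WB.Upper

/-! One-sided bounds for nonnegative weights: the two cases. -/

set_option autoImplicit false

namespace Pool.Agent.L0h3.WB

open MeasureTheory Filter Topology Set Classical
open Pool.Agent.W263.BSD (LInt lap lapC lapC_ofReal lapC_differentiableAt ex ex_LInt ex_lap
  ex_meas lap_sub lap_add lap_const_mul)

variable {c : ℕ → ℝ} {Φ G : ℂ → ℂ} {ω : ℝ → ℝ} {B b : ℝ}

/-- no real zero at or beyond `s / b`: the abscissa of convergence is smaller than `s` -/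
theorem Eul.caseA (E : Eul c Φ G) (hωm : Measurable ω)
    (hB : ∀ y ∈ Icc (0 : ℝ) 1, ‖(ω y : ℂ)‖ ≤ B) (hb0 : 0 < b) (hb1 : b ≤ 1)
    (hwb : ∀ᵐ y ∂(volume.restrict (Ioo b 1)), (ω y : ℂ) = 0) {δ C s : ℝ} (hδs : δ < s)
    (hs0 : 0 < s) (hg : ∀ T : ℝ, 0 < T → gR c ω T ≤ C * Real.exp (δ * T))
    (hconv : ∀ σ > s, LInt (gR c ω) σ) (hnz : ∀ t : ℝ, s / b ≤ t → Φ t ≠ 0) :
    ∃ σ < s, LInt (fun T => C * ex δ T - gR c ω T) σ := by
  have hwm : Measurable fun y => (ω y : ℂ) := Complex.measurable_ofReal.comp hωm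
  set z0 : ℝ := s / b with hz0d
  have hz0 : 0 < z0 := by positivity
  have hz0b : z0 * b = s := by rw [hz0d]; field_simp
  obtain ⟨t1, η, ht1, ht1', hη, -, hT⟩ := tube (Ψ := Φ) E.hΦ (z0 := (z0 : ℂ)) (by simpa using hz0)
    (fun t ht => by
      have := hnz (z0 * t) (by nlinarith)
      push_cast at this
      exact this) fun u hu => E.ne_zero hu
  set q : ℂ → ℂ := fun v => Qf Φ G (z0 * v) with hq
  obtain ⟨M, hM0, hM⟩ := E.decay_scaled hz0
  have hqd : ∀ v ∈ TT t1 η, DifferentiableAt ℂ q v := by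
    intro v hv
    have h3 : 0 < ((z0 : ℂ) * v).re := by
      rw [Complex.re_ofReal_mul]
      have : 0 < v.re := ht1.trans_le hv.1
      positivity
    exact DifferentiableAt.comp (g := Qf Φ G) (f := fun v : ℂ => (z0 : ℂ) * v) v
      (E.Qf_diff h3 (hT v hv)) (by fun_prop)
  obtain ⟨C1, hC10, hC1⟩ := bound' (q := q) (V := 4 / z0) ht1 hη.le hM0
    (isClosed_TT t1 η) subset_rfl
    (fun v hv => (hqd v hv).continuousAt.continuousWithinAt) fun v _ hv => hM v hv
  have hLT : ∀ z : ℂ, z0 * b < z.re → DifferentiableAt ℂ (LT c fun y => (ω y : ℂ)) z := by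
    intro z hz
    rw [hz0b] at hz
    have h1 : LT c (fun y => (ω y : ℂ)) = lapC (gR c ω) := funext fun z => LT_eq_lapC c ω z
    rw [h1]
    exact lapC_differentiableAt (gR_meas hωm) hconv hz
  have hre := E.right_eq hwm hB hz0 hη hb0 hb1 hwb (fun v h1 h2 => hT v ⟨by linarith, h2⟩) hLT
  set ρ : ℝ := min (b * (1 - t1)) (η * (b * t1)) with hρ
  have hρ0 : 0 < ρ := lt_min (mul_pos hb0 (by linarith)) (by positivity)
  have hball : ∀ x ∈ Metric.ball (b : ℂ) ρ, b * t1 ≤ x.re ∧ |x.im| ≤ η * x.re := fun x hx => by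
    have := ball_TT hη.le (min_le_left _ _) (min_le_right _ _) hx
    exact ⟨this.1, this.2.1⟩
  have hHd : ∀ x ∈ Metric.ball (b : ℂ) ρ, DifferentiableAt ℂ (HH (fun y => (ω y : ℂ)) q b) x := by
    intro x hx
    obtain ⟨ρ', hρ', hsub⟩ := Metric.isOpen_iff.1 Metric.isOpen_ball x hx
    refine diff_gen (E := B * C1 / (b * t1) ^ 2) measurableSet_Ioo (fun y hy => hy.1) (by simp)
      (K := TT t1 η) hqd hwm hρ' (fun v hv y hy => ?_) ?_
    · have := hball v (hsub hv)
      exact mem_TT this.1 ht1 this.2 hy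
    · intro v hv y hy
      have := hball v (hsub hv)
      exact kernel_bound hB hb1 hC10 (by positivity) this.1 hy (hC1 _ (mem_TT this.1 ht1 this.2 hy))
  refine landau_lap (k := fun T => C * ex δ T - gR c ω T)
    (K := fun z : ℂ => C / (z - δ) - HH (fun y => (ω y : ℂ)) q b (z / z0))
    (((ex_meas δ).const_mul C).sub (gR_meas hωm)) (fun u hu => ?_) ?_ (fun σ hσ => ?_) ?_
  · have := hg u hu
    show 0 ≤ C * Real.exp (δ * u) - gR c ω u
    linarith
  · have hz0c : (z0 : ℂ) ≠ 0 := by exact_mod_cast hz0.ne'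
    have h1 : ∀ᶠ z : ℂ in 𝓝 (s : ℂ), z / (z0 : ℂ) ∈ Metric.ball (b : ℂ) ρ := by
      have h2 : Tendsto (fun z : ℂ => z / z0) (𝓝 (s : ℂ)) (𝓝 ((s : ℂ) / z0)) :=
        (continuous_id.div_const _).tendsto _
      have h3 : (s : ℂ) / z0 = b := by
        rw [← hz0b]
        push_cast
        field_simp
      rw [h3] at h2
      exact h2.eventually (Metric.ball_mem_nhds _ hρ0)
    have h4 : ∀ᶠ z in 𝓝 (s : ℂ), z ≠ (δ : ℂ) := by
      refine isOpen_ne.mem_nhds ?_
      show (s : ℂ) ≠ δ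
      exact_mod_cast hδs.ne'
    filter_upwards [h1, h4] with z h5 h6
    refine DifferentiableAt.sub ?_ ?_
    · exact (differentiableAt_const _).div (by fun_prop) (sub_ne_zero.2 h6)
    · exact DifferentiableAt.comp (g := HH (fun y => (ω y : ℂ)) q b) (f := fun z : ℂ => z / z0) z
        (hHd _ h5) (by fun_prop)
  · exact ((ex_LInt (by linarith)).const_mul C).sub (hconv σ hσ)
  · filter_upwards [self_mem_nhdsWithin] with σ hσ
    have hσs : s < σ := hσ
    have hδσ : δ < σ := by linarith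
    rw [lap_sub ((ex_LInt hδσ).const_mul C) (hconv σ hσ), lap_const_mul, ex_lap hδσ]
    have h1 : (lap (gR c ω) σ : ℂ) = HH (fun y => (ω y : ℂ)) q b ((σ : ℂ) / z0) := by
      rw [← lapC_ofReal, ← LT_eq_lapC]
      have h2 := hre ((σ : ℂ) / z0) (by
        rw [← Complex.ofReal_div, Complex.ofReal_re, lt_div_iff₀ hz0]
        linarith) (by
        rw [← Complex.ofReal_div, Complex.ofReal_re, Complex.ofReal_im, abs_zero]
        have : 0 < σ := by linarith
        positivity)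
      have h3 : (z0 : ℂ) * ((σ : ℂ) / z0) = σ := by
        have hz0c : (z0 : ℂ) ≠ 0 := by exact_mod_cast hz0.ne'
        field_simp
      rw [h3] at h2
      exact h2
    rw [Complex.ofReal_sub, h1]
    push_cast
    ring

theorem super_int (hωm : Measurable ω) (hB : ∀ y ∈ Icc (0 : ℝ) 1, ‖(ω y : ℂ)‖ ≤ B)
    (hb1 : b ≤ 1) {y1 : ℝ} (hy1 : 0 < y1) (n : ℕ) : ∀ y ∈ Ioo y1 b, ‖(n : ℝ) * ω y / y‖ ≤ n * B / y1 := by
  intro y hy
  have hy0 : 0 < y := hy1.trans hy.1
  have h1 := hB y ⟨hy0.le, hy.2.le.trans hb1⟩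
  rw [Complex.norm_real] at h1
  have h3 := hy.1.le
  rw [norm_div, norm_mul, Real.norm_of_nonneg hy0.le, Real.norm_natCast]
  have hB0 : 0 ≤ B := (norm_nonneg _).trans h1
  gcongr

/-- exponential growth of a superposition of exponentials -/
theorem super_lower (hωm : Measurable ω) (hω0 : ∀ y ∈ Icc (0 : ℝ) 1, 0 ≤ ω y)
    (hB : ∀ y ∈ Icc (0 : ℝ) 1, ‖(ω y : ℂ)‖ ≤ B) (hb1 : b ≤ 1) {y1 b' x β : ℝ} (hy1 : 0 < y1)
    (hb' : y1 ≤ b') (hβ : 0 < β) {n : ℕ} (hn : n ≠ 0) (hx1 : b' < x) (hx2 : x < b)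
    (hc : ContinuousAt (fun y => (ω y : ℂ)) x) (hne : (ω x : ℂ) ≠ 0) :
    ∃ κ : ℝ, 0 < κ ∧ ∀ T : ℝ, 0 < T → κ * Real.exp (β * b' * T) ≤
      ∫ y in Ioo y1 b, (n * ω y / y) * Real.exp (β * y * T) := by
  have hx0 : 0 < x := by linarith
  have hcr : ContinuousAt ω x := by
    have h1 : ContinuousAt (fun y => ((ω y : ℂ)).re) x := Complex.continuous_re.continuousAt.comp hc
    simpa using h1
  have hωx : 0 < ω x := by
    refine lt_of_le_of_ne (hω0 x ⟨hx0.le, by linarith⟩) fun h => hne ?_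
    rw [← h]
    simp
  have hev : ∀ᶠ y in 𝓝 x, ω x / 2 < ω y ∧ y ∈ Ioo b' b :=
    (hcr.eventually (lt_mem_nhds (by linarith : ω x / 2 < ω x))).and (Ioo_mem_nhds hx1 hx2)
  obtain ⟨ε, hε, hball⟩ := Metric.eventually_nhds_iff.1 hev
  have hI : ∀ y ∈ Ioo (x - ε) (x + ε), ω x / 2 < ω y ∧ y ∈ Ioo b' b := by
    intro y hy
    refine hball ?_
    rw [Real.dist_eq, abs_lt]
    constructor <;> linarith [hy.1, hy.2]
  have hn0 : (0 : ℝ) < n := by exact_mod_cast Nat.pos_of_ne_zero hn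
  refine ⟨2 * ε * (n * (ω x / 2)), by positivity, fun T hT => ?_⟩
  have hint : IntegrableOn (fun y => (n * ω y / y) * Real.exp (β * y * T)) (Ioo y1 b) := by
    have hfin : IsFiniteMeasure (volume.restrict (Ioo y1 b)) :=
      ⟨by rw [Measure.restrict_apply_univ]; simp⟩
    refine Integrable.mono' (integrable_const (n * B / y1 * Real.exp (β * b * T))) ?_ ?_
    · have : Measurable fun y => (n * ω y / y) * Real.exp (β * y * T) := by fun_prop
      exact this.aestronglyMeasurable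
    · filter_upwards [ae_restrict_mem measurableSet_Ioo] with y hy
      have h1 := super_int (n := n) hωm hB hb1 hy1 y hy
      rw [norm_mul, Real.norm_of_nonneg (Real.exp_pos _).le]
      have h2 := hy.2.le
      have h3 : (0 : ℝ) ≤ n * B / y1 := (norm_nonneg _).trans h1
      gcongr
  have hsub : Ioo (x - ε) (x + ε) ⊆ Ioo y1 b := fun y hy => ⟨hb'.trans_lt (hI y hy).2.1, (hI y hy).2.2⟩
  have h1 : ∫ y in Ioo (x - ε) (x + ε), (n * ω y / y) * Real.exp (β * y * T) ≤
      ∫ y in Ioo y1 b, (n * ω y / y) * Real.exp (β * y * T) := by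
    refine setIntegral_mono_set hint ?_ (ae_of_all _ hsub)
    filter_upwards [ae_restrict_mem measurableSet_Ioo] with y hy
    have hy0 : 0 < y := hy1.trans hy.1
    have := hω0 y ⟨hy0.le, hy.2.le.trans hb1⟩
    show 0 ≤ (n * ω y / y) * Real.exp (β * y * T)
    positivity
  refine le_trans ?_ h1
  have h2 : ∫ y in Ioo (x - ε) (x + ε), (n * (ω x / 2)) * Real.exp (β * b' * T) =
      2 * ε * (n * (ω x / 2)) * Real.exp (β * b' * T) := by
    rw [setIntegral_const, measureReal_def, Real.volume_Ioo, ENNReal.toReal_ofReal (by linarith),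
      smul_eq_mul]
    ring
  rw [← h2]
  refine setIntegral_mono_on (integrableOn_const (by simp)) (hint.mono_set hsub)
    measurableSet_Ioo fun y hy => ?_
  obtain ⟨h3, h4, h5⟩ := hI y hy
  have hy0 : 0 < y := by linarith
  have h6 : n * (ω x / 2) ≤ n * ω y / y := by
    rw [le_div_iff₀ hy0]
    have h7 : y ≤ 1 := h5.le.trans hb1
    have h8 : 0 ≤ n * (ω x / 2) := by positivity
    calc n * (ω x / 2) * y ≤ n * (ω x / 2) * 1 := by gcongr
      _ = n * (ω x / 2) := mul_one _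
      _ ≤ n * ω y := by gcongr
  have h9 : Real.exp (β * b' * T) ≤ Real.exp (β * y * T) := by
    apply Real.exp_le_exp.2
    gcongr
  have h10 : 0 ≤ n * ω y / y := le_trans (by positivity) h6
  exact mul_le_mul h6 h9 (Real.exp_pos _).le h10

/-- a real zero beyond `s / b` contradicts the upper bound -/
theorem Eul.caseB (E : Eul c Φ G) (hωm : Measurable ω)
    (hω0 : ∀ y ∈ Icc (0 : ℝ) 1, 0 ≤ ω y)
    (hB : ∀ y ∈ Icc (0 : ℝ) 1, ‖(ω y : ℂ)‖ ≤ B) (hb0 : 0 < b) (hb1 : b ≤ 1)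
    (hwb : ∀ᵐ y ∂(volume.restrict (Ioo b 1)), (ω y : ℂ) = 0)
    (hsup : ∀ b' < b, ∃ x : ℝ, b' < x ∧ x < b ∧ 0 < x ∧ ContinuousAt (fun y => (ω y : ℂ)) x ∧
      (ω x : ℂ) ≠ 0) {δ C s β : ℝ} (hδs : δ < s)
    (hs0 : 0 < s) (hg : ∀ T : ℝ, 0 < T → gR c ω T ≤ C * Real.exp (δ * T))
    (hconv : ∀ σ > s, LInt (gR c ω) σ) (hβs : s ≤ β * b) (hβ0 : 0 < β) (hβ : Φ β = 0)
    (hlast : ∀ t : ℝ, 1 < t → Φ (β * t) ≠ 0) : False := by
  have hwm : Measurable fun y => (ω y : ℂ) := Complex.measurable_ofReal.comp hωm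
  have hB0 : 0 ≤ B := (norm_nonneg _).trans (hB 0 ⟨le_rfl, zero_le_one⟩)
  obtain ⟨r, n, t1, η, M, V, ht1', hn, -, L, hΦv⟩ := E.loc (z0 := (β : ℂ)) (by simpa using hβ0) hβ hlast
  have ht1 := L.ht1
  have hη := L.hη
  set q : ℂ → ℂ := fun v => Qf Φ G (β * v) with hq
  set w : ℝ → ℂ := fun y => (ω y : ℂ) with hw
  have hβb : δ < β * b := by linarith
  have hLT : ∀ z : ℂ, β * b < z.re → DifferentiableAt ℂ (LT c w) z := by
    intro z hz
    have h1 : LT c w = lapC (gR c ω) := funext fun z => LT_eq_lapC c ω z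
    rw [h1]
    exact lapC_differentiableAt (gR_meas hωm) hconv (by linarith)
  have hre := E.right_eq hwm hB hβ0 hη hb0 hb1 hwb (fun v h1 h2 => hΦv v ⟨by linarith, h2⟩ (by
    rintro rfl
    simp at h1)) hLT
  set y1 : ℝ := b / 2 with hy1
  have hy10 : 0 < y1 := by positivity
  -- the regions
  set ρ : ℝ := min (b / 4) (min (b * (1 - t1)) (η * (b * t1))) with hρ
  have hρ0 : 0 < ρ := lt_min (by positivity) (lt_min (mul_pos hb0 (by linarith)) (by positivity))
  have hball : ∀ x ∈ Metric.ball (b : ℂ) ρ, b * t1 ≤ x.re ∧ |x.im| ≤ η * x.re ∧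
      3 / 4 * b ≤ x.re ∧ x.re ≤ 5 / 4 * b := by
    intro x hx
    obtain ⟨h1, h2, h3⟩ := ball_TT hη.le ((min_le_right _ _).trans (min_le_left _ _))
      ((min_le_right _ _).trans (min_le_right _ _)) hx
    have h4 : |x.re - b| < b / 4 := h3.trans_le (min_le_left _ _)
    rw [abs_lt] at h4
    exact ⟨h1, h2, by linarith, by linarith⟩
  set K1 : Set ℂ := TT t1 η ∩ {v | 3 / 2 ≤ v.re} with hK1
  obtain ⟨C1, hC10, hC1⟩ := L.bound (K := K1) ((isClosed_TT _ _).inter
    (isClosed_le continuous_const Complex.continuous_re)) inter_subset_left (by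
      rintro ⟨-, h⟩
      have : (3 : ℝ) / 2 ≤ (1 : ℂ).re := h
      rw [Complex.one_re] at this
      norm_num at this)
  have hq1 : ∀ v ∈ K1, DifferentiableAt ℂ q v := by
    rintro v ⟨h1, h2⟩
    refine L.hq v h1 ?_
    rintro rfl
    have : (3 : ℝ) / 2 ≤ (1 : ℂ).re := h2
    rw [Complex.one_re] at this
    norm_num at this
  have hmem1 : ∀ v : ℂ, b * t1 ≤ v.re → |v.im| ≤ η * v.re → 3 / 4 * b ≤ v.re → ∀ y ∈ Ioc 0 y1,
      v / (y : ℂ) ∈ K1 := by
    intro v hv1 hv2 hv3 y hy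
    have hyb : y ∈ Ioo 0 b := ⟨hy.1, by linarith [hy.2]⟩
    refine ⟨mem_TT hv1 ht1 hv2 hyb, ?_⟩
    show (3 : ℝ) / 2 ≤ (v / (y : ℂ)).re
    rw [Complex.div_ofReal_re, le_div_iff₀ hy.1]
    have := hy.2
    rw [hy1] at this
    linarith
  have hbd1 : ∀ v : ℂ, b * t1 ≤ v.re → |v.im| ≤ η * v.re → 3 / 4 * b ≤ v.re → ∀ y ∈ Ioc 0 y1,
      ‖-(w y * ((y : ℂ) ^ 2)⁻¹ * q (v / y))‖ ≤ B * C1 / (b * t1) ^ 2 := by
    intro v hv1 hv2 hv3 y hy
    have hyb : y ∈ Ioo 0 b := ⟨hy.1, by linarith [hy.2]⟩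
    exact kernel_bound hB hb1 hC10 (by positivity) hv1 hyb (hC1 _ (hmem1 v hv1 hv2 hv3 y hy))
  set K2 : Set ℂ := TT t1 η ∩ {v | v.re ≤ 4} with hK2
  have hK2c : IsCompact K2 := by
    refine Metric.isCompact_of_isClosed_isBounded ((isClosed_TT _ _).inter
      (isClosed_le Complex.continuous_re continuous_const)) ?_
    rw [isBounded_iff_forall_norm_le]
    refine ⟨4 + η * 4, fun v hv => ?_⟩
    have h2 := hv.1
    have h3 : v.re ≤ 4 := hv.2
    have h5 : 0 < v.re := lt_of_lt_of_le ht1 h2.1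
    refine (Complex.norm_le_abs_re_add_abs_im v).trans ?_
    rw [abs_of_pos h5]
    have h7 : η * v.re ≤ η * 4 := mul_le_mul_of_nonneg_left (by linarith) hη.le
    have := h2.2
    linarith
  obtain ⟨C2, hC2⟩ := hK2c.exists_bound_of_continuousOn (f := r) fun v hv =>
    (L.hr v hv.1).continuousAt.continuousWithinAt
  have hr2 : ∀ v ∈ K2, DifferentiableAt ℂ r v := fun v hv => L.hr v hv.1
  have hmem2 : ∀ v : ℂ, b * t1 ≤ v.re → |v.im| ≤ η * v.re → v.re ≤ 5 / 4 * b → ∀ y ∈ Ioo y1 b,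
      v / (y : ℂ) ∈ K2 := by
    intro v hv1 hv2 hv3 y hy
    have hy0 : 0 < y := hy10.trans hy.1
    have hyb : y ∈ Ioo 0 b := ⟨hy0, hy.2⟩
    refine ⟨mem_TT hv1 ht1 hv2 hyb, ?_⟩
    show (v / (y : ℂ)).re ≤ 4
    rw [Complex.div_ofReal_re, div_le_iff₀ hy0]
    have := hy.1
    rw [hy1] at this
    linarith
  have hbd2 : ∀ v : ℂ, b * t1 ≤ v.re → |v.im| ≤ η * v.re → v.re ≤ 5 / 4 * b → ∀ y ∈ Ioo y1 b,
      ‖-(w y * ((y : ℂ) ^ 2)⁻¹ * r (v / y))‖ ≤ B * (y1 ^ 2)⁻¹ * |C2| := by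
    intro v hv1 hv2 hv3 y hy
    have hy0 : 0 < y := hy10.trans hy.1
    have h1 := hB y ⟨hy0.le, hy.2.le.trans hb1⟩
    have h2 := (hC2 _ (hmem2 v hv1 hv2 hv3 y hy)).trans (le_abs_self C2)
    have h3 := hy.1.le
    have h4 : ‖(y : ℂ)‖ = y := by rw [Complex.norm_real, Real.norm_of_nonneg hy0.le]
    rw [norm_neg, norm_mul, norm_mul, norm_inv, norm_pow, h4]
    gcongr
  set f : ℝ → ℝ := fun y => n * ω y / y with hf
  have hfm : Measurable f := by rw [hf]; fun_prop
  set a : ℝ → ℝ := fun T => ∫ y in Ioo y1 b, f y * Real.exp (β * y * T) with ha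
  set J1 : ℂ → ℂ := fun v => ∫ y in Ioc 0 y1, -(w y * ((y : ℂ) ^ 2)⁻¹ * q (v / y)) with hJ1
  set J2 : ℂ → ℂ := fun v => ∫ y in Ioo y1 b, -(w y * ((y : ℂ) ^ 2)⁻¹ * r (v / y)) with hJ2
  have hsup2 : ∀ {σ : ℝ}, β * b < σ → LInt a σ ∧
      lap a σ = ∫ y in Ioo y1 b, f y * (1 / (σ - β * y)) := fun {σ} hσ =>
    lap_super (b := b) (y1 := y1) hβ0 hfm (super_int (n := n) hωm hB hb1 hy10) hσ
  have ham : Measurable a := by
    rw [ha]
    have h1 : StronglyMeasurable (Function.uncurry fun T y : ℝ => f y * Real.exp (β * y * T)) := by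
      refine Measurable.stronglyMeasurable ?_
      unfold Function.uncurry
      have h2 : Measurable fun p : ℝ × ℝ => f p.2 := hfm.comp measurable_snd
      fun_prop
    exact (h1.integral_prod_right (ν := volume.restrict (Ioo y1 b))).measurable
  have ha0 : ∀ T, 0 ≤ a T := by
    intro T
    refine setIntegral_nonneg measurableSet_Ioo fun y hy => ?_
    have hy0 : 0 < y := hy10.trans hy.1
    have := hω0 y ⟨hy0.le, hy.2.le.trans hb1⟩
    rw [hf]
    positivity
  -- the decomposition for real points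
  have hdec : ∀ x : ℝ, b < x → x ≤ 5 / 4 * b →
      HH w q b x = J1 x + (J2 x + (lap a (β * x) : ℝ)) := by
    intro x hx1 hx2
    have hxre : ((x : ℂ)).re = x := Complex.ofReal_re x
    have hxim : |((x : ℂ)).im| ≤ η * ((x : ℂ)).re := by
      rw [Complex.ofReal_im, abs_zero, Complex.ofReal_re]
      have : 0 < x := by linarith
      positivity
    have hbt : b * t1 ≤ ((x : ℂ)).re := by rw [hxre]; nlinarith
    have hx3 : 3 / 4 * b ≤ ((x : ℂ)).re := by rw [hxre]; linarith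
    have hx4 : ((x : ℂ)).re ≤ 5 / 4 * b := by rw [hxre]; exact hx2
    have hi1 : IntegrableOn (fun y : ℝ => -(w y * ((y : ℂ) ^ 2)⁻¹ * q ((x : ℂ) / y))) (Ioc 0 y1) :=
      int_gen measurableSet_Ioc (fun y hy => hy.1) (by simp) (fun v hv => (hq1 v hv).continuousAt)
        hwm (hmem1 x hbt hxim hx3) (hbd1 x hbt hxim hx3)
    have hi2 : IntegrableOn (fun y : ℝ => -(w y * ((y : ℂ) ^ 2)⁻¹ * r ((x : ℂ) / y))) (Ioo y1 b) :=
      int_gen measurableSet_Ioo (fun y hy => hy10.trans hy.1) (by simp)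
        (fun v hv => (hr2 v hv).continuousAt) hwm (hmem2 x hbt hxim hx4) (hbd2 x hbt hxim hx4)
    have hσ : β * b < β * x := by gcongr
    obtain ⟨hl1, hl2⟩ := hsup2 hσ
    have hi3 : IntegrableOn (fun y : ℝ => ((f y * (1 / (β * x - β * y)) : ℝ) : ℂ)) (Ioo y1 b) := by
      refine Integrable.ofReal ?_
      have hfin : IsFiniteMeasure (volume.restrict (Ioo y1 b)) :=
        ⟨by rw [Measure.restrict_apply_univ]; simp⟩
      refine Integrable.mono' (integrable_const (n * B / y1 * (1 / (β * x - β * b)))) ?_ ?_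
      · have : Measurable fun y : ℝ => f y * (1 / (β * x - β * y)) := by fun_prop
        exact this.aestronglyMeasurable
      · filter_upwards [ae_restrict_mem measurableSet_Ioo] with y hy
        have h1 := super_int (n := n) hωm hB hb1 hy10 y hy
        have h2 : β * y ≤ β * b := by
          have := hy.2.le
          gcongr
        have h3 : 0 < β * x - β * b := by linarith
        have h4 : 0 < β * x - β * y := by linarith
        have h5 : 1 / (β * x - β * y) ≤ 1 / (β * x - β * b) := by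
          apply one_div_le_one_div_of_le h3
          linarith
        have h6 : ‖f y * (1 / (β * x - β * y))‖ = ‖f y‖ * (1 / (β * x - β * y)) := by
          rw [norm_mul, Real.norm_of_nonneg (by positivity : 0 ≤ 1 / (β * x - β * y))]
        refine h6.le.trans ?_
        exact mul_le_mul h1 h5 (by positivity) ((norm_nonneg _).trans h1)
    have hpt : ∀ y ∈ Ioo y1 b, -(w y * ((y : ℂ) ^ 2)⁻¹ * q ((x : ℂ) / y)) =
        -(w y * ((y : ℂ) ^ 2)⁻¹ * r ((x : ℂ) / y)) + ((f y * (1 / (β * x - β * y)) : ℝ) : ℂ) := by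
      intro y hy
      have hy0 : 0 < y := hy10.trans hy.1
      have hyc : (y : ℂ) ≠ 0 := by exact_mod_cast hy0.ne'
      have hβc : (β : ℂ) ≠ 0 := by exact_mod_cast hβ0.ne'
      have hvyne : (x : ℂ) - y ≠ 0 := by
        rw [sub_ne_zero]
        intro h
        have : x = y := by exact_mod_cast h
        linarith [hy.2]
      have hne : (x : ℂ) / (y : ℂ) ≠ 1 := by
        intro h
        rw [div_eq_one_iff_eq hyc] at h
        exact hvyne (sub_eq_zero.2 h)
      rw [L.hqr _ (hmem2 x hbt hxim hx4 y hy).1 hne]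
      have e1 : ((n : ℂ) / (β : ℂ)) / ((x : ℂ) / (y : ℂ) - 1) = n * y / (β * (x - y)) := by
        have : (x : ℂ) / (y : ℂ) - 1 = (x - y) / y := by field_simp
        rw [this]
        field_simp
      rw [e1, hf, hw]
      push_cast
      have e2 : (β : ℂ) * x - β * y = β * (x - y) := by ring
      rw [e2]
      field_simp
      ring
    have hun : Ioo (0 : ℝ) b = Ioc 0 y1 ∪ Ioo y1 b := by
      rw [Ioc_union_Ioo_eq_Ioo hy10.le (by linarith)]
    have hdis : Disjoint (Ioc (0 : ℝ) y1) (Ioo y1 b) := by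
      rw [Set.disjoint_left]
      intro y h1 h2
      linarith [h1.2, h2.1]
    have hi4 : IntegrableOn (fun y : ℝ => -(w y * ((y : ℂ) ^ 2)⁻¹ * q ((x : ℂ) / y))) (Ioo y1 b) :=
      (hi2.add hi3).congr_fun (fun y hy => (hpt y hy).symm) measurableSet_Ioo
    unfold HH
    rw [hun, setIntegral_union hdis measurableSet_Ioo hi1 hi4]
    congr 1
    rw [hl2, ← integral_complex_ofReal, ← integral_add hi2 hi3]
    exact setIntegral_congr_fun measurableSet_Ioo hpt
  have hz0c : (β : ℂ) ≠ 0 := by exact_mod_cast hβ0.ne'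
  -- differentiability near `β b`
  have hJd : ∀ x ∈ Metric.ball (b : ℂ) ρ, DifferentiableAt ℂ J1 x ∧ DifferentiableAt ℂ J2 x := by
    intro x hx
    obtain ⟨ρ', hρ', hsub⟩ := Metric.isOpen_iff.1 Metric.isOpen_ball x hx
    constructor
    · refine diff_gen (E := B * C1 / (b * t1) ^ 2) measurableSet_Ioc (fun y hy => hy.1) (by simp)
        (K := K1) hq1 hwm hρ' (fun v hv y hy => ?_) ?_
      · have := hball v (hsub hv)
        exact hmem1 v this.1 this.2.1 this.2.2.1 y hy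
      · intro v hv y hy
        have := hball v (hsub hv)
        exact hbd1 v this.1 this.2.1 this.2.2.1 y hy
    · refine diff_gen (E := B * (y1 ^ 2)⁻¹ * |C2|) measurableSet_Ioo (fun y hy => hy10.trans hy.1)
        (by simp) (K := K2) hr2 hwm hρ' (fun v hv y hy => ?_) ?_
      · have := hball v (hsub hv)
        exact hmem2 v this.1 this.2.1 this.2.2.2 y hy
      · intro v hv y hy
        have := hball v (hsub hv)
        exact hbd2 v this.1 this.2.1 this.2.2.2 y hy
  have hkLInt : ∀ σ > β * b, LInt (fun T => (C * ex δ T - gR c ω T) + a T) σ := fun σ hσ =>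
    (((ex_LInt (by linarith)).const_mul C).sub (hconv σ (by linarith))).add (hsup2 hσ).1
  obtain ⟨σ0, hσ0, hk0⟩ := landau_lap (k := fun T => (C * ex δ T - gR c ω T) + a T) (s0 := β * b)
    (K := fun z : ℂ => C / (z - δ) - (J1 (z / β) + J2 (z / β)))
    ((((ex_meas δ).const_mul C).sub (gR_meas hωm)).add ham) (fun u hu => by
      have h1 := hg u hu
      have h2 := ha0 u
      show 0 ≤ (C * Real.exp (δ * u) - gR c ω u) + a u
      linarith) (by
      have h1 : ∀ᶠ z : ℂ in 𝓝 ((β * b : ℝ) : ℂ), z / (β : ℂ) ∈ Metric.ball (b : ℂ) ρ := by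
        have h2 : Tendsto (fun z : ℂ => z / (β : ℂ)) (𝓝 ((β * b : ℝ) : ℂ))
            (𝓝 (((β * b : ℝ) : ℂ) / β)) := (continuous_id.div_const _).tendsto _
        have h3 : ((β * b : ℝ) : ℂ) / β = b := by
          push_cast
          field_simp
        rw [h3] at h2
        exact h2.eventually (Metric.ball_mem_nhds _ hρ0)
      have h4 : ∀ᶠ z in 𝓝 ((β * b : ℝ) : ℂ), z ≠ (δ : ℂ) := by
        refine isOpen_ne.mem_nhds ?_
        show ((β * b : ℝ) : ℂ) ≠ δ
        exact_mod_cast hβb.ne'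
      filter_upwards [h1, h4] with z h5 h6
      have h7 := hJd _ h5
      refine DifferentiableAt.sub ?_ (DifferentiableAt.add ?_ ?_)
      · exact (differentiableAt_const _).div (by fun_prop) (sub_ne_zero.2 h6)
      · exact DifferentiableAt.comp (g := J1) (f := fun z : ℂ => z / (β : ℂ)) z h7.1 (by fun_prop)
      · exact DifferentiableAt.comp (g := J2) (f := fun z : ℂ => z / (β : ℂ)) z h7.2 (by fun_prop))
    hkLInt (by
      filter_upwards [Ioo_mem_nhdsGT (show β * b < β * (5 / 4 * b) by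
        have : b < 5 / 4 * b := by linarith
        gcongr)] with σ hσ
      have hσ1 : β * b < σ := hσ.1
      have hσ2 : σ < β * (5 / 4 * b) := hσ.2
      have hδσ : δ < σ := by linarith
      rw [lap_add (((ex_LInt hδσ).const_mul C).sub (hconv σ (by linarith))) (hsup2 hσ1).1,
        lap_sub ((ex_LInt hδσ).const_mul C) (hconv σ (by linarith)), lap_const_mul, ex_lap hδσ]
      have h3 : β * (σ / β) = σ := by field_simp
      have h4 : b < σ / β := by
        rw [lt_div_iff₀ hβ0]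
        linarith
      have h5 : σ / β ≤ 5 / 4 * b := by
        rw [div_le_iff₀ hβ0]
        linarith
      have h1 : (lap (gR c ω) σ : ℂ) = HH w q b ((σ / β : ℝ) : ℂ) := by
        rw [← lapC_ofReal, ← LT_eq_lapC]
        have h2 := hre ((σ / β : ℝ) : ℂ) (by rwa [Complex.ofReal_re]) (by
          rw [Complex.ofReal_re, Complex.ofReal_im, abs_zero]
          have : 0 < σ / β := by linarith
          positivity)
        rw [← Complex.ofReal_mul, h3] at h2
        exact h2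
      have h6 := hdec (σ / β) h4 h5
      rw [h3] at h6
      rw [Complex.ofReal_add, Complex.ofReal_sub, h1, h6]
      push_cast
      ring)
  -- the contradiction
  have hσb : max y1 (σ0 / β) < b := by
    refine max_lt (by rw [hy1]; linarith) ?_
    rw [div_lt_iff₀ hβ0]
    linarith
  obtain ⟨x, hx1, hx2, -, hx4, hx5⟩ := hsup _ hσb
  obtain ⟨κ, hκ, hlow⟩ := super_lower hωm hω0 hB hb1 hy10 (le_max_left y1 (σ0 / β)) hβ0 hn hx1 hx2
    hx4 hx5
  have hle : ∀ T ∈ Ioi (0 : ℝ), ‖κ‖ ≤ ((C * ex δ T - gR c ω T) + a T) * Real.exp (-(σ0 * T)) := by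
    intro T hT
    have hT0 : 0 < T := hT
    have h1 : 0 ≤ C * ex δ T - gR c ω T := by
      have := hg T hT
      show 0 ≤ C * Real.exp (δ * T) - gR c ω T
      linarith
    have h2 : κ * Real.exp (β * max y1 (σ0 / β) * T) ≤ a T := hlow T hT
    have h3 : σ0 * T ≤ β * max y1 (σ0 / β) * T := by
      have : σ0 ≤ β * max y1 (σ0 / β) := by
        have h4 : σ0 = β * (σ0 / β) := by field_simp
        calc σ0 = β * (σ0 / β) := h4
          _ ≤ β * max y1 (σ0 / β) := by
            have := le_max_right y1 (σ0 / β)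
            gcongr
      gcongr
    rw [Real.norm_of_nonneg hκ.le]
    calc κ = κ * Real.exp (σ0 * T) * Real.exp (-(σ0 * T)) := by
          rw [mul_assoc, ← Real.exp_add, add_neg_cancel, Real.exp_zero, mul_one]
      _ ≤ κ * Real.exp (β * max y1 (σ0 / β) * T) * Real.exp (-(σ0 * T)) := by
          have := Real.exp_le_exp.2 h3
          gcongr
      _ ≤ ((C * ex δ T - gR c ω T) + a T) * Real.exp (-(σ0 * T)) := by
          have : κ * Real.exp (β * max y1 (σ0 / β) * T) ≤ (C * ex δ T - gR c ω T) + a T := by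
            linarith
          gcongr
  have hconst : IntegrableOn (fun _ : ℝ => κ) (Ioi 0) := by
    refine Integrable.mono' hk0 aestronglyMeasurable_const ?_
    filter_upwards [ae_restrict_mem measurableSet_Ioi] with T hT using hle T hT
  rw [integrableOn_const_iff (by simp)] at hconst
  rcases hconst with h | h
  · exact hκ.ne' (by simpa using h)
  · simp at h

end Pool.Agent.L0h3.WB
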