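import Pool.Agent.L0h3.WB.Upper2

/-! One-sided bounds for nonnegative weights: zero-free half planes. -/

set_option autoImplicit false

namespace Pool.Agent.L0h3.WB

open MeasureTheory Filter Topology Set Classical
open Pool.Agent.W263.BSD (LInt lap lapC lapC_ofReal lapC_differentiableAt ex ex_LInt ex_lap
  ex_meas lap_sub lap_add lap_const_mul)

variable {c : ℕ → ℝ} {Φ G : ℂ → ℂ} {ω : ℝ → ℝ} {B b : ℝ}

theorem gR_up (hωm : Measurable ω) {δ C : ℝ}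
    (hg : ∀ T : ℝ, 0 < T → gR c ω T ≤ C * Real.exp (δ * T)) {σ0 σ : ℝ}
    (h : LInt (fun T => C * ex δ T - gR c ω T) σ0) (hle : σ0 ≤ σ) :
    LInt (fun T => C * ex δ T - gR c ω T) σ := by
  unfold LInt at h ⊢
  refine Integrable.mono' h ?_ ?_
  · exact ((((ex_meas δ).const_mul C).sub (gR_meas hωm)).mul (by fun_prop)).aestronglyMeasurable
  · filter_upwards [ae_restrict_mem measurableSet_Ioi] with T hT
    have hT0 : 0 < T := hT
    have h1 : 0 ≤ C * ex δ T - gR c ω T := by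
      have := hg T hT0
      show 0 ≤ C * Real.exp (δ * T) - gR c ω T
      linarith
    rw [norm_mul, Real.norm_of_nonneg h1, Real.norm_of_nonneg (Real.exp_pos _).le]
    gcongr

theorem gR_of_k {δ C σ : ℝ} (hσ : δ < σ) (h : LInt (fun T => C * ex δ T - gR c ω T) σ) :
    LInt (gR c ω) σ := by
  have h1 := ((ex_LInt hσ).const_mul C).sub h
  have e : (fun T => C * ex δ T - (C * ex δ T - gR c ω T)) = gR c ω := by
    funext T
    ring
  rwa [e] at h1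

theorem conv_of_step (hc : Co c) (hωm : Measurable ω)
    (hB : ∀ y ∈ Icc (0 : ℝ) 1, ‖(ω y : ℂ)‖ ≤ B) {δ C : ℝ}
    (hg : ∀ T : ℝ, 0 < T → gR c ω T ≤ C * Real.exp (δ * T))
    (hstep : ∀ s > δ, (∀ σ > s, LInt (gR c ω) σ) →
      ∃ σ < s, LInt (fun T => C * ex δ T - gR c ω T) σ) :
    ∀ σ > δ, LInt (gR c ω) σ := by
  set S : Set ℝ := {σ | δ < σ ∧ LInt (fun T => C * ex δ T - gR c ω T) σ} with hS
  have hne : S.Nonempty := by
    refine ⟨max δ 1 + 1, ?_, ?_⟩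
    · have := le_max_left δ 1
      linarith
    · refine ((ex_LInt ?_).const_mul C).sub (gR_LInt hc hωm hB ?_)
      · have := le_max_left δ 1
        linarith
      · have := le_max_right δ 1
        linarith
  have hbd : BddBelow S := ⟨δ, fun σ hσ => hσ.1.le⟩
  have hup : ∀ σ > sInf S, δ < σ → LInt (gR c ω) σ := by
    intro σ hσ hδσ
    obtain ⟨σ', hσ', hlt⟩ := exists_lt_of_csInf_lt hne hσ
    exact gR_of_k hδσ (gR_up hωm hg hσ'.2 hlt.le)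
  by_cases hs : sInf S ≤ δ
  · intro σ hσ
    exact hup σ (by linarith) hσ
  · push Not at hs
    exfalso
    obtain ⟨σ1, hσ1, hk⟩ := hstep (sInf S) hs fun σ hσ => hup σ hσ (by linarith)
    set σ2 : ℝ := max σ1 ((δ + sInf S) / 2) with hσ2
    have h1 : σ2 < sInf S := max_lt hσ1 (by linarith)
    have h2 : δ < σ2 := lt_of_lt_of_le (by linarith) (le_max_right σ1 ((δ + sInf S) / 2))
    have h3 : σ2 ∈ S := ⟨h2, gR_up hωm hg hk (le_max_left _ _)⟩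
    exact absurd (csInf_le hbd h3) (not_le.2 h1)

/-- if there are no real zeros, a one-sided bound gives convergence -/
theorem Eul.conv_free (E : Eul c Φ G) (hωm : Measurable ω)
    (hB : ∀ y ∈ Icc (0 : ℝ) 1, ‖(ω y : ℂ)‖ ≤ B) {δ C : ℝ} (hδ : 0 ≤ δ)
    (hg : ∀ T : ℝ, 0 < T → gR c ω T ≤ C * Real.exp (δ * T))
    (hnz : ∀ t : ℝ, 0 < t → Φ t ≠ 0) : ∀ σ > δ, LInt (gR c ω) σ :=
  conv_of_step E.co hωm hB hg fun s hs hconv =>
    E.caseA hωm hB one_pos le_rfl (by simp) hs (by linarith) hg hconv fun t ht =>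
      hnz t (by rw [div_one] at ht; linarith)

/-- a one-sided bound for a nonnegative weight gives convergence -/
theorem Eul.conv_upper (E : Eul c Φ G) (hωm : Measurable ω)
    (hω0 : ∀ y ∈ Icc (0 : ℝ) 1, 0 ≤ ω y)
    (hB : ∀ y ∈ Icc (0 : ℝ) 1, ‖(ω y : ℂ)‖ ≤ B) (hb0 : 0 < b) (hb1 : b ≤ 1)
    (hwb : ∀ᵐ y ∂(volume.restrict (Ioo b 1)), (ω y : ℂ) = 0)
    (hsup : ∀ b' < b, ∃ x : ℝ, b' < x ∧ x < b ∧ 0 < x ∧ ContinuousAt (fun y => (ω y : ℂ)) x ∧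
      (ω x : ℂ) ≠ 0) {δ C : ℝ} (hδ : 0 ≤ δ)
    (hg : ∀ T : ℝ, 0 < T → gR c ω T ≤ C * Real.exp (δ * T)) : ∀ σ > δ, LInt (gR c ω) σ := by
  refine conv_of_step E.co hωm hB hg fun s hs hconv => ?_
  have hs0 : 0 < s := by linarith
  by_cases hz : ∀ t : ℝ, s / b ≤ t → Φ t ≠ 0
  · exact E.caseA hωm hB hb0 hb1 hwb hs hs0 hg hconv hz
  · push Not at hz
    obtain ⟨t, ht, hΦt⟩ := hz
    have ht0 : 0 < t := lt_of_lt_of_le (by positivity) ht
    obtain ⟨z0, hz1, hz0, hlast, t0, ht0', rfl⟩ := E.last (z1 := (t : ℂ)) (by simpa using ht0) hΦt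
    exfalso
    refine E.caseB (β := t * t0) hωm hω0 hB hb0 hb1 hwb hsup hs hs0 hg hconv ?_ (by positivity)
      (by push_cast; exact hz0) (fun u hu => by push_cast; exact hlast u hu)
    rw [div_le_iff₀ hb0] at ht
    have h1 : t ≤ t * t0 := le_mul_of_one_le_right ht0.le ht0'
    calc s ≤ t * b := ht
      _ ≤ t * t0 * b := by gcongr

/-- the zero-free half plane, for weights continuous almost everywhere -/
theorem Eul.no_zero_upper (E : Eul c Φ G) (hωm : Measurable ω)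
    (hω0 : ∀ y ∈ Icc (0 : ℝ) 1, 0 ≤ ω y)
    (hB : ∀ y ∈ Icc (0 : ℝ) 1, ‖(ω y : ℂ)‖ ≤ B)
    (hc : ∀ᵐ y ∂(volume.restrict (Ioo (0 : ℝ) 1)), ContinuousAt (fun y => (ω y : ℂ)) y)
    {δ C : ℝ} (hδ : 0 ≤ δ)
    (hg : ∀ T : ℝ, 0 < T → gR c ω T ≤ C * Real.exp (δ * T)) {y0 : ℝ}
    (hy0 : y0 ∈ Ioo (0 : ℝ) 1) (hwc : ContinuousAt (fun y => (ω y : ℂ)) y0)
    (hw0 : (ω y0 : ℂ) ≠ 0) {z1 : ℂ} (hz1 : δ / y0 < z1.re) : Φ z1 ≠ 0 := by
  have hwm : Measurable fun y => (ω y : ℂ) := Complex.measurable_ofReal.comp hωm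
  obtain ⟨b, hyb, hb1, hwb, hsup⟩ := exists_end hc hy0 hwc hw0
  have hb0 : 0 < b := hy0.1.trans_le hyb
  have hconv := E.conv_upper hωm hω0 hB hb0 hb1 hwb hsup hδ hg
  refine E.no_zero' hwm hB hc hδ (fun z hz => ?_) hy0 hwc hw0 hz1
  have h1 : LT c (fun y => (ω y : ℂ)) = lapC (gR c ω) := funext fun z => LT_eq_lapC c ω z
  rw [h1]
  exact lapC_differentiableAt (gR_meas hωm) hconv hz

/-- real averages -/
noncomputable def avR (ω : ℝ → ℝ) (h y : ℝ) : ℝ :=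
  ∫ s in Ioo (1 - h) 1, if y ≤ s then ω (y / s) else 0

theorem avR_cast (ω : ℝ → ℝ) (h y : ℝ) : (avR ω h y : ℂ) = av (fun y => (ω y : ℂ)) h y := by
  unfold avR av
  rw [← integral_complex_ofReal]
  congr 1
  funext s
  split_ifs <;> simp

theorem avR_meas (hωm : Measurable ω) (h : ℝ) : Measurable (avR ω h) := by
  have h1 : avR ω h = fun y => (av (fun y => (ω y : ℂ)) h y).re := by
    funext y
    rw [← avR_cast, Complex.ofReal_re]
  rw [h1]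
  exact Complex.measurable_re.comp (av_meas (Complex.measurable_ofReal.comp hωm) h)

theorem avR_nonneg (hω0 : ∀ y ∈ Icc (0 : ℝ) 1, 0 ≤ ω y) {h : ℝ} (h1 : h < 1) {y : ℝ}
    (hy : y ∈ Icc (0 : ℝ) 1) : 0 ≤ avR ω h y := by
  refine setIntegral_nonneg measurableSet_Ioo fun s hs => ?_
  have hs0 : 0 < s := by linarith [hs.1]
  show 0 ≤ if y ≤ s then ω (y / s) else 0
  split_ifs with h3
  · exact hω0 _ ⟨div_nonneg hy.1 hs0.le, (div_le_one hs0).2 h3⟩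
  · exact le_rfl

theorem gR_bd (hc : Co c) (hB : ∀ y ∈ Icc (0 : ℝ) 1, ‖(ω y : ℂ)‖ ≤ B) (T : ℝ) :
    ‖gR c ω T‖ ≤ B * (Real.exp T + 1) := by
  have := gT_trivial hc hB T
  rwa [← gR_cast, Complex.norm_real] at this

theorem gR_av (hωm : Measurable ω) (hB : ∀ y ∈ Icc (0 : ℝ) 1, ‖(ω y : ℂ)‖ ≤ B)
    {h : ℝ} (h0 : 0 < h) (h1 : h < 1) {T : ℝ} (hT : 0 < T) :
    gR c (avR ω h) T = ∫ s in Ioo (1 - h) 1, gR c ω (s * T) := by
  have hwm : Measurable fun y => (ω y : ℂ) := Complex.measurable_ofReal.comp hωm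
  have h2 := gT_av (c := c) hwm hB h0 h1 hT
  have h3 : (av (fun y => (ω y : ℂ)) h) = fun y => (avR ω h y : ℂ) := by
    funext y
    rw [avR_cast]
  rw [h3, ← gR_cast] at h2
  have h4 : ∫ s in Ioo (1 - h) 1, gT c (fun y => (ω y : ℂ)) (s * T) =
      ((∫ s in Ioo (1 - h) 1, gR c ω (s * T) : ℝ) : ℂ) := by
    rw [← integral_complex_ofReal]
    congr 1
    funext s
    rw [gR_cast]
  rw [h4] at h2
  exact_mod_cast h2

theorem gR_int (hc : Co c) (hωm : Measurable ω) (hB : ∀ y ∈ Icc (0 : ℝ) 1, ‖(ω y : ℂ)‖ ≤ B)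
    {h : ℝ} (h0 : 0 < h) (h1 : h < 1) {T : ℝ} (hT : 0 < T) :
    IntegrableOn (fun s => gR c ω (s * T)) (Ioo (1 - h) 1) := by
  have hB0 : 0 ≤ B := (norm_nonneg _).trans (hB 0 ⟨le_rfl, zero_le_one⟩)
  refine Integrable.mono' (g := fun _ => B * (Real.exp T + 1)) (integrable_const _)
    ((gR_meas hωm).comp (by fun_prop)).aestronglyMeasurable ?_
  filter_upwards [ae_restrict_mem measurableSet_Ioo] with s hs
  refine (gR_bd hc hB _).trans ?_
  have : s * T ≤ T := by nlinarith [hs.2]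
  gcongr

theorem gR_av_le (hc : Co c) (hωm : Measurable ω) (hB : ∀ y ∈ Icc (0 : ℝ) 1, ‖(ω y : ℂ)‖ ≤ B)
    {h : ℝ} (h0 : 0 < h) (h1 : h < 1) {T : ℝ} (hT : 0 < T) {K : ℝ}
    (hK : ∀ s ∈ Ioo (1 - h) 1, gR c ω (s * T) ≤ K) : gR c (avR ω h) T ≤ h * K := by
  rw [gR_av hωm hB h0 h1 hT]
  have h2 : ∫ _s in Ioo (1 - h) 1, K = h * K := by
    rw [setIntegral_const, Measure.real, Real.volume_Ioo, smul_eq_mul,
      ENNReal.toReal_ofReal (by linarith)]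
    ring
  rw [← h2]
  exact setIntegral_mono_on (gR_int hc hωm hB h0 h1 hT) (integrable_const _) measurableSet_Ioo hK

/-- **Zeros are bounded by one-sided growth, for nonnegative measurable weights.** -/
theorem Eul.no_zero_upper_meas (E : Eul c Φ G) (hωm : Measurable ω)
    (hω0 : ∀ y ∈ Icc (0 : ℝ) 1, 0 ≤ ω y)
    (hB : ∀ y ∈ Icc (0 : ℝ) 1, ‖(ω y : ℂ)‖ ≤ B)
    {δ C : ℝ} (hδ : 0 ≤ δ) (hC : 0 ≤ C)
    (hg : ∀ T : ℝ, 0 < T → gR c ω T ≤ C * Real.exp (δ * T)) {y0 : ℝ}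
    (hy0 : y0 ∈ Ioo (0 : ℝ) 1) (hne : ¬ ∀ᵐ y ∂(volume.restrict (Ioo y0 1)), (ω y : ℂ) = 0)
    {z1 : ℂ} (hz1 : δ / y0 < z1.re) : Φ z1 ≠ 0 := by
  have hwm : Measurable fun y => (ω y : ℂ) := Complex.measurable_ofReal.comp hωm
  obtain ⟨h, y, h0, h1, hy, hav⟩ := av_ne hwm hB hy0 hne
  have hyp : 0 < y := hy0.1.trans hy.1
  have hcast : (fun y => (avR ω h y : ℂ)) = av (fun y => (ω y : ℂ)) h := by
    funext y
    rw [avR_cast]
  refine E.no_zero_upper (ω := avR ω h) (B := B) (avR_meas hωm h) (fun y hy => avR_nonneg hω0 h1 hy)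
    (fun y hy => ?_) ?_ hδ (C := C) (fun T hT => ?_) (y0 := y) ⟨hyp, hy.2⟩ ?_ ?_ ?_
  · rw [avR_cast]
    exact av_bound hB h0 h1 hy
  · rw [hcast]
    filter_upwards [ae_restrict_mem measurableSet_Ioo] with t ht
    exact av_cont hwm hB h0 h1 ht.1
  · refine (gR_av_le E.co hωm hB h0 h1 hT (K := C * Real.exp (δ * T)) fun s hs => ?_).trans ?_
    · have hs0 : 0 < s := by linarith [hs.1]
      refine (hg (s * T) (by positivity)).trans ?_
      gcongr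
      nlinarith [hs.2]
    · have h3 : 0 ≤ C * Real.exp (δ * T) := by positivity
      nlinarith
  · rw [hcast]
    exact av_cont hwm hB h0 h1 hyp
  · rw [avR_cast]
    exact hav
  · refine lt_of_le_of_lt ?_ hz1
    have := hy.1.le
    have := hy0.1
    gcongr

end Pool.Agent.L0h3.WB
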