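import Pool.Agent.L0h3.WB.Gro
import Pool.Agent.L0h3.WB.Jump

/-! Zeros to the right of the growth exponent are impossible. -/

set_option autoImplicit false

namespace Pool.Agent.L0h3.WB

open MeasureTheory Filter Topology Set Classical

/-- an Euler product with entire continuation `Φ` and correction `G` -/
structure Eul (c : ℕ → ℝ) (Φ G : ℂ → ℂ) : Prop where
  co : Co c
  hΦ : Differentiable ℂ Φ
  hG : ∀ z : ℂ, 0 < z.re → DifferentiableAt ℂ G z
  eq : ∀ z : ℂ, 1 < z.re → Φ z = Complex.exp (G z - ff c z)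

/-- the continuation of the derivative of the series -/
noncomputable def Qf (Φ G : ℂ → ℂ) (u : ℂ) : ℂ := deriv G u - deriv Φ u / Φ u

variable {c : ℕ → ℝ} {Φ G : ℂ → ℂ} {w : ℝ → ℂ} {B b : ℝ}

theorem Eul.ne_zero (E : Eul c Φ G) {z : ℂ} (hz : 1 < z.re) : Φ z ≠ 0 := by
  rw [E.eq z hz]
  exact Complex.exp_ne_zero _

theorem Eul.Qf_eq (E : Eul c Φ G) {z : ℂ} (hz : 1 < z.re) : Qf Φ G z = f1 c z := by
  have h1 : Φ =ᶠ[𝓝 z] fun z => Complex.exp (G z - ff c z) := by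
    filter_upwards [(isOpen_half 1).mem_nhds hz] with v hv
    exact E.eq v hv
  have h2 : HasDerivAt Φ (Complex.exp (G z - ff c z) * (deriv G z - f1 c z)) z :=
    (((E.hG z (by linarith)).hasDerivAt.sub (E.co.f1_hasSum hz).2).cexp).congr_of_eventuallyEq h1
  unfold Qf
  rw [h2.deriv, E.eq z hz, mul_div_cancel_left₀ _ (Complex.exp_ne_zero _)]
  ring

/-- factoring out a zero of an entire function -/
theorem factor (hΦ : Differentiable ℂ Φ) {z0 : ℂ} {n : ℕ} (hn : analyticOrderAt Φ z0 = n) :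
    ∃ Ψ : ℂ → ℂ, Differentiable ℂ Ψ ∧ Ψ z0 ≠ 0 ∧ ∀ u, Φ u = (u - z0) ^ n * Ψ u := by
  obtain ⟨g, hg, hg0, he⟩ := ((hΦ.analyticAt z0).analyticOrderAt_eq_natCast).mp hn
  set Ψ : ℂ → ℂ := fun u => if u = z0 then g z0 else Φ u / (u - z0) ^ n with hΨ
  have hΨ0 : Ψ z0 = g z0 := by simp [hΨ]
  have hΨe : Ψ =ᶠ[𝓝 z0] g := by
    filter_upwards [he] with u hu
    rw [hΨ]
    simp only
    split_ifs with h
    · rw [h]
    · rw [hu, smul_eq_mul]
      have : u - z0 ≠ 0 := sub_ne_zero.2 h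
      field_simp
  refine ⟨Ψ, fun u => ?_, by rw [hΨ0]; exact hg0, fun u => ?_⟩
  · by_cases h : u = z0
    · rw [h]
      exact (hg.differentiableAt).congr_of_eventuallyEq hΨe
    · have h2 : Ψ =ᶠ[𝓝 u] fun u => Φ u / (u - z0) ^ n := by
        filter_upwards [isOpen_ne.mem_nhds h] with v hv
        rw [hΨ]
        simp only
        rw [if_neg hv]
      refine DifferentiableAt.congr_of_eventuallyEq ?_ h2
      have : (u - z0) ^ n ≠ 0 := pow_ne_zero _ (sub_ne_zero.2 h)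
      exact (hΦ u).div (by fun_prop) this
  · by_cases h : u = z0
    · rw [h]
      have h3 := he.self_of_nhds
      rw [smul_eq_mul] at h3
      rw [h3, hΨ0]
    · rw [hΨ]
      simp only
      rw [if_neg h]
      have : (u - z0) ≠ 0 := sub_ne_zero.2 h
      field_simp

theorem Eul.order_finite (E : Eul c Φ G) (z : ℂ) : ∃ n : ℕ, analyticOrderAt Φ z = n := by
  have hne : analyticOrderAt Φ z ≠ ⊤ := by
    intro htop
    rw [analyticOrderAt_eq_top] at htop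
    have h1 : AnalyticOnNhd ℂ Φ univ := E.hΦ.differentiableOn.analyticOnNhd isOpen_univ
    have h2 := h1.eqOn_zero_of_preconnected_of_eventuallyEq_zero isPreconnected_univ
      (mem_univ z) htop
    exact E.ne_zero (z := 3) (by norm_num) (h2 (mem_univ _))
  obtain ⟨r, hr⟩ := ENat.ne_top_iff_exists.mp hne
  exact ⟨r, hr.symm⟩

/-- the last zero on the ray through a zero -/
theorem Eul.last (E : Eul c Φ G) {z1 : ℂ} (h1 : 0 < z1.re) (hz1 : Φ z1 = 0) :
    ∃ z0 : ℂ, z1.re ≤ z0.re ∧ Φ z0 = 0 ∧ (∀ t : ℝ, 1 < t → Φ (z0 * t) ≠ 0) ∧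
      ∃ t0 : ℝ, 1 ≤ t0 ∧ z0 = z1 * t0 := by
  set Z : Set ℝ := {t | 1 ≤ t ∧ Φ (z1 * t) = 0} with hZ
  have hcl : IsClosed Z := by
    refine (isClosed_le continuous_const continuous_id).inter (isClosed_eq ?_ continuous_const)
    exact E.hΦ.continuous.comp (by fun_prop)
  have hbd : ∀ t ∈ Z, t ≤ 1 / z1.re := by
    intro t ht
    by_contra hc
    push Not at hc
    rw [div_lt_iff₀ h1] at hc
    refine E.ne_zero ?_ ht.2
    rw [Complex.re_mul_ofReal]
    linarith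
  have hne : Z.Nonempty := ⟨1, le_rfl, by simpa using hz1⟩
  have hba : BddAbove Z := ⟨_, hbd⟩
  have hmem := hcl.csSup_mem hne hba
  set t0 := sSup Z with ht0
  have ht1 : 1 ≤ t0 := hmem.1
  refine ⟨z1 * t0, ?_, hmem.2, fun t ht h => ?_, t0, ht1, rfl⟩
  · rw [Complex.re_mul_ofReal]
    nlinarith
  · have h2 : t0 * t ∈ Z := by
      refine ⟨by nlinarith, ?_⟩
      have e : z1 * ((t0 * t : ℝ) : ℂ) = z1 * t0 * t := by push_cast; ring
      rw [e]
      exact h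
    have := le_csSup hba h2
    nlinarith

theorem sector_re {z0 v : ℂ} {η : ℝ} (hη : η * |z0.im| ≤ z0.re / 2) (hv0 : 0 ≤ v.re)
    (hv : |v.im| ≤ η * v.re) : z0.re / 2 * v.re ≤ (z0 * v).re := by
  rw [Complex.mul_re]
  have h1 : z0.im * v.im ≤ |z0.im| * (η * v.re) := by
    calc z0.im * v.im ≤ |z0.im * v.im| := le_abs_self _
      _ = |z0.im| * |v.im| := abs_mul _ _
      _ ≤ _ := by gcongr
  have h2 : |z0.im| * (η * v.re) ≤ z0.re / 2 * v.re := by
    calc |z0.im| * (η * v.re) = (η * |z0.im|) * v.re := by ring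
      _ ≤ _ := mul_le_mul_of_nonneg_right hη hv0
  linarith

/-- a tube without zeros around the ray -/
theorem tube {Ψ : ℂ → ℂ} (hΨ : Differentiable ℂ Ψ) {z0 : ℂ} (h0 : 0 < z0.re)
    (hΨ1 : ∀ t : ℝ, 1 ≤ t → Ψ (z0 * t) ≠ 0) (hΨb : ∀ u : ℂ, 1 < u.re → Ψ u ≠ 0) :
    ∃ t1 η : ℝ, 0 < t1 ∧ t1 < 1 ∧ 0 < η ∧ η * |z0.im| ≤ z0.re / 2 ∧
      ∀ v ∈ TT t1 η, Ψ (z0 * v) ≠ 0 := by
  -- extend a bit to the left
  have hc : Continuous fun t : ℝ => Ψ (z0 * t) := hΨ.continuous.comp (by fun_prop)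
  obtain ⟨ε, hε, h2⟩ := Metric.eventually_nhds_iff.1
    (hc.continuousAt.eventually_ne (hΨ1 1 le_rfl))
  set t1 : ℝ := max (1 / 2) (1 - ε / 2) with ht1
  have ht1a : 0 < t1 := lt_of_lt_of_le (by norm_num) (le_max_left _ _)
  have ht1b : t1 < 1 := max_lt (by norm_num) (by linarith)
  have h3 : ∀ t : ℝ, t1 ≤ t → Ψ (z0 * t) ≠ 0 := by
    intro t ht
    by_cases h : 1 ≤ t
    · exact hΨ1 t h
    · push Not at h
      refine h2 ?_
      have := (le_max_right (1 / 2) (1 - ε / 2)).trans ht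
      rw [Real.dist_eq, abs_lt]
      constructor <;> linarith
  set T0 : ℝ := 2 / z0.re + 1 with hT0
  -- compactness
  have h4 : ∀ᶠ s : ℝ in 𝓝 0, ∀ t ∈ Icc t1 T0, Ψ (z0 * (t * (1 + s * Complex.I))) ≠ 0 := by
    refine (isCompact_Icc).eventually_forall_of_forall_eventually fun t ht => ?_
    have h5 : Continuous fun p : ℝ × ℝ => Ψ (z0 * (p.2 * (1 + p.1 * Complex.I))) :=
      hΨ.continuous.comp (by fun_prop)
    have h6 : (fun p : ℝ × ℝ => Ψ (z0 * (p.2 * (1 + p.1 * Complex.I)))) ((0 : ℝ), t) ≠ 0 := by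
      have := h3 t ht.1
      simpa using this
    exact h5.continuousAt.eventually_ne h6
  obtain ⟨η0, hη0, h5⟩ := Metric.eventually_nhds_iff.1 h4
  set η : ℝ := min (η0 / 2) (z0.re / 2 / (|z0.im| + 1)) with hη
  have hηp : 0 < η := lt_min (by positivity) (by positivity)
  have hη1 : η * |z0.im| ≤ z0.re / 2 := by
    have h6 : η ≤ z0.re / 2 / (|z0.im| + 1) := min_le_right _ _
    rw [le_div_iff₀ (by positivity)] at h6
    nlinarith
  refine ⟨t1, η, ht1a, ht1b, hηp, hη1, fun v hv => ?_⟩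
  have hvr : 0 < v.re := lt_of_lt_of_le ht1a hv.1
  by_cases hT : v.re ≤ T0
  · have h7 := h5 (y := v.im / v.re) (by
      rw [Real.dist_eq, sub_zero, abs_div, abs_of_pos hvr, div_lt_iff₀ hvr]
      have h8 : η ≤ η0 / 2 := min_le_left _ _
      have h9 := hv.2
      nlinarith) v.re ⟨hv.1, hT⟩
    have e1 : (v.re : ℂ) * (1 + ((v.im / v.re : ℝ) : ℂ) * Complex.I) = v := by
      have : (v.re : ℂ) ≠ 0 := by exact_mod_cast hvr.ne'
      push_cast
      field_simp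
      exact Complex.re_add_im v
    rwa [e1] at h7
  · push Not at hT
    apply hΨb
    have h7 := sector_re hη1 hvr.le hv.2
    have h8 : z0.re / 2 * T0 < z0.re / 2 * v.re := by gcongr
    have h9 : z0.re / 2 * T0 = 1 + z0.re / 2 := by
      rw [hT0]; field_simp
    linarith

theorem exp_neg_le {κ t : ℝ} (hκ : 0 < κ) (ht : 0 < t) : Real.exp (-(κ * t)) ≤ 2 / κ ^ 2 / t ^ 2 := by
  have h1 : 0 < κ * t := by positivity
  have h2 := Real.quadratic_le_exp_of_nonneg h1.le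
  rw [Real.exp_neg, div_div, inv_le_comm₀ (Real.exp_pos _) (by positivity)]
  have h3 : (2 / (κ ^ 2 * t ^ 2))⁻¹ = (κ * t) ^ 2 / 2 := by
    rw [inv_div]; ring
  rw [h3]
  nlinarith

/-- the local data at the last zero on a ray -/
theorem Eul.loc (E : Eul c Φ G) {z0 : ℂ} (h0 : 0 < z0.re) (hz0 : Φ z0 = 0)
    (hlast : ∀ t : ℝ, 1 < t → Φ (z0 * t) ≠ 0) :
    ∃ (r : ℂ → ℂ) (n : ℕ) (t1 η M V : ℝ), t1 < 1 ∧ n ≠ 0 ∧ η * |z0.im| ≤ z0.re / 2 ∧
      Loc (fun v => Qf Φ G (z0 * v)) r ((n : ℂ) / z0) t1 η M V ∧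
      ∀ v ∈ TT t1 η, v ≠ 1 → Φ (z0 * v) ≠ 0 := by
  obtain ⟨n, hn⟩ := E.order_finite z0
  have hn0 : n ≠ 0 := by
    rintro rfl
    exact (E.hΦ.analyticAt z0).analyticOrderAt_eq_zero.1 (by simpa using hn) hz0
  obtain ⟨Ψ, hΨ, hΨ0, hΨf⟩ := factor E.hΦ hn
  have hz0ne : z0 ≠ 0 := by
    rintro rfl
    simp at h0
  have hΨne : ∀ u, Φ u ≠ 0 → Ψ u ≠ 0 := by
    intro u hu h
    exact hu (by rw [hΨf, h, mul_zero])
  obtain ⟨t1, η, ht1, ht1', hη, hη1, hT⟩ := tube hΨ h0 (fun t ht => by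
    rcases ht.lt_or_eq with h | h
    · exact hΨne _ (hlast t h)
    · rw [← h]
      simpa using hΨ0) fun u hu => hΨne _ (E.ne_zero hu)
  obtain ⟨M0, hM0, hM1⟩ := E.co.f1_le
  set κ : ℝ := z0.re / 2 with hκ
  have hκ0 : 0 < κ := by positivity
  have hre : ∀ v ∈ TT t1 η, 0 < v.re ∧ κ * v.re ≤ (z0 * v).re := fun v hv => by
    have hvr : 0 < v.re := lt_of_lt_of_le ht1 hv.1
    exact ⟨hvr, sector_re hη1 hvr.le hv.2⟩
  have hGd : ∀ u : ℂ, 0 < u.re → DifferentiableAt ℂ (deriv G) u := by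
    intro u hu
    have h1 : DifferentiableOn ℂ G {z : ℂ | 0 < z.re} := fun z hz =>
      (E.hG z hz).differentiableWithinAt
    have h2 := (h1.analyticOnNhd (isOpen_half 0)).deriv
    exact (h2 u hu).differentiableAt
  have hΨd : Differentiable ℂ (deriv Ψ) := fun u => ((hΨ.analyticAt u).deriv).differentiableAt
  have hΦd : Differentiable ℂ (deriv Φ) := fun u => ((E.hΦ.analyticAt u).deriv).differentiableAt
  have hΦv : ∀ v ∈ TT t1 η, v ≠ 1 → Φ (z0 * v) ≠ 0 := by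
    intro v hv hv1
    rw [hΨf]
    refine mul_ne_zero (pow_ne_zero _ ?_) (hT v hv)
    intro h
    apply hv1
    have : z0 * (v - 1) = 0 := by rw [← h]; ring
    rcases mul_eq_zero.1 this with h6 | h6
    · exact absurd h6 hz0ne
    · exact sub_eq_zero.1 h6
  refine ⟨fun v => deriv G (z0 * v) - deriv Ψ (z0 * v) / Ψ (z0 * v), n, t1, η,
    M0 * (2 / κ ^ 2), 4 / κ, ht1', hn0, hη1, ?_, hΦv⟩
  refine ⟨ht1, hη, by positivity, ?_, ?_, ?_, ?_⟩
  · intro v hv
    obtain ⟨h1, h2⟩ := hre v hv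
    have h3 : 0 < (z0 * v).re := lt_of_lt_of_le (by positivity) h2
    have h4 : DifferentiableAt ℂ (fun v => deriv G (z0 * v) - deriv Ψ (z0 * v) / Ψ (z0 * v)) v := by
      have e1 : DifferentiableAt ℂ (fun v : ℂ => z0 * v) v := by fun_prop
      refine DifferentiableAt.sub ?_ (DifferentiableAt.div ?_ ?_ (hT v hv))
      · exact DifferentiableAt.comp (g := deriv G) (f := fun v => z0 * v) v (hGd _ h3) e1
      · exact DifferentiableAt.comp (g := deriv Ψ) (f := fun v => z0 * v) v (hΨd _) e1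
      · exact DifferentiableAt.comp (g := Ψ) (f := fun v => z0 * v) v (hΨ _) e1
    exact h4
  · intro v hv hv1
    obtain ⟨h1, h2⟩ := hre v hv
    have h3 : 0 < (z0 * v).re := lt_of_lt_of_le (by positivity) h2
    have h5 : Φ (z0 * v) ≠ 0 := hΦv v hv hv1
    have e1 : DifferentiableAt ℂ (fun v : ℂ => z0 * v) v := by fun_prop
    unfold Qf
    refine DifferentiableAt.sub ?_ (DifferentiableAt.div ?_ ?_ h5)
    · exact DifferentiableAt.comp (g := deriv G) (f := fun v => z0 * v) v (hGd _ h3) e1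
    · exact DifferentiableAt.comp (g := deriv Φ) (f := fun v => z0 * v) v (hΦd _) e1
    · exact DifferentiableAt.comp (g := Φ) (f := fun v => z0 * v) v (E.hΦ _) e1
  · intro v hv hv1
    have hv1' : v - 1 ≠ 0 := sub_ne_zero.2 hv1
    have hu : z0 * v - z0 ≠ 0 := by
      have : z0 * v - z0 = z0 * (v - 1) := by ring
      rw [this]
      exact mul_ne_zero hz0ne hv1'
    have hΨv := hT v hv
    unfold Qf
    have h3 : Φ = fun u => (u - z0) ^ n * Ψ u := funext hΨf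
    have h4 : HasDerivAt Φ ((n : ℂ) * (z0 * v - z0) ^ (n - 1) * Ψ (z0 * v) +
        (z0 * v - z0) ^ n * deriv Ψ (z0 * v)) (z0 * v) := by
      rw [h3]
      have h5 : HasDerivAt (fun u : ℂ => (u - z0) ^ n) ((n : ℂ) * (z0 * v - z0) ^ (n - 1) * 1)
          (z0 * v) := ((hasDerivAt_id (z0 * v)).sub_const z0).pow n
      rw [mul_one] at h5
      exact h5.mul (hΨ _).hasDerivAt
    rw [h4.deriv, hΨf (z0 * v)]
    have h6 : (z0 * v - z0) ^ n = (z0 * v - z0) ^ (n - 1) * (z0 * v - z0) := by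
      rw [← pow_succ]
      congr 1
      omega
    rw [h6]
    have h7 : (z0 * v - z0) ^ (n - 1) ≠ 0 := pow_ne_zero _ hu
    have h8 : (n : ℂ) / z0 / (v - 1) = n / (z0 * v - z0) := by
      rw [div_div]
      congr 1
      ring
    rw [h8]
    field_simp
    ring
  · intro v hv hV
    obtain ⟨h1, h2⟩ := hre v hv
    have h3 : 4 ≤ (z0 * v).re := by
      rw [div_le_iff₀ hκ0] at hV
      linarith
    show ‖Qf Φ G (z0 * v)‖ ≤ _
    rw [E.Qf_eq (by linarith)]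
    refine (hM1 _ h3).trans ?_
    have h4 : Real.exp (-(z0 * v).re) ≤ Real.exp (-(κ * v.re)) := Real.exp_le_exp.2 (by linarith)
    have h5 := h4.trans (exp_neg_le hκ0 h1)
    calc M0 * Real.exp (-(z0 * v).re) ≤ M0 * (2 / κ ^ 2 / v.re ^ 2) := by gcongr
      _ = _ := by ring

end Pool.Agent.L0h3.WB
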